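import Pool.Agent.H295R2.MK.Defs

set_option autoImplicit false

/-! Project MK, task R1: mean value of `zeta^j (b/a)^{it}` with error `T^{-B}`. -/

namespace Pool.Agent.H802R2.MK

open Finset Filter Topology MeasureTheory
open Pool.Agent.H306R2 H295MK

noncomputable section

theorem core_evB (B : ℕ) (j c0 : ℕ) (η δ : ℝ) (hη : 0 < η) (hη2 : η < 1 / 2) (hδ : 0 < δ) (hδ1 : δ ≤ 1) :
    ∀ᶠ T : ℝ in atTop, ∀ τ : ℝ, δ * T ≤ τ → τ ≤ T → ∀ A G : ArithmeticFunction ℝ,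
      PB A c0 → (∀ n : ℕ, T < n → A n = 0) → PB G c0 →
      ‖(∫ t in (τ - δ / 2 * T)..(τ + δ / 2 * T), (riemannZeta (1 / 2 + t * Complex.I) ^ j *
          Dp A T (1 / 2 + t * Complex.I)) *
        (starRingEnd ℂ) (Dp G (Yt η T) (1 / 2 + t * Complex.I)) * (gw τ (Ht η T) t : ℂ)) -
      ((∑ m ∈ Icc 1 ⌊Yt η T⌋₊, (zR ^ j * A) m * G m / m : ℝ) : ℂ)‖ ≤ 1 / T ^ B := by
  set c : ℕ := j + c0 + 1 with hc
  set κ : ℝ := min (1 / 32) (δ ^ 2 / 8) with hκ
  have hκ0 : 0 < κ := lt_min (by norm_num) (by positivity)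
  set P : ℕ := (3 * c + 4) + (c0 + 1) + 2 * j + (2 * c + 3) with hP
  set K : ℝ := Z2 + Z2 * Real.exp (((c:ℝ) + 2) ^ 2) * 2 +
    2 * (((c:ℝ) + 2) * (6 ^ j * ((c:ℝ) + 5) ^ (2 * j) * Real.exp (((c:ℝ) + 2) ^ 2))) with hK
  filter_upwards [small_ev (P + B) κ η K hκ0 hη, eventually_ge_atTop 1, eventually_ge_atTop (2 / δ),
    eventually_ge_atTop (16 * (2 * (c:ℝ) + 3))] with T hsmall0 hT1 hT2 hT3 τ hτ1 hτ2 A G hA hAX hG
  have hT0 : 0 < T := by linarith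
  have hsmall : K * (T ^ P * Real.exp (-(κ * T ^ (2 * η)))) ≤ 1 / T ^ B := by
    rw [le_div_iff₀ (by positivity)]
    refine le_trans (le_of_eq ?_) hsmall0
    rw [pow_add]
    ring
  have hc0 : (0:ℝ) ≤ c := Nat.cast_nonneg c
  have hY1 : 1 ≤ Yt η T := Real.one_le_rpow hT1 (by linarith)
  have hYT : Yt η T ≤ T := by
    unfold Yt
    calc T ^ (1 - 2 * η) ≤ T ^ (1:ℝ) := Real.rpow_le_rpow_of_exponent_le hT1 (by linarith)
      _ = T := Real.rpow_one T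
  have hH1 : 1 ≤ Ht η T := Real.one_le_rpow hT1 (by linarith)
  have hδT : 2 ≤ δ * T := by
    rw [div_le_iff₀ hδ] at hT2
    linarith
  have hf : PB (zR ^ j * A) c := by
    have h1 := (PB_zR.pow j).mul hA
    rw [show j * (0 + 1) + c0 + 1 = c by rw [hc]; ring] at h1
    exact h1
  have hg : PB G c := hG.mono (by omega)
  have hcont := contour (fun s => riemannZeta s ^ j * Dp A T s) (6 ^ j * T ^ (c0 + 1)) (by positivity)
    (2 * j) ?_ ?_ (fun n => (zR ^ j * A) n) (fun n => G n) (Yt η T) τ (Ht η T) (δ / 2 * T)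
    (((c:ℝ) + 5) * T) hY1 hH1 c (by simp) hf hg (HY_le η T _ hT0 hT3) ?_ (by positivity)
    (by linarith) ?_
  rotate_left
  · intro s hs hs1
    have := differentiableAt_riemannZeta hs1
    exact (this.pow j).mul (Dp_differentiable _ T s)
  · intro s hs him
    have h1 : (1:ℝ) / 2 ≤ ‖s - 1‖ := by
      have := Complex.abs_im_le_norm (s - 1)
      simp only [Complex.sub_im, Complex.one_im, sub_zero] at this
      linarith
    have h2 := zeta_norm_le hs h1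
    have h3 := norm_Dp_le (fun n => A n) T hT1 c0 hA s (by linarith)
    rw [norm_mul, norm_pow]
    calc ‖riemannZeta s‖ ^ j * ‖Dp (fun n => A n) T s‖ ≤
        (6 * (‖s‖ + 1) ^ 2) ^ j * T ^ (c0 + 1) := by gcongr
      _ = 6 ^ j * T ^ (c0 + 1) * (‖s‖ + 1) ^ (2 * j) := by
          rw [mul_pow, ← pow_mul]; ring
  · intro y
    have := zetaA_hasSum j A T hAX (((1 / 2 + ((c:ℝ) + 2) : ℝ) : ℂ) + y * Complex.I) (by
      simp; linarith)
    exact this
  · nlinarith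
  refine hcont.trans (le_trans ?_ hsmall)
  -- exponentials
  have hx1 : Real.exp (-(Ht η T ^ 2 / (32 * Yt η T ^ 2))) ≤ Real.exp (-(κ * T ^ (2 * η))) := by
    apply Real.exp_le_exp.mpr
    rw [HY_sq η T hT0]
    have h1 : κ ≤ 1 / 32 := min_le_left _ _
    have h2 : (0:ℝ) < T ^ (2 * η) := Real.rpow_pos_of_pos hT0 _
    nlinarith
  have hx2 : Real.exp (-((δ / 2 * T) ^ 2 / (2 * Ht η T ^ 2))) ≤ Real.exp (-(κ * T ^ (2 * η))) := by
    apply Real.exp_le_exp.mpr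
    have e := RH_sq η T (δ / 2) hT0
    have h0 : (0:ℝ) < Ht η T ^ 2 := by positivity
    rw [show (δ / 2 * T) ^ 2 / (2 * Ht η T ^ 2) = ((δ / 2 * T) ^ 2 / Ht η T ^ 2) / 2 by field_simp, e]
    have h1 : κ ≤ δ ^ 2 / 8 := min_le_right _ _
    have h2 : (0:ℝ) < T ^ (2 * η) := Real.rpow_pos_of_pos hT0 _
    nlinarith
  have hx3 : Real.exp (-((δ / 2 * T) ^ 2 / Ht η T ^ 2)) ≤ Real.exp (-(κ * T ^ (2 * η))) := by
    refine le_trans ?_ hx2
    apply Real.exp_le_exp.mpr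
    have h0 : (0:ℝ) < Ht η T ^ 2 := by positivity
    have : (δ / 2 * T) ^ 2 / (2 * Ht η T ^ 2) ≤ (δ / 2 * T) ^ 2 / Ht η T ^ 2 := by
      gcongr
      linarith
    linarith
  have hx4 : Real.exp (((c:ℝ) + 2) ^ 2 / Ht η T ^ 2) ≤ Real.exp (((c:ℝ) + 2) ^ 2) := by
    apply Real.exp_le_exp.mpr
    apply div_le_self (by positivity)
    exact one_le_pow₀ hH1
  have hZ := Z2_nonneg
  set E := Real.exp (-(κ * T ^ (2 * η))) with hE
  have hE0 : 0 < E := Real.exp_pos _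
  have hYp : ∀ a : ℕ, a ≤ P → Yt η T ^ a ≤ T ^ P := fun a ha =>
    (pow_le_pow_left₀ (by linarith) hYT a).trans (pow_le_pow_right₀ hT1 ha)
  have t1 : Z2 * (Yt η T ^ (3 * c + 4) * Real.exp (-(Ht η T ^ 2 / (32 * Yt η T ^ 2)))) ≤
      Z2 * (T ^ P * E) := by
    have := hYp (3 * c + 4) (by omega)
    gcongr
  have t2 : Z2 * (Yt η T ^ (2 * c + 3) * Real.exp (((c:ℝ) + 2) ^ 2 / Ht η T ^ 2)) *
        (2 * Real.exp (-((δ / 2 * T) ^ 2 / (2 * Ht η T ^ 2)))) ≤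
      Z2 * Real.exp (((c:ℝ) + 2) ^ 2) * 2 * (T ^ P * E) := by
    have := hYp (2 * c + 3) (by omega)
    calc _ ≤ Z2 * (T ^ P * Real.exp (((c:ℝ) + 2) ^ 2)) * (2 * E) := by gcongr
      _ = _ := by ring
  have t3 : 2 * (((c:ℝ) + 2) * (6 ^ j * T ^ (c0 + 1) * (((c:ℝ) + 5) * T) ^ (2 * j) *
        Yt η T ^ (2 * c + 3) *
        (Real.exp (((c:ℝ) + 2) ^ 2 / Ht η T ^ 2) * Real.exp (-((δ / 2 * T) ^ 2 / Ht η T ^ 2))))) ≤
      2 * (((c:ℝ) + 2) * (6 ^ j * ((c:ℝ) + 5) ^ (2 * j) * Real.exp (((c:ℝ) + 2) ^ 2))) *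
        (T ^ P * E) := by
    have h1 : Yt η T ^ (2 * c + 3) ≤ T ^ (2 * c + 3) := pow_le_pow_left₀ (by linarith) hYT _
    have h2 : T ^ (c0 + 1) * T ^ (2 * j) * T ^ (2 * c + 3) ≤ T ^ P := by
      rw [← pow_add, ← pow_add]
      exact pow_le_pow_right₀ hT1 (by omega)
    calc _ ≤ 2 * (((c:ℝ) + 2) * (6 ^ j * T ^ (c0 + 1) * (((c:ℝ) + 5) * T) ^ (2 * j) *
        T ^ (2 * c + 3) * (Real.exp (((c:ℝ) + 2) ^ 2) * E))) := by gcongr
      _ = 2 * (((c:ℝ) + 2) * (6 ^ j * ((c:ℝ) + 5) ^ (2 * j) * Real.exp (((c:ℝ) + 2) ^ 2))) *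
          ((T ^ (c0 + 1) * T ^ (2 * j) * T ^ (2 * c + 3)) * E) := by
          rw [mul_pow]; ring
      _ ≤ _ := by gcongr
  calc _ ≤ Z2 * (T ^ P * E) + Z2 * Real.exp (((c:ℝ) + 2) ^ 2) * 2 * (T ^ P * E) +
      2 * (((c:ℝ) + 2) * (6 ^ j * ((c:ℝ) + 5) ^ (2 * j) * Real.exp (((c:ℝ) + 2) ^ 2))) *
        (T ^ P * E) := add_le_add (add_le_add t1 t2) t3
    _ = K * (T ^ P * E) := by rw [hK]; ring


/-- the indicator of `a` -/
def dl (a : ℕ) : ArithmeticFunction ℝ := ⟨fun n => if n ≠ 0 ∧ n = a then 1 else 0, by simp⟩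

lemma dl_apply (a n : ℕ) : dl a n = if n ≠ 0 ∧ n = a then 1 else 0 := rfl

lemma dl_self {a : ℕ} (ha : 1 ≤ a) : dl a a = 1 := by
  rw [dl_apply, if_pos ⟨by omega, rfl⟩]

lemma dl_ne {a n : ℕ} (h : n ≠ a) : dl a n = 0 := by
  rw [dl_apply, if_neg (fun h1 => h h1.2)]

lemma PB_dl (a : ℕ) : PB (dl a) 0 := by
  intro n
  rw [dl_apply]
  split_ifs <;> simp

lemma Dp_dl {a : ℕ} (ha : 1 ≤ a) {Y : ℝ} (haY : (a : ℝ) ≤ Y) (s : ℂ) :
    Dp (dl a) Y s = (a : ℂ) ^ (-s) := by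
  unfold Dp
  rw [Finset.sum_eq_single a]
  · rw [dl_self ha]; simp
  · intro n _ hn
    rw [dl_ne hn]; simp
  · intro h
    exact absurd (mem_Icc.2 ⟨ha, Nat.le_floor haY⟩) h

lemma main_dl (j : ℕ) {a b : ℕ} (ha : 1 ≤ a) (hb : 1 ≤ b) {Y : ℝ} (hbY : (b : ℝ) ≤ Y) :
    ∑ m ∈ Icc 1 ⌊Y⌋₊, (zR ^ j * dl a) m * dl b m / m =
      (if a ∣ b then dv j (b / a) else 0) / b := by
  rw [Finset.sum_eq_single b]
  · rw [dl_self hb, mul_one]
    congr 1
    rw [ArithmeticFunction.mul_apply, ← dA_nat]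
    split_ifs with h
    · obtain ⟨c, rfl⟩ := h
      have hc : c ≠ 0 := by
        rintro rfl
        omega
      rw [Nat.mul_div_cancel_left c (by omega)]
      rw [Finset.sum_eq_single (c, a)]
      · rw [dl_self ha, mul_one, dA_apply]
      · rintro ⟨x, y⟩ hxy hne
        rw [Nat.mem_divisorsAntidiagonal] at hxy
        by_cases h1 : y = a
        · exfalso
          apply hne
          subst h1
          have h2 : x = c := by
            have h3 : x * y = c * y := by rw [hxy.1]; ring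
            exact Nat.eq_of_mul_eq_mul_right (by omega) h3
          rw [h2]
        · rw [dl_ne h1, mul_zero]
      · intro h1
        exfalso
        apply h1
        rw [Nat.mem_divisorsAntidiagonal]
        exact ⟨by ring, by positivity⟩
    · apply Finset.sum_eq_zero
      rintro ⟨x, y⟩ hxy
      rw [Nat.mem_divisorsAntidiagonal] at hxy
      have h1 : y ≠ a := by
        rintro rfl
        exact h ⟨x, by rw [← hxy.1]; ring⟩
      rw [dl_ne h1, mul_zero]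
  · intro n _ hn
    rw [dl_ne hn]; simp
  · intro h
    exact absurd (mem_Icc.2 ⟨hb, Nat.le_floor hbY⟩) h

lemma pt {a b : ℕ} (ha : 1 ≤ a) (hb : 1 ≤ b) (t : ℝ) :
    H295MK.fr a b t = ((Real.sqrt ((a : ℝ) * b) : ℝ) : ℂ) * ((a : ℂ) ^ (-(1 / 2 + t * Complex.I)) *
      (starRingEnd ℂ) ((b : ℂ) ^ (-(1 / 2 + t * Complex.I)))) := by
  have ha0 : (0 : ℝ) < a := by exact_mod_cast ha
  have hb0 : (0 : ℝ) < b := by exact_mod_cast hb
  rw [ncpow_exp a ha, ncpow_exp b hb, ← Complex.exp_conj]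
  have h1 : ((Real.sqrt ((a : ℝ) * b) : ℝ) : ℂ) =
      Complex.exp (((1 / 2 * (Real.log a + Real.log b) : ℝ)) : ℂ) := by
    rw [← Complex.ofReal_exp]
    congr 1
    rw [Real.sqrt_eq_rpow, Real.rpow_def_of_pos (by positivity),
      Real.log_mul ha0.ne' hb0.ne']
    congr 1
    ring
  rw [h1, ← Complex.exp_add, ← Complex.exp_add]
  unfold H295MK.fr
  congr 1
  simp only [map_mul, map_neg, map_add, map_div₀, map_one, map_ofNat, Complex.conj_ofReal,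
    Complex.conj_I]
  push_cast
  ring

theorem R1 : TwZ := by
  intro j B η δ hη hη2 hδ hδ1
  filter_upwards [core_evB (B + 1) j 0 η δ hη hη2 hδ hδ1, eventually_ge_atTop 1] with T hT hT1 τ hτ1 hτ2 a b ha haT hb hbY
  have hT0 : 0 < T := by linarith
  have hYT : Yt η T ≤ T := by
    unfold Yt
    calc T ^ (1 - 2 * η) ≤ T ^ (1:ℝ) := Real.rpow_le_rpow_of_exponent_le hT1 (by linarith)
      _ = T := Real.rpow_one T
  have ha0 : (0 : ℝ) < a := by exact_mod_cast ha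
  have hb0 : (0 : ℝ) < b := by exact_mod_cast hb
  have h := hT τ hτ1 hτ2 (dl a) (dl b) (PB_dl a) (fun n hn => dl_ne (by
    rintro rfl
    linarith)) (PB_dl b)
  rw [main_dl j ha hb hbY] at h
  set S : ℝ := Real.sqrt ((a : ℝ) * b) with hS
  have hS0 : 0 ≤ S := Real.sqrt_nonneg _
  have hST : S ≤ T := by
    rw [hS, Real.sqrt_le_left hT0.le]
    nlinarith
  have e1 : win η δ T τ (fun t => riemannZeta (cl t) ^ j * H295MK.fr a b t) =
      (S : ℂ) * ∫ t in (τ - δ / 2 * T)..(τ + δ / 2 * T), (riemannZeta (1 / 2 + t * Complex.I) ^ j *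
          Dp (dl a) T (1 / 2 + t * Complex.I)) *
        (starRingEnd ℂ) (Dp (dl b) (Yt η T) (1 / 2 + t * Complex.I)) * (gw τ (Ht η T) t : ℂ) := by
    unfold win
    rw [← intervalIntegral.integral_const_mul]
    congr 1
    ext t
    rw [Dp_dl ha haT, Dp_dl hb hbY]
    show riemannZeta (cl t) ^ j * H295MK.fr a b t * _ = _
    rw [pt ha hb t]
    unfold cl
    ring
  have e2 : (H295MK.mt j a b : ℂ) = (S : ℂ) * (((if a ∣ b then dv j (b / a) else 0) / b : ℝ) : ℂ) := by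
    rw [← Complex.ofReal_mul]
    congr 1
    unfold H295MK.mt
    split_ifs with h1
    · have h2 : Real.sqrt ((a : ℝ) / b) = S / b := by
        rw [hS, show (a : ℝ) / b = (a * b) / (b ^ 2) by field_simp, Real.sqrt_div (by positivity),
          Real.sqrt_sq hb0.le]
      rw [h2]
      ring
    · simp
  rw [e1, e2, ← mul_sub, norm_mul, Complex.norm_real, Real.norm_of_nonneg hS0]
  calc S * _ ≤ T * (1 / T ^ (B + 1)) := mul_le_mul hST h (norm_nonneg _) hT0.le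
    _ = 1 / T ^ B := by
      rw [pow_succ]
      field_simp

end

end Pool.Agent.H802R2.MK
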