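import Mathlib

set_option autoImplicit false

open Complex Metric Set Filter Topology

namespace Pool.Agent.H802R2.AC

/-- The `n`-th Taylor coefficient of `f` at the origin. -/
noncomputable def tc (n : ℕ) (f : ℂ → ℂ) : ℂ := iteratedDeriv n f 0 / (n.factorial : ℂ)

/-- Analytic functions on the open unit disc. -/
def An (f : ℂ → ℂ) : Prop := DifferentiableOn ℂ f (ball (0:ℂ) 1)

theorem An.analyticAt {f : ℂ → ℂ} (hf : An f) {z : ℂ} (hz : z ∈ ball (0:ℂ) 1) : AnalyticAt ℂ f z :=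
  DifferentiableOn.analyticAt hf (isOpen_ball.mem_nhds hz)

theorem An.differentiableAt {f : ℂ → ℂ} (hf : An f) {z : ℂ} (hz : z ∈ ball (0:ℂ) 1) :
    DifferentiableAt ℂ f z :=
  DifferentiableOn.differentiableAt hf (isOpen_ball.mem_nhds hz)

theorem An.hasDerivAt {f : ℂ → ℂ} (hf : An f) {z : ℂ} (hz : z ∈ ball (0:ℂ) 1) :
    HasDerivAt f (deriv f z) z := (hf.differentiableAt hz).hasDerivAt

theorem zero_mem : (0:ℂ) ∈ ball (0:ℂ) 1 := mem_ball_self one_pos

theorem An.contDiffAt {f : ℂ → ℂ} (hf : An f) (n : ℕ) : ContDiffAt ℂ n f 0 :=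
  (hf.analyticAt zero_mem).contDiffAt

theorem An.deriv {f : ℂ → ℂ} (hf : An f) : An (deriv f) :=
  DifferentiableOn.deriv hf isOpen_ball

theorem An.mul {f g : ℂ → ℂ} (hf : An f) (hg : An g) : An (fun z => f z * g z) :=
  DifferentiableOn.mul hf hg

theorem An.add {f g : ℂ → ℂ} (hf : An f) (hg : An g) : An (fun z => f z + g z) :=
  DifferentiableOn.add hf hg

theorem An.sub {f g : ℂ → ℂ} (hf : An f) (hg : An g) : An (fun z => f z - g z) :=
  DifferentiableOn.sub hf hg

theorem An.const (c : ℂ) : An (fun _ => c) := differentiableOn_const c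

theorem An.id : An (fun z => z) := differentiableOn_id

theorem An.cmul {f : ℂ → ℂ} (hf : An f) (c : ℂ) : An (fun z => c * f z) :=
  (An.const c).mul hf

theorem An.pow {f : ℂ → ℂ} (hf : An f) (n : ℕ) : An (fun z => f z ^ n) :=
  DifferentiableOn.pow hf n

theorem An.congr {f g : ℂ → ℂ} (hf : An f) (h : ∀ z ∈ ball (0:ℂ) 1, g z = f z) : An g :=
  DifferentiableOn.congr hf h

theorem tc_congr {f g : ℂ → ℂ} (n : ℕ) (h : ∀ z ∈ ball (0:ℂ) 1, f z = g z) : tc n f = tc n g := by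
  have : f =ᶠ[𝓝 0] g := by
    filter_upwards [isOpen_ball.mem_nhds zero_mem] with z hz using h z hz
  rw [tc, tc, this.iteratedDeriv_eq n]

theorem tc_zero (f : ℂ → ℂ) : tc 0 f = f 0 := by simp [tc]

theorem tc_add {f g : ℂ → ℂ} (hf : An f) (hg : An g) (n : ℕ) :
    tc n (fun z => f z + g z) = tc n f + tc n g := by
  rw [tc, tc, tc, ← add_div]
  congr 1
  exact iteratedDeriv_add (hf.contDiffAt n) (hg.contDiffAt n)

theorem tc_sub {f g : ℂ → ℂ} (hf : An f) (hg : An g) (n : ℕ) :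
    tc n (fun z => f z - g z) = tc n f - tc n g := by
  rw [tc, tc, tc, ← sub_div]
  congr 1
  exact iteratedDeriv_sub (hf.contDiffAt n) (hg.contDiffAt n)

theorem tc_cmul (c : ℂ) (f : ℂ → ℂ) (n : ℕ) :
    tc n (fun z => c * f z) = c * tc n f := by
  have h : iteratedDeriv n (fun z => c * f z) 0 = c * iteratedDeriv n f 0 := by
    exact iteratedDeriv_const_mul_field c f
  rw [tc, tc, h, mul_div_assoc]

theorem tc_mul {f g : ℂ → ℂ} (hf : An f) (hg : An g) (n : ℕ) :
    tc n (fun z => f z * g z) = ∑ i ∈ Finset.range (n + 1), tc i f * tc (n - i) g := by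
  rw [tc, iteratedDeriv_fun_mul (hf.contDiffAt n) (hg.contDiffAt n), Finset.sum_div]
  refine Finset.sum_congr rfl fun i hi => ?_
  have hi' : i ≤ n := Nat.lt_succ_iff.mp (Finset.mem_range.mp hi)
  rw [tc, tc, Nat.cast_choose ℂ hi']
  have h1 : (n.factorial : ℂ) ≠ 0 := by exact_mod_cast n.factorial_ne_zero
  have h2 : (i.factorial : ℂ) ≠ 0 := by exact_mod_cast i.factorial_ne_zero
  have h3 : ((n - i).factorial : ℂ) ≠ 0 := by exact_mod_cast (n - i).factorial_ne_zero
  field_simp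

theorem tc_const (c : ℂ) (n : ℕ) : tc n (fun _ => c) = if n = 0 then c else 0 := by
  rw [tc, iteratedDeriv_const]
  split_ifs with h
  · subst h; simp
  · simp

theorem tc_deriv (f : ℂ → ℂ) (n : ℕ) : tc n (deriv f) = (n + 1) * tc (n + 1) f := by
  rw [tc, tc, iteratedDeriv_succ', Nat.factorial_succ]
  have h1 : (n.factorial : ℂ) ≠ 0 := by exact_mod_cast n.factorial_ne_zero
  have h2 : ((n : ℂ) + 1) ≠ 0 := by exact_mod_cast n.succ_ne_zero
  push_cast
  field_simp

theorem tc_id (n : ℕ) : tc n (fun z => z) = if n = 1 then 1 else 0 := by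
  rw [tc, iteratedDeriv_fun_id_zero]
  split_ifs with h
  · subst h; simp
  · simp

theorem tc_zmul_zero (f : ℂ → ℂ) : tc 0 (fun z => z * f z) = 0 := by rw [tc_zero]; simp

theorem tc_zmul_succ {f : ℂ → ℂ} (hf : An f) (n : ℕ) : tc (n + 1) (fun z => z * f z) = tc n f := by
  rw [tc_mul An.id hf, Finset.sum_eq_single 1]
  · simp [tc_id]
  · intro b _ hb
    rw [tc_id, if_neg hb, zero_mul]
  · intro h
    exact absurd (Finset.mem_range.mpr (by omega)) h

theorem tc_zderiv {f : ℂ → ℂ} (hf : An f) (n : ℕ) :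
    tc n (fun z => z * deriv f z) = n * tc n f := by
  cases n with
  | zero => rw [tc_zmul_zero]; simp
  | succ n => rw [tc_zmul_succ hf.deriv, tc_deriv]; push_cast; ring

theorem hasSum_tc {f : ℂ → ℂ} (hf : An f) {z : ℂ} (hz : z ∈ ball (0:ℂ) 1) :
    HasSum (fun n => tc n f * z ^ n) (f z) := by
  have h := Complex.hasSum_taylorSeries_on_ball hf hz
  convert! h using 2 with n
  rw [tc, smul_eq_mul, smul_eq_mul, sub_zero, div_eq_inv_mul]
  ring

theorem ext_tc {f g : ℂ → ℂ} (hf : An f) (hg : An g) (h : ∀ n, tc n f = tc n g) {z : ℂ}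
    (hz : z ∈ ball (0:ℂ) 1) : f z = g z := by
  have h1 := hasSum_tc hf hz
  have h2 := hasSum_tc hg hz
  have h3 : (fun n => tc n f * z ^ n) = fun n => tc n g * z ^ n := by
    funext n; rw [h n]
  rw [h3] at h1
  exact h1.unique h2

theorem summable_tc {f : ℂ → ℂ} (hf : An f) {r : ℝ} (hr0 : 0 ≤ r) (hr1 : r < 1) :
    Summable (fun n => ‖tc n f‖ * r ^ n) := by
  have hz : (r : ℂ) ∈ ball (0:ℂ) 1 := by
    rw [mem_ball_zero_iff, Complex.norm_real, Real.norm_of_nonneg hr0]; exact hr1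
  have h := (hasSum_tc hf hz).summable.norm
  refine h.congr fun n => ?_
  rw [norm_mul, norm_pow, Complex.norm_real, Real.norm_of_nonneg hr0]

theorem mem_of_norm {z : ℂ} (h : ‖z‖ < 1) : z ∈ ball (0:ℂ) 1 := by
  rw [mem_ball_zero_iff]; exact h

theorem norm_of_mem {z : ℂ} (h : z ∈ ball (0:ℂ) 1) : ‖z‖ < 1 := by
  rw [mem_ball_zero_iff] at h; exact h

theorem dil_mem {ρ : ℝ} (h0 : 0 ≤ ρ) (h1 : ρ ≤ 1) {z : ℂ} (h : z ∈ ball (0:ℂ) 1) :
    (ρ : ℂ) * z ∈ ball (0:ℂ) 1 := by
  apply mem_of_norm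
  rw [norm_mul, Complex.norm_real, Real.norm_of_nonneg h0]
  have := norm_of_mem h
  nlinarith [norm_nonneg z]

theorem An.dil {f : ℂ → ℂ} (hf : An f) {ρ : ℝ} (h0 : 0 ≤ ρ) (h1 : ρ ≤ 1) :
    An (fun z => f (ρ * z)) := by
  intro z hz
  have h2 : DifferentiableAt ℂ f (ρ * z) := hf.differentiableAt (dil_mem h0 h1 hz)
  have h3 : DifferentiableAt ℂ (fun z : ℂ => (ρ : ℂ) * z) z := by fun_prop
  exact (h2.comp z h3).differentiableWithinAt

theorem tc_dil {f : ℂ → ℂ} (hf : An f) {ρ : ℝ} (h0 : 0 ≤ ρ) (h1 : ρ ≤ 1) (n : ℕ) :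
    tc n (fun z => f (ρ * z)) = (ρ : ℂ) ^ n * tc n f := by
  have h : iteratedDeriv n (fun z => f ((ρ : ℂ) * z)) 0 = (ρ : ℂ) ^ n * iteratedDeriv n f 0 := by
    have hU : IsOpen (ball (0:ℂ) 1) := isOpen_ball
    have key := iteratedDerivWithin_comp_const_smul (s := ball (0:ℂ) 1) (n := n) (x := (0:ℂ))
      (f := f) (c := (ρ : ℂ)) zero_mem hU.uniqueDiffOn
      ((hf : DifferentiableOn ℂ f _).contDiffOn hU)
      (fun z hz => by simpa using dil_mem h0 h1 hz)
    rw [iteratedDerivWithin_of_isOpen hU zero_mem] at key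
    simp only [smul_eq_mul, mul_zero] at key
    rw [iteratedDerivWithin_of_isOpen hU zero_mem] at key
    exact key
  rw [tc, tc, h, mul_div_assoc]

theorem dslope_eq {f : ℂ → ℂ} (z : ℂ) : f z = f 0 + z * dslope f 0 z := by
  by_cases h : z = 0
  · subst h; simp
  · rw [dslope_of_ne f h, slope_def_field, sub_zero]
    field_simp
    ring

theorem An.dslope {f : ℂ → ℂ} (hf : An f) : An (dslope f 0) := by
  rw [An, Complex.differentiableOn_dslope (isOpen_ball.mem_nhds zero_mem)]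
  exact hf

theorem tc_dslope {f : ℂ → ℂ} (hf : An f) (n : ℕ) : tc n (dslope f 0) = tc (n + 1) f := by
  have h1 : tc (n + 1) f = tc (n + 1) (fun z => f 0 + z * dslope f 0 z) :=
    tc_congr _ fun z _ => dslope_eq z
  rw [h1, tc_add (An.const _) (An.id.mul hf.dslope), tc_const, tc_zmul_succ hf.dslope]
  simp

/-- Existence of an analytic function with given coefficients. -/
theorem exists_of_coeff (c : ℕ → ℂ) (hc : ∀ r : ℝ, 0 ≤ r → r < 1 → Summable fun n => ‖c n‖ * r ^ n) :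
    ∃ f : ℂ → ℂ, An f ∧ ∀ n, tc n f = c n := by
  set p : FormalMultilinearSeries ℂ ℂ ℂ := FormalMultilinearSeries.ofScalars ℂ c with hp
  have hrad : (1 : ENNReal) ≤ p.radius := by
    refine ENNReal.le_of_forall_nnreal_lt fun r hr => ?_
    have hr1 : (r : ℝ) < 1 := by exact_mod_cast hr
    apply p.le_radius_of_summable
    refine (hc r r.2 hr1).congr fun n => ?_
    rw [hp, FormalMultilinearSeries.ofScalars_norm]
  have hpos : (0 : ENNReal) < p.radius := lt_of_lt_of_le one_pos hrad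
  have hF := p.hasFPowerSeriesOnBall hpos
  refine ⟨p.sum, ?_, ?_⟩
  · have h1 := hF.differentiableOn
    refine h1.mono fun z hz => ?_
    have : (‖z‖ₑ : ENNReal) < 1 := by
      have := norm_of_mem hz
      rw [← ofReal_norm, ← ENNReal.ofReal_one]
      exact (ENNReal.ofReal_lt_ofReal_iff one_pos).mpr this
    rw [mem_eball_zero_iff]
    exact lt_of_lt_of_le this hrad
  · intro n
    have h2 : HasFPowerSeriesAt p.sum p 0 := hF.hasFPowerSeriesAt
    have h3 := (h2.analyticAt).hasFPowerSeriesAt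
    have h4 := h3.eq_formalMultilinearSeries h2
    rw [hp] at h4
    have h5 := FormalMultilinearSeries.ofScalars_series_injective ℂ ℂ h4
    exact congrFun h5 n

end Pool.Agent.H802R2.AC
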