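import Pool.Agent.H802R2.AC9

set_option autoImplicit false

open Complex Metric Set Filter Topology

namespace Pool.Agent.H802R2.AC

/-- The class `M(α)` of alpha-convex (Mocanu) functions. At `z = 0` the expression has the
removable value `1`, so only `z ≠ 0` is recorded. -/
def Mocanu (α : ℝ) : Set (ℂ → ℂ) :=
  {f | DifferentiableOn ℂ f (ball (0:ℂ) 1) ∧ InjOn f (ball (0:ℂ) 1) ∧ f 0 = 0 ∧ deriv f 0 = 1 ∧
    ∀ z ∈ ball (0:ℂ) 1, z ≠ 0 →
      0 < ((α:ℂ) * (1 + z * deriv (deriv f) z / deriv f z) +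
        (1 - (α:ℂ)) * (z * deriv f z / f z)).re}

/-- `q^(1-α)`. -/
noncomputable def pw (α : ℝ) (q : ℂ → ℂ) (z : ℂ) : ℂ := Complex.exp ((1 - (α:ℂ)) * Complex.log (q z))

theorem pw_An {α : ℝ} {q : ℂ → ℂ} (hq : An q) (hre : ∀ z ∈ ball (0:ℂ) 1, 0 < (q z).re) :
    An (pw α q) := ((hq.clog hre).cmul _).cexp

theorem pw_deriv {α : ℝ} {q : ℂ → ℂ} (hq : An q) (hre : ∀ z ∈ ball (0:ℂ) 1, 0 < (q z).re) {z : ℂ}
    (hz : z ∈ ball (0:ℂ) 1) : HasDerivAt (pw α q) ((1 - (α:ℂ)) * (deriv q z / q z) * pw α q z) z := by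
  have h1 := ((hq.hasDerivAt hz).clog (Or.inl (hre z hz))).const_mul (1 - (α:ℂ))
  have h2 := h1.cexp
  convert! h2 using 1
  rw [pw]; ring

/-- Decomposition of alpha-convex functions. -/
theorem decomp {α : ℝ} (hα0 : 0 < α) {f : ℂ → ℂ} (hf : f ∈ Mocanu α) :
    ∃ p q S : ℂ → ℂ, An p ∧ An q ∧ An S ∧ (∀ z ∈ ball (0:ℂ) 1, 0 < (p z).re) ∧ p 0 = 1 ∧
      (∀ z ∈ ball (0:ℂ) 1, 0 < (q z).re) ∧ q 0 = 1 ∧
      (∀ z ∈ ball (0:ℂ) 1, z * deriv q z = (α⁻¹ : ℝ) * q z * (p z - q z)) ∧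
      S 0 = 1 ∧ (∀ z ∈ ball (0:ℂ) 1, z * deriv S z = (p z - 1) / 2 * S z) ∧
      ∀ z ∈ ball (0:ℂ) 1, deriv f z = S z * (1 * S z) * pw α q z := by
  obtain ⟨hfd, hfi, hf0, hf1, hfc⟩ := hf
  have hfA : An f := hfd
  have hα : (α:ℂ) ≠ 0 := by exact_mod_cast hα0.ne'
  set φ : ℂ → ℂ := dslope f 0 with hφ
  have hφA : An φ := hfA.dslope
  have hfφ : ∀ z, f z = z * φ z := by
    intro z
    have := dslope_eq (f := f) z
    rw [hf0, zero_add] at this
    exact this
  have hφ0 : φ 0 = 1 := by rw [hφ, dslope_same, hf1]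
  have hφne : ∀ z ∈ ball (0:ℂ) 1, φ z ≠ 0 := by
    intro z hz h
    by_cases hz0 : z = 0
    · rw [hz0, hφ0] at h; exact one_ne_zero h
    · have h1 : f z = f 0 := by rw [hfφ z, h, mul_zero, hf0]
      exact hz0 (hfi hz zero_mem h1)
  have hdf : ∀ z ∈ ball (0:ℂ) 1, deriv f z = φ z + z * deriv φ z := by
    intro z hz
    have h1 : HasDerivAt (fun z => z * φ z) (1 * φ z + z * deriv φ z) z :=
      (hasDerivAt_id z).mul (hφA.hasDerivAt hz)
    have h2 : f = fun z => z * φ z := funext hfφ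
    rw [h2, h1.deriv, one_mul]
  have hdne : ∀ z ∈ ball (0:ℂ) 1, deriv f z ≠ 0 := fun z hz =>
    Pool.Agent.Helper202.Geom.deriv_ne_zero_of_injOn isOpen_ball hfd hfi hz
  set q : ℂ → ℂ := fun z => deriv f z / φ z with hq
  have hqA : An q := hfA.deriv.div hφA hφne
  have hqne : ∀ z ∈ ball (0:ℂ) 1, q z ≠ 0 := fun z hz => div_ne_zero (hdne z hz) (hφne z hz)
  have hq0 : q 0 = 1 := by rw [hq]; simp only []; rw [hφ0, hf1, div_one]
  set p : ℂ → ℂ := fun z => q z + α * (z * deriv q z / q z) with hp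
  have hpA : An p := hqA.add (((An.id.mul hqA.deriv).div hqA hqne).cmul _)
  have hp0 : p 0 = 1 := by rw [hp]; simp only []; rw [hq0]; simp
  have hfq : ∀ z ∈ ball (0:ℂ) 1, deriv f z = q z * φ z := by
    intro z hz
    have := hφne z hz
    rw [hq]; simp only []; field_simp
  have hd2 : ∀ z ∈ ball (0:ℂ) 1, deriv (deriv f) z = deriv q z * φ z + q z * deriv φ z := by
    intro z hz
    have h1 : HasDerivAt (fun z => q z * φ z) (deriv q z * φ z + q z * deriv φ z) z :=
      (hqA.hasDerivAt hz).mul (hφA.hasDerivAt hz)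
    have h2 : deriv f =ᶠ[𝓝 z] fun z => q z * φ z := by
      filter_upwards [isOpen_ball.mem_nhds hz] with y hy using hfq y hy
    rw [h2.deriv_eq, h1.deriv]
  have hzφ : ∀ z ∈ ball (0:ℂ) 1, z * deriv φ z = q z * φ z - φ z := by
    intro z hz
    rw [← hfq z hz, hdf z hz]; ring
  have hode : ∀ z ∈ ball (0:ℂ) 1, z * deriv q z = (α⁻¹ : ℝ) * q z * (p z - q z) := by
    intro z hz
    have := hqne z hz
    rw [hp]; simp only []; push_cast
    field_simp
    ring
  have hpre : ∀ z ∈ ball (0:ℂ) 1, 0 < (p z).re := by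
    intro z hz
    by_cases hz0 : z = 0
    · rw [hz0, hp0]; simp
    · have h1 := hfc z hz hz0
      have h2 : (α:ℂ) * (1 + z * deriv (deriv f) z / deriv f z) +
        (1 - (α:ℂ)) * (z * deriv f z / f z) = p z := by
        have e1 := hqne z hz
        have e2 := hφne z hz
        have e3 := hzφ z hz
        have e4 : z * deriv (deriv f) z = z * deriv q z * φ z + q z * (q z * φ z - φ z) := by
          rw [hd2 z hz, ← e3]; ring
        rw [e4, hfq z hz, hfφ z, hp]
        simp only []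
        field_simp
        ring
      rw [h2] at h1
      exact h1
  have hqre : ∀ z ∈ ball (0:ℂ) 1, 0 < (q z).re := by
    have hJ : An (fun z => (α:ℂ) * (q z)⁻¹) := (hqA.inv hqne).cmul _
    have hP : ∀ z ∈ ball (0:ℂ) 1, 0 < (((α⁻¹ : ℝ) : ℂ) * p z).re := by
      intro z hz
      rw [Complex.re_ofReal_mul]
      exact mul_pos (inv_pos.mpr hα0) (hpre z hz)
    have := min_lemma hJ hP (by
      intro z hz
      have e1 := ((hqA.hasDerivAt hz).fun_inv (hqne z hz)).const_mul (α:ℂ)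
      rw [e1.deriv]
      have e2 := hode z hz
      have e3 := hqne z hz
      have e4 : z * ((α:ℂ) * (-deriv q z / q z ^ 2)) = (α:ℂ) * (-(z * deriv q z) / q z ^ 2) := by ring
      rw [e4, e2]
      push_cast
      field_simp
      ring)
    intro z hz
    have h1 := this z hz
    rw [Complex.re_ofReal_mul] at h1
    have h2 := (mul_pos_iff_of_pos_left hα0).mp h1
    rw [Complex.inv_re] at h2
    by_contra hcon
    push Not at hcon
    have := div_nonpos_of_nonpos_of_nonneg hcon (Complex.normSq_nonneg (q z))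
    linarith
  obtain ⟨G, hG, hG0, hGd⟩ := exists_prim hpA.dslope
  set S : ℂ → ℂ := fun z => Complex.exp (G z / 2) with hS
  have hSA : An S := by
    have : An (fun z => G z / 2) := hG.div (An.const 2) (fun _ _ => two_ne_zero)
    exact this.cexp
  have hS0 : S 0 = 1 := by rw [hS]; simp [hG0]
  have hSd : ∀ z ∈ ball (0:ℂ) 1, z * deriv S z = (p z - 1) / 2 * S z := by
    intro z hz
    have h1 := ((hGd z hz).div_const 2).cexp
    have h2 := dslope_eq (f := p) z
    rw [hp0] at h2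
    rw [hS, h1.deriv]
    simp only []
    have h3 : p z - 1 = z * dslope p 0 z := by linear_combination h2
    rw [h3]; ring
  refine ⟨p, q, S, hpA, hqA, hSA, hpre, hp0, hqre, hq0, hode, hS0, hSd, ?_⟩
  have hQA : An (pw α q) := pw_An hqA hqre
  refine lin_unique (c := fun z => ((α⁻¹ : ℝ) : ℂ) * (p z - q z) + q z - 1) hfA.deriv
    ((hSA.mul ((An.const 1).mul hSA)).mul hQA) ?_ ?_ ?_ ?_
  · intro z _
    refine mul_ne_zero (mul_ne_zero (Complex.exp_ne_zero _) (mul_ne_zero one_ne_zero (Complex.exp_ne_zero _)))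
      (Complex.exp_ne_zero _)
  · intro z hz
    have e1 := hzφ z hz
    have e2 := hode z hz
    rw [hd2 z hz, hfq z hz]
    linear_combination (φ z) * e2 + (q z) * e1
  · intro z hz
    have h1 := hSA.hasDerivAt hz
    have h2 := h1.mul (h1.const_mul 1)
    have h3 := h2.mul (pw_deriv (α := α) hqA hqre hz)
    have h4 : deriv (fun z => S z * (1 * S z) * pw α q z) z = _ := h3.deriv
    rw [h4]
    have e1 := hSd z hz
    have e2 := hode z hz
    have e3 := hqne z hz
    have e4 : deriv q z * z / q z = ((α⁻¹ : ℝ) : ℂ) * (p z - q z) := by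
      rw [div_eq_iff e3]; linear_combination e2
    have e5 : (1 - (α:ℂ)) * ((α⁻¹ : ℝ) : ℂ) = ((α⁻¹ : ℝ) : ℂ) - 1 := by
      push_cast; field_simp
    simp only [Pi.mul_apply]
    have e6 : z * ((deriv S z * (1 * S z) + S z * (1 * deriv S z)) * pw α q z +
        S z * (1 * S z) * ((1 - (α:ℂ)) * (deriv q z / q z) * pw α q z)) =
        2 * (z * deriv S z) * S z * pw α q z + S z * S z * ((1 - (α:ℂ)) * (deriv q z * z / q z)) *
          pw α q z := by ring
    rw [e6, e1, e4, ← mul_assoc (1 - (α:ℂ)), e5]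
    ring
  · simp [hf1, hS0, pw, hq0]

end Pool.Agent.H802R2.AC
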