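import Pool.Agent.H802R2.AC10

set_option autoImplicit false

open Complex Metric Set Filter Topology

namespace Pool.Agent.H802R2.AC

theorem pw_NN {α : ℝ} (hα0 : 0 < α) (hα1 : α < 1) {q0 : ℂ → ℂ} (h0 : QZ α⁻¹ q0) :
    NN (pw α q0) := by
  have hα : (α:ℂ) ≠ 0 := by exact_mod_cast hα0.ne'
  have hQ : An (pw α q0) := pw_An h0.an h0.re
  have h1 : pw α q0 0 = 1 := by rw [pw, h0.zero]; simp
  refine fun k => Q0_nonneg h0 hQ h1 (γ := α⁻¹ - 1) ?_ ?_ k
  · have := (one_lt_inv₀ hα0).mpr hα1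
    linarith
  · intro z hz
    rw [(pw_deriv h0.an h0.re hz).deriv]
    have e2 := h0.ode z hz
    have e3 := ne_zero_of_re (h0.re z hz)
    have e4 : deriv q0 z * z / q0 z = ((α⁻¹ : ℝ) : ℂ) * (hh z - q0 z) := by
      rw [div_eq_iff e3]; linear_combination e2
    have e5 : (1 - (α:ℂ)) * ((α⁻¹ : ℝ) : ℂ) = ((α⁻¹ : ℝ) : ℂ) - 1 := by
      push_cast; field_simp
    have e6 : z * ((1 - (α:ℂ)) * (deriv q0 z / q0 z) * pw α q0 z) =
      ((1 - (α:ℂ)) * (deriv q0 z * z / q0 z)) * pw α q0 z := by ring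
    rw [e6, e4, ← mul_assoc (1 - (α:ℂ)), e5]
    push_cast
    ring

/-- The main estimate. -/
theorem main_bound {α : ℝ} (hα0 : 0 < α) (hα1 : α < 1) {q0 : ℂ → ℂ} (h0 : QZ α⁻¹ q0) {f : ℂ → ℂ}
    (hf : f ∈ Mocanu α) (n : ℕ) :
    ((n:ℝ) + 1) * ‖tc (n + 1) f‖ ≤
      ∑ j ∈ Finset.range (n + 1), (tc j (pw α q0)).re * ((n:ℝ) - j + 1) := by
  obtain ⟨p, q, S, hp, hq, hS, hpre, hp0, hqre, hq0, hode, hS0, hSd, hdf⟩ := decomp hα0 hf
  have hα : (α:ℂ) ≠ 0 := by exact_mod_cast hα0.ne'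
  have hβ : 0 < α⁻¹ := inv_pos.mpr hα0
  have hSb := half_bound hp hpre hp0 hS hS0 hSd
  obtain ⟨Ψ, hΨ, hΨb, hΨeq⟩ := carath_rep hp hpre hp0
  have hQ : An (pw α q0) := pw_An h0.an h0.re
  have hfA : An f := hf.1
  have hQn : NN (pw α q0) := pw_NN hα0 hα1 h0
  have key : ∀ ρ : ℝ, 0 ≤ ρ → ρ < 1 → ρ ^ n * (((n:ℝ) + 1) * ‖tc (n + 1) f‖) ≤
      ∑ j ∈ Finset.range (n + 1), (tc j (pw α q0)).re * ((n:ℝ) - j + 1) := by
    intro ρ hρ0 hρ1
    have hpρ : An (fun z => p (ρ * z)) := hp.dil hρ0 hρ1.le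
    have hqρ : An (fun z => q (ρ * z)) := hq.dil hρ0 hρ1.le
    have hSρ : An (fun z => S (ρ * z)) := hS.dil hρ0 hρ1.le
    obtain ⟨Φ, hΦ, hΦb, hΦeq⟩ := subord hβ h0 hpρ hqρ (by simp [hq0]) (by
      intro z hz
      have hm := dil_mem hρ0 hρ1.le hz
      have h1 : HasDerivAt (fun z : ℂ => (ρ:ℂ) * z) ρ z := by
        simpa using (hasDerivAt_id z).const_mul (ρ:ℂ)
      have h2 : HasDerivAt (fun z : ℂ => q ((ρ:ℂ) * z)) (deriv q (ρ * z) * ρ) z :=
        (hq.hasDerivAt hm).comp z h1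
      rw [h2.deriv]
      have := hode _ hm
      linear_combination this) hρ1 (by
      intro z hz
      have hm := dil_mem hρ0 hρ1.le hz
      have h1 := hΨeq _ hm
      rw [h1, norm_mul, norm_mul, norm_mul, Complex.norm_real, Real.norm_of_nonneg hρ0]
      have h2 := hΨb _ hm
      have h3 : 0 ≤ ρ * ‖z‖ := mul_nonneg hρ0 (norm_nonneg _)
      have h4 : ρ * ‖z‖ * ‖Ψ (ρ * z)‖ ≤ ρ * ‖z‖ := mul_le_of_le_one_right h3 h2
      exact mul_le_mul_of_nonneg_right h4 (norm_nonneg _))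
    have hSρb : ∀ k, ‖tc k (fun z => S (ρ * z))‖ ≤ 1 := by
      intro k
      rw [tc_dil hS hρ0 hρ1.le, norm_mul, norm_pow, Complex.norm_real, Real.norm_of_nonneg hρ0]
      exact mul_le_one₀ (pow_le_one₀ hρ0 hρ1.le) (norm_nonneg _) (hSb k)
    have hcb := comp_bound hSρ hSρb hΦ hΦb n (pw α q0) (fun _ => 1) hQ hQn (An.const 1)
      (fun z _ => by simp)
    have h3 : tc n (fun z => deriv f (ρ * z)) =
        tc n (fun z => S (ρ * z) * (1 * S (ρ * z)) * pw α q0 (z * Φ z)) := by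
      apply tc_congr
      intro z hz
      have hm := dil_mem hρ0 hρ1.le hz
      rw [hdf _ hm, pw, pw, ← hΦeq z hz]
    rw [← h3, tc_dil hfA.deriv hρ0 hρ1.le, tc_deriv, norm_mul, norm_mul, norm_pow, Complex.norm_real,
      Real.norm_of_nonneg hρ0] at hcb
    have h4 : ‖((n:ℂ) + 1)‖ = (n:ℝ) + 1 := by
      have : ((n:ℂ) + 1) = ((n + 1 : ℝ) : ℂ) := by push_cast; ring
      rw [this, Complex.norm_real, Real.norm_of_nonneg (by positivity)]
    rw [h4] at hcb
    exact hcb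
  have ht : Tendsto (fun ρ : ℝ => ρ ^ n * (((n:ℝ) + 1) * ‖tc (n + 1) f‖)) (𝓝[<] 1)
      (𝓝 ((1:ℝ) ^ n * (((n:ℝ) + 1) * ‖tc (n + 1) f‖))) := by
    have : Continuous (fun ρ : ℝ => ρ ^ n * (((n:ℝ) + 1) * ‖tc (n + 1) f‖)) := by fun_prop
    exact (this.tendsto 1).mono_left nhdsWithin_le_nhds
  rw [one_pow, one_mul] at ht
  refine le_of_tendsto ht ?_
  filter_upwards [Ioo_mem_nhdsLT (show (0:ℝ) < 1 by norm_num)] with ρ hρ
  exact key ρ hρ.1.le hρ.2

/-- The coefficients `b_k` of `(f₀(z)/z)^{1/α}`. -/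
noncomputable def mb (α : ℝ) (k : ℕ) : ℝ :=
  (1 / (1 + α * k)) * ∏ j ∈ Finset.range k, (2 / α + j) / (j + 1)

/-- The sharp bounds: `mA α n = A_{n+1}(α)`. -/
noncomputable def mA (α : ℝ) : ℕ → ℝ
  | 0 => 1
  | (n + 1) => (∑ k : Fin (n + 1), (α * ((k:ℝ) + 1) - ((n:ℝ) - k)) * mb α (k + 1) * mA α (n - k)) /
      ((n:ℝ) + 1)
  decreasing_by omega

theorem mA_succ (α : ℝ) (n : ℕ) : mA α (n + 1) =
    (∑ k ∈ Finset.range (n + 1), (α * ((k:ℝ) + 1) - ((n:ℝ) - k)) * mb α (k + 1) * mA α (n - k)) /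
      ((n:ℝ) + 1) := by
  rw [mA, Finset.sum_range]

/-- The extremal function. -/
theorem extremal {α : ℝ} (hα0 : 0 < α) (hα1 : α < 1) {q0 : ℂ → ℂ} (h0 : QZ α⁻¹ q0) :
    ∃ G : ℂ → ℂ, An G ∧ G 0 = 0 ∧ (∀ z ∈ ball (0:ℂ) 1, HasDerivAt G (dslope q0 0 z) z) ∧
      (fun z => z * Complex.exp (G z)) ∈ Mocanu α ∧
      ∀ n : ℕ, ((n:ℂ) + 1) * tc (n + 1) (fun z => z * Complex.exp (G z)) =
        ((∑ j ∈ Finset.range (n + 1), (tc j (pw α q0)).re * ((n:ℝ) - j + 1) : ℝ) : ℂ) := by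
  have hα : (α:ℂ) ≠ 0 := by exact_mod_cast hα0.ne'
  have hβ : 0 < α⁻¹ := inv_pos.mpr hα0
  obtain ⟨G, hG, hG0, hGd⟩ := exists_prim h0.an.dslope
  have hzG : ∀ z ∈ ball (0:ℂ) 1, z * dslope q0 0 z = q0 z - 1 := by
    intro z _
    have := dslope_eq (f := q0) z
    rw [h0.zero] at this
    linear_combination -this
  set X : ℂ → ℂ := fun z => Complex.exp (G z) with hX
  have hXA : An X := hG.cexp
  set f : ℂ → ℂ := fun z => z * Complex.exp (G z) with hf
  have hfA : An f := An.id.mul hXA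
  have hXd : ∀ z ∈ ball (0:ℂ) 1, HasDerivAt X (X z * dslope q0 0 z) z := by
    intro z hz
    exact (hGd z hz).cexp
  have hfd : ∀ z ∈ ball (0:ℂ) 1, HasDerivAt f (X z * q0 z) z := by
    intro z hz
    have h1 := (hasDerivAt_id z).mul (hXd z hz)
    have h2 : HasDerivAt f (1 * X z + z * (X z * dslope q0 0 z)) z := h1
    convert! h2 using 1
    have := hzG z hz
    linear_combination -(X z) * this
  have hfdd : ∀ z ∈ ball (0:ℂ) 1, HasDerivAt (deriv f)
      (X z * dslope q0 0 z * q0 z + X z * deriv q0 z) z := by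
    intro z hz
    have h1 : HasDerivAt (fun z => X z * q0 z) (X z * dslope q0 0 z * q0 z + X z * deriv q0 z) z :=
      (hXd z hz).mul (h0.an.hasDerivAt hz)
    refine h1.congr_of_eventuallyEq ?_
    filter_upwards [isOpen_ball.mem_nhds hz] with y hy using (hfd y hy).deriv
  have hXne : ∀ z, X z ≠ 0 := fun z => Complex.exp_ne_zero _
  have hzdd : ∀ z ∈ ball (0:ℂ) 1, z * deriv (deriv f) z =
      (q0 z - 1 + (α⁻¹ : ℝ) * (hh z - q0 z)) * (X z * q0 z) := by
    intro z hz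
    rw [(hfdd z hz).deriv]
    have e1 := hzG z hz
    have e2 := h0.ode z hz
    linear_combination (X z * q0 z) * e1 + (X z) * e2
  refine ⟨G, hG, hG0, hGd, ?_, ?_⟩
  · have hinj := (Pool.Agent.Helper968.Schild.starlike_of_pos (h := G) hG (by
      intro z hz
      rw [(hGd z hz).deriv, hzG z hz]
      have := h0.re z hz
      have h2 : (1 + (q0 z - 1)) = q0 z := by ring
      rw [h2]; exact this)).1
    refine ⟨hfA, hinj, by simp, ?_, ?_⟩
    · rw [(hfd 0 zero_mem).deriv, h0.zero, hX]; simp [hG0]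
    · intro z hz hz0
      have h1 : (α:ℂ) * (1 + z * deriv (deriv f) z / deriv f z) +
        (1 - (α:ℂ)) * (z * deriv f z / f z) = hh z := by
        rw [hzdd z hz, (hfd z hz).deriv]
        have e1 := hXne z
        have e2 := ne_zero_of_re (h0.re z hz)
        have e3 : f z = z * X z := rfl
        rw [e3]
        push_cast
        field_simp
        ring
      rw [h1]
      exact hh_re hz
  · intro n
    -- deriv f = (1-z)^{-2} q0^{1-α}
    have hQ : An (pw α q0) := pw_An h0.an h0.re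
    have hD : ∀ z ∈ ball (0:ℂ) 1, HasDerivAt hh (2 / (1 - z) ^ 2) z := by
      intro z hz
      have hz1 := one_sub_ne hz
      have := ((hasDerivAt_id z).const_add 1).fun_div ((hasDerivAt_id z).const_sub 1) hz1
      convert! this using 1
      simp only [id]
      ring
    have hDA : An (deriv hh) := hh_An.deriv
    have h1 : ∀ z ∈ ball (0:ℂ) 1, deriv f z = (1 / 2) * (pw α q0 z * deriv hh z) := by
      refine lin_unique (c := fun z => (q0 z - 1 + (α⁻¹ : ℝ) * (hh z - q0 z))) hfA.deriv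
        ((hQ.mul hDA).cmul _) ?_ ?_ ?_ ?_
      · intro z hz
        rw [(hD z hz).deriv]
        have := one_sub_ne hz
        exact mul_ne_zero (by norm_num) (mul_ne_zero (Complex.exp_ne_zero _)
          (div_ne_zero two_ne_zero (pow_ne_zero _ this)))
      · intro z hz
        rw [hzdd z hz, (hfd z hz).deriv]
      · intro z hz
        have hz1 := one_sub_ne hz
        have e1 : HasDerivAt (deriv hh) (4 / (1 - z) ^ 3) z := by
          have e2 : HasDerivAt (fun z : ℂ => 2 / (1 - z) ^ 2) (4 / (1 - z) ^ 3) z := by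
            have e3 := ((hasDerivAt_id z).const_sub 1).pow 2
            have e4 := (hasDerivAt_const z (2:ℂ)).fun_div e3 (pow_ne_zero 2 hz1)
            convert! e4 using 1
            simp only [Pi.pow_apply, id]
            field_simp
            norm_num
          refine e2.congr_of_eventuallyEq ?_
          filter_upwards [isOpen_ball.mem_nhds hz] with y hy using (hD y hy).deriv
        have e5 := ((pw_deriv (α := α) h0.an h0.re hz).mul e1).const_mul (1 / 2 : ℂ)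
        have e6 : deriv (fun z => (1 / 2 : ℂ) * (pw α q0 z * deriv hh z)) z = _ := e5.deriv
        rw [e6]
        have e7 := h0.ode z hz
        have e8 := ne_zero_of_re (h0.re z hz)
        have e9 : deriv q0 z * z / q0 z = ((α⁻¹ : ℝ) : ℂ) * (hh z - q0 z) := by
          rw [div_eq_iff e8]; linear_combination e7
        have e10 : z * (4 / (1 - z) ^ 3) = (hh z - 1) * (2 / (1 - z) ^ 2) := by
          rw [hh]; field_simp; ring
        have e11 : (1 - (α:ℂ)) * ((α⁻¹ : ℝ) : ℂ) = ((α⁻¹ : ℝ) : ℂ) - 1 := by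
          push_cast; field_simp
        rw [(hD z hz).deriv]
        have e12 : z * (1 / 2 * ((1 - (α:ℂ)) * (deriv q0 z / q0 z) * pw α q0 z * (2 / (1 - z) ^ 2) +
            pw α q0 z * (4 / (1 - z) ^ 3))) =
            1 / 2 * ((1 - (α:ℂ)) * (deriv q0 z * z / q0 z) * pw α q0 z * (2 / (1 - z) ^ 2) +
            pw α q0 z * (z * (4 / (1 - z) ^ 3))) := by ring
        rw [e12, e9, e10, ← mul_assoc (1 - (α:ℂ)), e11]
        ring
      · rw [(hfd 0 zero_mem).deriv, h0.zero, (hD 0 zero_mem).deriv, pw, h0.zero, hX]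
        simp [hG0]
    have h2 : ((n:ℂ) + 1) * tc (n + 1) f = tc n (fun z => (1 / 2) * (pw α q0 z * deriv hh z)) := by
      rw [← tc_deriv]
      exact tc_congr n h1
    rw [h2, tc_cmul, tc_mul hQ hDA, Finset.mul_sum]
    push_cast
    refine Finset.sum_congr rfl fun j hj => ?_
    rw [tc_deriv, hh_coeff]
    have hQn : (tc j (pw α q0)) = ((tc j (pw α q0)).re : ℂ) := by
      apply Complex.ext
      · simp
      · simp [(pw_NN hα0 hα1 h0 j).1]
    have hj' : j ≤ n := Nat.lt_succ_iff.mp (Finset.mem_range.mp hj)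
    rw [← hQn, Nat.cast_sub hj']
    ring

end Pool.Agent.H802R2.AC
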