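import Pool.Agent.H802R2.AC11

set_option autoImplicit false

open Complex Metric Set Filter Topology

namespace Pool.Agent.H802R2.AC

theorem coeff_Y {α : ℝ} (hα0 : 0 < α) {q0 : ℂ → ℂ} (h0 : QZ α⁻¹ q0) {G : ℂ → ℂ} (hG : An G)
    (hG0 : G 0 = 0) (hGd : ∀ z ∈ ball (0:ℂ) 1, HasDerivAt G (dslope q0 0 z) z) (n : ℕ) :
    tc n (fun z => Complex.exp (((α⁻¹ : ℝ) : ℂ) * G z)) = (mb α n : ℂ) := by
  have hα : (α:ℂ) ≠ 0 := by exact_mod_cast hα0.ne'
  have hβ : 0 < α⁻¹ := inv_pos.mpr hα0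
  set β : ℂ := ((α⁻¹ : ℝ) : ℂ) with hβdef
  set Y : ℂ → ℂ := fun z => Complex.exp (β * G z) with hY
  have hYA : An Y := (hG.cmul _).cexp
  have hzG : ∀ z ∈ ball (0:ℂ) 1, z * dslope q0 0 z = q0 z - 1 := by
    intro z _
    have := dslope_eq (f := q0) z
    rw [h0.zero] at this
    linear_combination -this
  have hYd : ∀ z ∈ ball (0:ℂ) 1, HasDerivAt Y (Y z * (β * dslope q0 0 z)) z := by
    intro z hz
    exact ((hGd z hz).const_mul β).cexp
  have hzY : ∀ z ∈ ball (0:ℂ) 1, z * deriv Y z = β * (Y z * q0 z) - β * Y z := by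
    intro z hz
    rw [(hYd z hz).deriv]
    have := hzG z hz
    linear_combination (Y z * β) * this
  have hE : An (fun z => Y z * q0 z) := hYA.mul h0.an
  have hzE : ∀ z ∈ ball (0:ℂ) 1, z * deriv (fun z => Y z * q0 z) z -
      z * (z * deriv (fun z => Y z * q0 z) z) = z * ((2 * β) * (Y z * q0 z)) := by
    intro z hz
    have h1 := (hYd z hz).mul (h0.an.hasDerivAt hz)
    have h2 : deriv (fun z => Y z * q0 z) z = _ := h1.deriv
    have e1 := hzG z hz
    have e2 := h0.ode z hz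
    have e3 : z * deriv (fun z => Y z * q0 z) z = β * (hh z - 1) * (Y z * q0 z) := by
      rw [h2]
      linear_combination (Y z * β * q0 z) * e1 + (Y z) * e2
    have e4 : (1 - z) * (hh z - 1) = 2 * z := by
      have := one_sub_ne hz
      rw [hh]; field_simp; ring
    rw [e3]
    linear_combination (β * (Y z * q0 z)) * e4
  have hEc : ∀ n : ℕ, tc n (fun z => Y z * q0 z) =
      ((∏ j ∈ Finset.range n, (2 / α + j) / (j + 1) : ℝ) : ℂ) := by
    intro n
    induction n with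
    | zero => rw [tc_zero, h0.zero, hY]; simp [hG0]
    | succ n ih =>
      have h1 := tc_congr (n + 1) hzE
      rw [tc_sub (An.id.mul hE.deriv) (An.id.mul (An.id.mul hE.deriv)), tc_zderiv hE,
        tc_zmul_succ (An.id.mul hE.deriv), tc_zderiv hE, tc_zmul_succ (hE.cmul _), tc_cmul] at h1
      rw [Finset.prod_range_succ, Complex.ofReal_mul, ← ih]
      have h2 : ((n:ℂ) + 1) ≠ 0 := by exact_mod_cast n.succ_ne_zero
      have h3 : ((n:ℂ) + 1) * tc (n + 1) (fun z => Y z * q0 z) =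
          (2 * β + n) * tc n (fun z => Y z * q0 z) := by
        push_cast at h1
        linear_combination h1
      have h4 : (((2 / α + n) / (n + 1) : ℝ) : ℂ) = (2 * β + n) / (n + 1) := by
        rw [hβdef]; push_cast; ring
      rw [h4, mul_div_assoc', eq_div_iff h2]
      linear_combination h3
  have h1 := tc_congr n hzY
  rw [tc_zderiv hYA, tc_sub (hE.cmul _) (hYA.cmul _), tc_cmul, tc_cmul, hEc] at h1
  have h2 : ((1:ℂ) + α * n) ≠ 0 := by
    have : (1 + α * n : ℝ) ≠ 0 := by positivity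
    exact_mod_cast this
  have h3 : (1 + α * n) * tc n Y = ((∏ j ∈ Finset.range n, (2 / α + j) / (j + 1) : ℝ) : ℂ) := by
    have h4 : (α:ℂ) * β = 1 := by rw [hβdef]; push_cast; field_simp
    linear_combination (α:ℂ) * h1 + (((∏ j ∈ Finset.range n, (2 / α + j) / (j + 1) : ℝ) : ℂ) -
      tc n Y) * h4
  rw [mb, Complex.ofReal_mul, ← h3]
  push_cast
  field_simp

theorem coeff_X {α : ℝ} (hα0 : 0 < α) {q0 : ℂ → ℂ} (h0 : QZ α⁻¹ q0) {G : ℂ → ℂ} (hG : An G)
    (hG0 : G 0 = 0) (hGd : ∀ z ∈ ball (0:ℂ) 1, HasDerivAt G (dslope q0 0 z) z) (n : ℕ) :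
    tc n (fun z => Complex.exp (G z)) = (mA α n : ℂ) := by
  have hα : (α:ℂ) ≠ 0 := by exact_mod_cast hα0.ne'
  have hYc := coeff_Y hα0 h0 hG hG0 hGd
  set β : ℂ := ((α⁻¹ : ℝ) : ℂ) with hβdef
  set Y : ℂ → ℂ := fun z => Complex.exp (β * G z) with hY
  have hYA : An Y := (hG.cmul _).cexp
  set X : ℂ → ℂ := fun z => Complex.exp (G z) with hX
  have hXA : An X := hG.cexp
  have hYd : ∀ z ∈ ball (0:ℂ) 1, HasDerivAt Y (Y z * (β * dslope q0 0 z)) z := by
    intro z hz
    exact ((hGd z hz).const_mul β).cexp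
  have hXd : ∀ z ∈ ball (0:ℂ) 1, HasDerivAt X (X z * dslope q0 0 z) z := by
    intro z hz
    exact (hGd z hz).cexp
  have hαβ : (α:ℂ) * β = 1 := by rw [hβdef]; push_cast; field_simp
  have hrel : ∀ z ∈ ball (0:ℂ) 1, Y z * (z * deriv X z) = α * ((z * deriv Y z) * X z) := by
    intro z hz
    rw [(hYd z hz).deriv, (hXd z hz).deriv]
    linear_combination (-(Y z * z * dslope q0 0 z * X z)) * hαβ
  have hsum : ∀ n : ℕ, ∑ k ∈ Finset.range (n + 1), (mb α k : ℂ) * (((n - k : ℕ) : ℂ) * tc (n - k) X) =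
      α * ∑ k ∈ Finset.range (n + 1), ((k:ℂ) * (mb α k : ℂ)) * tc (n - k) X := by
    intro n
    have h1 := tc_congr n hrel
    rw [tc_mul hYA (An.id.mul hXA.deriv), tc_cmul, tc_mul (An.id.mul hYA.deriv) hXA] at h1
    simp only [tc_zderiv hXA, tc_zderiv hYA, hYc] at h1
    exact h1
  induction n using Nat.strong_induction_on with
  | _ n ih =>
    cases n with
    | zero => rw [tc_zero, hX, mA]; simp [hG0]
    | succ n =>
      have h1 := hsum (n + 1)
      rw [Finset.sum_range_succ' _ (n + 1), Finset.sum_range_succ' _ (n + 1)] at h1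
      have hb0 : mb α 0 = 1 := by simp [mb]
      rw [hb0] at h1
      have h2 : ((n:ℂ) + 1) ≠ 0 := by exact_mod_cast n.succ_ne_zero
      rw [mA_succ, Complex.ofReal_div, eq_div_iff (by push_cast; exact h2)]
      have h3 : ∀ k ∈ Finset.range (n + 1), tc (n + 1 - (k + 1)) X = (mA α (n - k) : ℂ) := by
        intro k _
        rw [Nat.add_sub_add_right]
        exact ih (n - k) (by omega)
      have h4 : ∑ k ∈ Finset.range (n + 1),
          (mb α (k + 1) : ℂ) * (((n + 1 - (k + 1) : ℕ) : ℂ) * tc (n + 1 - (k + 1)) X) =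
          ∑ k ∈ Finset.range (n + 1), (mb α (k + 1) : ℂ) * (((n:ℂ) - k) * (mA α (n - k) : ℂ)) := by
        refine Finset.sum_congr rfl fun k hk => ?_
        have hk' : k ≤ n := Nat.lt_succ_iff.mp (Finset.mem_range.mp hk)
        rw [h3 k hk, Nat.add_sub_add_right, Nat.cast_sub hk']
      have h5 : ∑ k ∈ Finset.range (n + 1),
          (((k + 1 : ℕ) : ℂ) * (mb α (k + 1) : ℂ)) * tc (n + 1 - (k + 1)) X =
          ∑ k ∈ Finset.range (n + 1), (((k:ℂ) + 1) * (mb α (k + 1) : ℂ)) * (mA α (n - k) : ℂ) := by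
        refine Finset.sum_congr rfl fun k hk => ?_
        rw [h3 k hk]; push_cast; ring
      rw [h4, h5] at h1
      have h6 : ((∑ k ∈ Finset.range (n + 1),
          (α * ((k:ℝ) + 1) - ((n:ℝ) - k)) * mb α (k + 1) * mA α (n - k) : ℝ) : ℂ) =
          α * ∑ k ∈ Finset.range (n + 1), (((k:ℂ) + 1) * (mb α (k + 1) : ℂ)) * (mA α (n - k) : ℂ) -
          ∑ k ∈ Finset.range (n + 1), (mb α (k + 1) : ℂ) * (((n:ℂ) - k) * (mA α (n - k) : ℂ)) := by
        rw [Finset.mul_sum, ← Finset.sum_sub_distrib]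
        push_cast
        exact Finset.sum_congr rfl fun k _ => by ring
      rw [h6]
      simp only [Nat.cast_zero, zero_mul, Nat.sub_zero, Complex.ofReal_one, one_mul, add_zero] at h1
      push_cast at h1 ⊢
      linear_combination h1

end Pool.Agent.H802R2.AC
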