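import Pool.Agent.H802R2.AC1

set_option autoImplicit false

open Complex Metric Set Filter Topology

namespace Pool.Agent.H802R2.AC

theorem sphere_mem {r : ℝ} (hr : 0 < r) (hr1 : r < 1) {z : ℂ} (hz : z ∈ sphere (0:ℂ) |r|) :
    z ∈ ball (0:ℂ) 1 ∧ z ≠ 0 ∧ ‖z‖ = r := by
  rw [mem_sphere_zero_iff_norm, abs_of_pos hr] at hz
  refine ⟨mem_of_norm (by rw [hz]; exact hr1), ?_, hz⟩
  rintro rfl
  rw [norm_zero] at hz
  exact hr.ne hz

theorem cauchy_avg {f : ℂ → ℂ} (hf : An f) {r : ℝ} (hr : 0 < r) (hr1 : r < 1) (n : ℕ) :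
    Real.circleAverage (fun z => (z ^ n)⁻¹ * f z) 0 r = tc n f := by
  have hd : DiffContOnCl ℂ f (ball 0 r) := by
    apply DifferentiableOn.diffContOnCl
    rw [closure_ball _ hr.ne']
    exact hf.mono (closedBall_subset_ball hr1)
  rw [Real.circleAverage_eq_circleIntegral hr.ne']
  have h1 : (∮ z in C(0, r), (z - 0)⁻¹ • ((z ^ n)⁻¹ * f z)) =
      ∮ z in C(0, r), (1 / (z - 0) ^ (n + 1)) • f z := by
    congr 1
    ext z
    rw [smul_eq_mul, smul_eq_mul, sub_zero, one_div, pow_succ', mul_inv]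
    ring
  rw [h1, DiffContOnCl.circleIntegral_one_div_sub_center_pow_smul hr n hd, tc]
  have h2 : (2 * Real.pi * Complex.I : ℂ) ≠ 0 := Complex.two_pi_I_ne_zero
  have h3 : (n.factorial : ℂ) ≠ 0 := by exact_mod_cast n.factorial_ne_zero
  simp only [smul_eq_mul]
  field_simp

theorem circInt {g : ℂ → ℂ} {r : ℝ} (hg : ContinuousOn g (sphere (0:ℂ) |r|)) :
    CircleIntegrable g 0 r := hg.circleIntegrable'

theorem An.contOn_sphere {f : ℂ → ℂ} (hf : An f) {r : ℝ} (hr : 0 < r) (hr1 : r < 1) :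
    ContinuousOn f (sphere (0:ℂ) |r|) := fun z hz =>
  ((hf.differentiableAt (sphere_mem hr hr1 hz).1).continuousAt).continuousWithinAt

theorem conj_on {r : ℝ} {z : ℂ} (hz0 : z ≠ 0) (hz : ‖z‖ = r) (k : ℕ) :
    (starRingEnd ℂ) (z ^ k) = ((r ^ (2 * k) : ℝ) : ℂ) * (z ^ k)⁻¹ := by
  have h1 : (starRingEnd ℂ) z * z = ((r ^ 2 : ℝ) : ℂ) := by
    rw [mul_comm, Complex.mul_conj, Complex.normSq_eq_norm_sq, hz]
  have h2 : z ^ k ≠ 0 := pow_ne_zero _ hz0
  rw [eq_mul_inv_iff_mul_eq₀ h2, map_pow, ← mul_pow, h1, pow_mul]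
  push_cast
  ring

theorem avg_mono {f : ℂ → ℂ} (hf : An f) {r : ℝ} (hr : 0 < r) (hr1 : r < 1) (k : ℕ) (a : ℂ) :
    Real.circleAverage (fun z => f z * (starRingEnd ℂ) (a * z ^ k)) 0 r =
      (starRingEnd ℂ) a * ((r ^ (2 * k) : ℝ) : ℂ) * tc k f := by
  have h1 : Real.circleAverage (fun z => f z * (starRingEnd ℂ) (a * z ^ k)) 0 r =
      Real.circleAverage (fun z => ((starRingEnd ℂ) a * ((r ^ (2 * k) : ℝ) : ℂ)) • ((z ^ k)⁻¹ * f z)) 0 r := by
    apply Real.circleAverage_congr_sphere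
    intro z hz
    obtain ⟨h1, h2, h3⟩ := sphere_mem hr hr1 hz
    show f z * (starRingEnd ℂ) (a * z ^ k) =
      ((starRingEnd ℂ) a * ((r ^ (2 * k) : ℝ) : ℂ)) • ((z ^ k)⁻¹ * f z)
    rw [map_mul, conj_on h2 h3, smul_eq_mul]
    ring
  rw [h1, Real.circleAverage_fun_smul, cauchy_avg hf hr hr1, smul_eq_mul]

/-- Taylor polynomial type sum. -/
noncomputable def pol (a : ℕ → ℂ) (m : ℕ) (z : ℂ) : ℂ := ∑ k ∈ Finset.range (m + 1), a k * z ^ k

theorem An.pol (a : ℕ → ℂ) (m : ℕ) : An (pol a m) := by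
  have : Differentiable ℂ (AC.pol a m) := by
    unfold AC.pol
    fun_prop
  exact this.differentiableOn

theorem avg_pol {f : ℂ → ℂ} (hf : An f) {r : ℝ} (hr : 0 < r) (hr1 : r < 1) (a : ℕ → ℂ) (m : ℕ) :
    Real.circleAverage (fun z => (f z * (starRingEnd ℂ) (pol a m z)).re) 0 r =
      (∑ k ∈ Finset.range (m + 1), (starRingEnd ℂ) (a k) * ((r ^ (2 * k) : ℝ) : ℂ) * tc k f).re := by
  have hc : CircleIntegrable (fun z => f z * (starRingEnd ℂ) (pol a m z)) 0 r := by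
    apply circInt
    refine (hf.contOn_sphere hr hr1).mul ?_
    exact (Complex.continuous_conj.comp_continuousOn ((An.pol a m).contOn_sphere hr hr1))
  have h1 := Complex.reCLM.circleAverage_comp_comm hc
  have h2 : Real.circleAverage (fun z => f z * (starRingEnd ℂ) (pol a m z)) 0 r =
      ∑ k ∈ Finset.range (m + 1), (starRingEnd ℂ) (a k) * ((r ^ (2 * k) : ℝ) : ℂ) * tc k f := by
    have h3 : (fun z => f z * (starRingEnd ℂ) (pol a m z)) =
        fun z => ∑ k ∈ Finset.range (m + 1), f z * (starRingEnd ℂ) (a k * z ^ k) := by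
      funext z
      rw [pol, map_sum, Finset.mul_sum]
    rw [h3, Real.circleAverage_fun_sum]
    · exact Finset.sum_congr rfl fun k _ => avg_mono hf hr hr1 k (a k)
    · intro k _
      apply circInt
      refine (hf.contOn_sphere hr hr1).mul ?_
      exact (Complex.continuous_conj.comp_continuousOn (by fun_prop))
  rw [← h2]
  exact h1

theorem tc_pow (n k : ℕ) : tc n (fun z => z ^ k) = if n = k then 1 else 0 := by
  rw [tc, iteratedDeriv_fun_pow_zero]
  split_ifs with h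
  · subst h
    have : (n.factorial : ℂ) ≠ 0 := by exact_mod_cast n.factorial_ne_zero
    field_simp
  · simp

theorem tc_pol (a : ℕ → ℂ) (m n : ℕ) (h : n ≤ m) : tc n (pol a m) = a n := by
  have key : ∀ m, tc n (pol a m) = ∑ k ∈ Finset.range (m + 1), a k * (if n = k then 1 else 0) := by
    intro m
    induction m with
    | zero =>
      have h1 : tc n (pol a 0) = tc n (fun z => a 0 * z ^ 0) := tc_congr _ fun z _ => by simp [pol]
      rw [h1, tc_cmul, tc_pow, Finset.sum_range_one]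
    | succ m ih =>
      have h1 : tc n (pol a (m + 1)) = tc n (fun z => pol a m z + a (m + 1) * z ^ (m + 1)) :=
        tc_congr _ fun z _ => by rw [pol, Finset.sum_range_succ]; rfl
      rw [h1, tc_add (An.pol a m) ((An.id.pow (m + 1)).cmul _), ih, tc_cmul, tc_pow,
        Finset.sum_range_succ _ (m + 1)]
  rw [key m, Finset.sum_eq_single n]
  · simp
  · intro b _ hb; rw [if_neg (Ne.symm hb), mul_zero]
  · intro h'; exact absurd (Finset.mem_range.mpr (by omega)) h'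

theorem re_conj_mul (a b : ℂ) (t : ℝ) (h : a = b) :
    ((starRingEnd ℂ) a * ((t : ℝ) : ℂ) * b).re = t * ‖a‖ ^ 2 := by
  subst h
  have : (starRingEnd ℂ) a * (t : ℂ) * a = ((t * ‖a‖ ^ 2 : ℝ) : ℂ) := by
    rw [← Complex.normSq_eq_norm_sq]
    push_cast
    rw [Complex.normSq_eq_conj_mul_self]
    ring
  rw [this, Complex.ofReal_re]

theorem avg_normsq_pol {r : ℝ} (hr : 0 < r) (hr1 : r < 1) (a : ℕ → ℂ) (m : ℕ) :
    Real.circleAverage (fun z => ‖pol a m z‖ ^ 2) 0 r =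
      ∑ k ∈ Finset.range (m + 1), r ^ (2 * k) * ‖a k‖ ^ 2 := by
  have h1 := avg_pol (An.pol a m) hr hr1 a m
  have h2 : (fun z => (pol a m z * (starRingEnd ℂ) (pol a m z)).re) = fun z => ‖pol a m z‖ ^ 2 := by
    funext z
    rw [Complex.mul_conj, Complex.ofReal_re, Complex.normSq_eq_norm_sq]
  rw [h2] at h1
  rw [h1, Complex.re_sum]
  refine Finset.sum_congr rfl fun k hk => ?_
  apply re_conj_mul
  rw [tc_pol a m k (Nat.lt_succ_iff.mp (Finset.mem_range.mp hk))]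

theorem bessel {u : ℂ → ℂ} (hu : An u) {r : ℝ} (hr : 0 < r) (hr1 : r < 1) (m : ℕ) :
    ∑ k ∈ Finset.range (m + 1), r ^ (2 * k) * ‖tc k u‖ ^ 2 ≤
      Real.circleAverage (fun z => ‖u z‖ ^ 2) 0 r := by
  set a : ℕ → ℂ := fun k => tc k u with ha
  have h1 := avg_pol hu hr hr1 a m
  have h2 := avg_normsq_pol hr hr1 a m
  have h3 : (∑ k ∈ Finset.range (m + 1), (starRingEnd ℂ) (a k) * ((r ^ (2 * k) : ℝ) : ℂ) * tc k u).re
      = ∑ k ∈ Finset.range (m + 1), r ^ (2 * k) * ‖tc k u‖ ^ 2 := by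
    rw [Complex.re_sum]
    exact Finset.sum_congr rfl fun k hk => re_conj_mul _ _ _ rfl
  rw [h3] at h1
  have c1 : ContinuousOn u (sphere (0:ℂ) |r|) := hu.contOn_sphere hr hr1
  have c2 : ContinuousOn (pol a m) (sphere (0:ℂ) |r|) := (An.pol a m).contOn_sphere hr hr1
  have i1 : CircleIntegrable (fun z => ‖u z‖ ^ 2) 0 r := (c1.norm.pow 2).circleIntegrable'
  have i2 : CircleIntegrable (fun z => ‖pol a m z‖ ^ 2) 0 r := (c2.norm.pow 2).circleIntegrable'
  have i3 : CircleIntegrable (fun z => (u z * (starRingEnd ℂ) (pol a m z)).re) 0 r :=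
    (Complex.continuous_re.comp_continuousOn
      (c1.mul (Complex.continuous_conj.comp_continuousOn c2))).circleIntegrable'
  have h4 : 0 ≤ Real.circleAverage (fun z => ‖u z - pol a m z‖ ^ 2) 0 r := by
    apply Real.circleAverage_nonneg_of_nonneg
    intro z _
    positivity
  have h5 : (fun z => ‖u z - pol a m z‖ ^ 2) = fun z => (‖u z‖ ^ 2 + ‖pol a m z‖ ^ 2) -
      (2:ℝ) • (u z * (starRingEnd ℂ) (pol a m z)).re := by
    funext z
    rw [← Complex.normSq_eq_norm_sq, ← Complex.normSq_eq_norm_sq, ← Complex.normSq_eq_norm_sq,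
      Complex.normSq_sub, smul_eq_mul]
  have h6 : Real.circleAverage (fun z => ‖u z - pol a m z‖ ^ 2) 0 r =
      Real.circleAverage (fun z => ‖u z‖ ^ 2) 0 r + Real.circleAverage (fun z => ‖pol a m z‖ ^ 2) 0 r
      - 2 * Real.circleAverage (fun z => (u z * (starRingEnd ℂ) (pol a m z)).re) 0 r := by
    have j1 : CircleIntegrable (fun z => ‖u z‖ ^ 2 + ‖pol a m z‖ ^ 2) 0 r := i1.add i2
    have j2 : CircleIntegrable (fun z => (2:ℝ) • (u z * (starRingEnd ℂ) (pol a m z)).re) 0 r :=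
      i3.const_smul
    have k1 := Real.circleAverage_fun_sub j1 j2
    have k2 := Real.circleAverage_fun_add i1 i2
    have k3 : Real.circleAverage (fun z => (2:ℝ) • (u z * (starRingEnd ℂ) (pol a m z)).re) 0 r =
        (2:ℝ) • Real.circleAverage (fun z => (u z * (starRingEnd ℂ) (pol a m z)).re) 0 r :=
      Real.circleAverage_fun_smul
    rw [h5, k1, k2, k3, smul_eq_mul]
  rw [h6, h1, h2] at h4
  linarith

/-- Multiplication by a function bounded by one does not increase the truncated `ℓ²` norms. -/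
theorem contract {Φ F : ℂ → ℂ} (hΦ : An Φ) (hF : An F) (hb : ∀ z ∈ ball (0:ℂ) 1, ‖Φ z‖ ≤ 1) (m : ℕ) :
    ∑ k ∈ Finset.range (m + 1), ‖tc k (fun z => Φ z * F z)‖ ^ 2 ≤
      ∑ k ∈ Finset.range (m + 1), ‖tc k F‖ ^ 2 := by
  set a : ℕ → ℂ := fun k => tc k F with ha
  have h1 : ∀ k ≤ m, tc k (fun z => Φ z * F z) = tc k (fun z => Φ z * pol a m z) := by
    intro k hk
    rw [tc_mul hΦ hF, tc_mul hΦ (An.pol a m)]
    refine Finset.sum_congr rfl fun i hi => ?_
    rw [tc_pol a m (k - i) (by omega)]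
  have h2 : ∀ r : ℝ, 0 < r → r < 1 →
      ∑ k ∈ Finset.range (m + 1), r ^ (2 * k) * ‖tc k (fun z => Φ z * F z)‖ ^ 2 ≤
        ∑ k ∈ Finset.range (m + 1), ‖tc k F‖ ^ 2 := by
    intro r hr hr1
    have h3 := bessel (hΦ.mul (An.pol a m)) hr hr1 m
    have c2 : ContinuousOn (pol a m) (sphere (0:ℂ) |r|) := (An.pol a m).contOn_sphere hr hr1
    have c1 : ContinuousOn (fun z => Φ z * pol a m z) (sphere (0:ℂ) |r|) :=
      (hΦ.contOn_sphere hr hr1).mul c2
    have h4 : Real.circleAverage (fun z => ‖Φ z * pol a m z‖ ^ 2) 0 r ≤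
        Real.circleAverage (fun z => ‖pol a m z‖ ^ 2) 0 r := by
      apply Real.circleAverage_mono (c1.norm.pow 2).circleIntegrable' (c2.norm.pow 2).circleIntegrable'
      intro z hz
      have h5 := hb z (sphere_mem hr hr1 hz).1
      have h6 : ‖Φ z * pol a m z‖ ≤ ‖pol a m z‖ := by
        rw [norm_mul]
        exact mul_le_of_le_one_left (norm_nonneg _) h5
      exact pow_le_pow_left₀ (norm_nonneg _) h6 2
    rw [avg_normsq_pol hr hr1] at h4
    have h7 : ∑ k ∈ Finset.range (m + 1), r ^ (2 * k) * ‖tc k (fun z => Φ z * F z)‖ ^ 2 =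
        ∑ k ∈ Finset.range (m + 1), r ^ (2 * k) * ‖tc k (fun z => Φ z * pol a m z)‖ ^ 2 := by
      refine Finset.sum_congr rfl fun k hk => ?_
      rw [h1 k (Nat.lt_succ_iff.mp (Finset.mem_range.mp hk))]
    rw [h7]
    refine h3.trans (h4.trans ?_)
    refine Finset.sum_le_sum fun k _ => ?_
    have : r ^ (2 * k) ≤ 1 := pow_le_one₀ hr.le hr1.le
    exact mul_le_of_le_one_left (by positivity) this
  have h8 : Tendsto (fun r : ℝ => ∑ k ∈ Finset.range (m + 1), r ^ (2 * k) *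
      ‖tc k (fun z => Φ z * F z)‖ ^ 2) (𝓝[<] 1)
      (𝓝 (∑ k ∈ Finset.range (m + 1), (1:ℝ) ^ (2 * k) * ‖tc k (fun z => Φ z * F z)‖ ^ 2)) := by
    have : Continuous (fun r : ℝ => ∑ k ∈ Finset.range (m + 1), r ^ (2 * k) *
      ‖tc k (fun z => Φ z * F z)‖ ^ 2) := by fun_prop
    exact (this.tendsto 1).mono_left nhdsWithin_le_nhds
  have h9 := le_of_tendsto h8 (b := ∑ k ∈ Finset.range (m + 1), ‖tc k F‖ ^ 2) (by
    filter_upwards [Ioo_mem_nhdsLT (show (0:ℝ) < 1 by norm_num)] with r hr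
    exact h2 r hr.1 hr.2)
  simpa using h9

end Pool.Agent.H802R2.AC
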