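import Pool.Agent.H802R2.AC2

set_option autoImplicit false

open Complex Metric Set Filter Topology

namespace Pool.Agent.H802R2.AC

/-- Boundary minimum lemma. -/
theorem bdry {u : ℂ → ℝ} {z1 : ℂ} {L : ℂ →L[ℝ] ℝ} (hu : HasFDerivAt u L z1)
    (h0 : ∀ z, ‖z‖ ≤ ‖z1‖ → 0 ≤ u z) (h1 : u z1 = 0) : L z1 ≤ 0 ∧ L (I * z1) = 0 := by
  constructor
  · -- radial
    have hd : HasDerivAt (fun t : ℝ => (t : ℂ) * z1) z1 1 := by
      have := (Complex.ofRealCLM.hasDerivAt (x := (1:ℝ))).mul_const z1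
      simpa using this
    have hu' : HasFDerivAt u L ((fun t : ℝ => (t : ℂ) * z1) 1) := by simpa using hu
    have hc : HasDerivAt (fun t : ℝ => u ((t : ℂ) * z1)) (L z1) 1 := by
      have := hu'.comp_hasDerivAt (1:ℝ) hd
      exact this
    have hs := hasDerivAt_iff_tendsto_slope_left_right.mp hc
    refine le_of_tendsto hs.1 ?_
    filter_upwards [Ioo_mem_nhdsLT (show (0:ℝ) < 1 by norm_num)] with t ht
    rw [slope_def_field]
    have e1 : u (((1:ℝ) : ℂ) * z1) = 0 := by simpa using h1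
    rw [e1, sub_zero]
    apply div_nonpos_of_nonneg_of_nonpos
    · apply h0
      rw [norm_mul, Complex.norm_real, Real.norm_of_nonneg ht.1.le]
      exact mul_le_of_le_one_left (norm_nonneg _) ht.2.le
    · linarith [ht.2]
  · have hd : HasDerivAt (fun t : ℝ => Complex.exp ((t : ℂ) * I) * z1) (I * z1) 0 := by
      have h2 : HasDerivAt (fun t : ℝ => (t : ℂ) * I) I 0 := by
        have := (Complex.ofRealCLM.hasDerivAt (x := (0:ℝ))).mul_const I
        simpa using this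
      have h3 := h2.cexp
      simp only [ofReal_zero, zero_mul, Complex.exp_zero, one_mul] at h3
      exact h3.mul_const z1
    have hu' : HasFDerivAt u L ((fun t : ℝ => Complex.exp ((t : ℂ) * I) * z1) 0) := by
      simpa using hu
    have hc : HasDerivAt (fun t : ℝ => u (Complex.exp ((t : ℂ) * I) * z1)) (L (I * z1)) 0 := by
      have := hu'.comp_hasDerivAt (0:ℝ) hd
      exact this
    have hm : IsLocalMin (fun t : ℝ => u (Complex.exp ((t : ℂ) * I) * z1)) 0 := by
      refine Filter.Eventually.of_forall fun t => ?_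
      have e1 : u (Complex.exp (((0:ℝ) : ℂ) * I) * z1) = 0 := by simpa using h1
      show u (Complex.exp (((0:ℝ) : ℂ) * I) * z1) ≤ u (Complex.exp ((t : ℂ) * I) * z1)
      rw [e1]
      apply h0
      rw [norm_mul, Complex.norm_exp_ofReal_mul_I, one_mul]
    exact hm.hasDerivAt_eq_zero hc

/-- First zero along the radius. -/
theorem first_zero {u : ℂ → ℝ} (hu : ContinuousOn u (ball (0:ℂ) 1)) (h0 : 0 < u 0) {z0 : ℂ}
    (hz0 : z0 ∈ ball (0:ℂ) 1) (hz : u z0 ≤ 0) :
    ∃ z1 ∈ ball (0:ℂ) 1, z1 ≠ 0 ∧ u z1 = 0 ∧ ∀ z, ‖z‖ ≤ ‖z1‖ → 0 ≤ u z := by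
  have hn0 : ‖z0‖ < 1 := norm_of_mem hz0
  have hsub : closedBall (0:ℂ) ‖z0‖ ⊆ ball 0 1 := closedBall_subset_ball hn0
  have hK : IsCompact (closedBall (0:ℂ) ‖z0‖ ∩ u ⁻¹' Iic 0) := by
    have hcl : IsClosed (closedBall (0:ℂ) ‖z0‖ ∩ u ⁻¹' Iic 0) :=
      (hu.mono hsub).preimage_isClosed_of_isClosed isClosed_closedBall isClosed_Iic
    exact (isCompact_closedBall (0:ℂ) ‖z0‖).of_isClosed_subset hcl inter_subset_left
  have hne : (closedBall (0:ℂ) ‖z0‖ ∩ u ⁻¹' Iic 0).Nonempty :=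
    ⟨z0, by simp, hz⟩
  obtain ⟨z1, hz1, hmin⟩ := hK.exists_isMinOn hne continuous_norm.continuousOn
  have hz1n : ‖z1‖ ≤ ‖z0‖ := by simpa using hz1.1
  have hz1b : z1 ∈ ball (0:ℂ) 1 := hsub hz1.1
  have hz1u : u z1 ≤ 0 := hz1.2
  have hz10 : z1 ≠ 0 := by
    rintro rfl
    linarith
  have hpos : ∀ z, ‖z‖ < ‖z1‖ → 0 < u z := by
    intro z hzz
    by_contra hcon
    push Not at hcon
    have : z ∈ closedBall (0:ℂ) ‖z0‖ ∩ u ⁻¹' Iic 0 :=
      ⟨by rw [mem_closedBall_zero_iff]; exact (hzz.le.trans hz1n), hcon⟩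
    have := hmin this
    simp only [mem_ofPred_eq] at this
    linarith
  have hnn : ∀ z, ‖z‖ ≤ ‖z1‖ → 0 ≤ u z := by
    intro z hzz
    have hzb : z ∈ ball (0:ℂ) 1 := mem_of_norm (lt_of_le_of_lt (hzz.trans hz1n) hn0)
    have hcz : ContinuousAt u z := hu.continuousAt (isOpen_ball.mem_nhds hzb)
    have ht : Tendsto (fun t : ℝ => u ((t : ℂ) * z)) (𝓝[<] 1) (𝓝 (u z)) := by
      have h2 : Tendsto (fun t : ℝ => (t : ℂ) * z) (𝓝[<] 1) (𝓝 z) := by
        have : Continuous (fun t : ℝ => (t : ℂ) * z) := by fun_prop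
        have h3 := this.tendsto 1
        simp only [ofReal_one, one_mul] at h3
        exact h3.mono_left nhdsWithin_le_nhds
      exact hcz.tendsto.comp h2
    refine ge_of_tendsto ht ?_
    filter_upwards [Ioo_mem_nhdsLT (show (0:ℝ) < 1 by norm_num)] with t ht
    by_cases hz0' : z = 0
    · subst hz0'; rw [mul_zero]; exact h0.le
    · apply (hpos _ _).le
      rw [norm_mul, Complex.norm_real, Real.norm_of_nonneg ht.1.le]
      have : 0 < ‖z‖ := norm_pos_iff.mpr hz0'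
      nlinarith [ht.2]
  exact ⟨z1, hz1b, hz10, le_antisymm hz1u (hnn z1 le_rfl), hnn⟩

/-- The minimum lemma: if `z J' + P J = 1` and `Re P > 0` on the disc then `Re J > 0`. -/
theorem min_lemma {J P : ℂ → ℂ} (hJ : An J)
    (hP : ∀ z ∈ ball (0:ℂ) 1, 0 < (P z).re)
    (hode : ∀ z ∈ ball (0:ℂ) 1, z * deriv J z + P z * J z = 1) :
    ∀ z ∈ ball (0:ℂ) 1, 0 < (J z).re := by
  intro z0 hz0
  by_contra hcon
  push Not at hcon
  have hc : ContinuousOn (fun z => (J z).re) (ball (0:ℂ) 1) :=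
    Complex.continuous_re.comp_continuousOn (DifferentiableOn.continuousOn hJ)
  have h0 : 0 < (J 0).re := by
    have h1 := hode 0 zero_mem
    rw [zero_mul, zero_add] at h1
    have hP0 : P 0 ≠ 0 := by
      intro h; rw [h] at h1; simp at h1
    have h2 : J 0 = (P 0)⁻¹ := by
      field_simp; rw [mul_comm]; exact h1
    rw [h2, Complex.inv_re]
    exact div_pos (hP 0 zero_mem) (Complex.normSq_pos.mpr hP0)
  obtain ⟨z1, hz1, hz10, hu1, hnn⟩ := first_zero hc h0 hz0 hcon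
  have hd : HasFDerivAt (fun z => (J z).re)
      (Complex.reCLM.comp (((ContinuousLinearMap.toSpanSingleton ℂ (deriv J z1) : ℂ →L[ℂ] ℂ)).restrictScalars ℝ)) z1 := by
    have h2 : HasFDerivAt J (ContinuousLinearMap.toSpanSingleton ℂ (deriv J z1) : ℂ →L[ℂ] ℂ) z1 :=
      (hJ.hasDerivAt hz1).hasFDerivAt
    exact Complex.reCLM.hasFDerivAt.comp z1 (h2.restrictScalars ℝ)
  obtain ⟨h3, h4⟩ := bdry hd hnn hu1
  have e3 : (z1 * deriv J z1).re ≤ 0 := by simpa using h3
  have e4 : (I * z1 * deriv J z1).re = 0 := by simpa using h4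
  have e4' : (z1 * deriv J z1).im = 0 := by
    have : (I * z1 * deriv J z1).re = -(z1 * deriv J z1).im := by
      rw [mul_assoc]; simp
    linarith
  have e5 := hode z1 hz1
  have r1 := congrArg Complex.re e5
  have r2 := congrArg Complex.im e5
  simp only [Complex.add_re, Complex.add_im, Complex.one_re, Complex.one_im] at r1 r2
  rw [Complex.mul_re (P z1), hu1] at r1
  rw [Complex.mul_im (P z1), hu1, e4'] at r2
  have hp := hP z1 hz1
  have hy : (J z1).im = 0 := by
    have : (P z1).re * (J z1).im = 0 := by linarith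
    rcases mul_eq_zero.mp this with h | h
    · exact absurd h hp.ne'
    · exact h
  rw [hy] at r1
  linarith

end Pool.Agent.H802R2.AC
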