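import Pool.Agent.H802R2.AC3

set_option autoImplicit false

open Complex Metric Set Filter Topology

namespace Pool.Agent.H802R2.AC

theorem An.inv {f : ℂ → ℂ} (hf : An f) (h0 : ∀ z ∈ ball (0:ℂ) 1, f z ≠ 0) : An (fun z => (f z)⁻¹) :=
  DifferentiableOn.inv hf h0

theorem An.div {f g : ℂ → ℂ} (hf : An f) (hg : An g) (h0 : ∀ z ∈ ball (0:ℂ) 1, g z ≠ 0) :
    An (fun z => f z / g z) :=
  DifferentiableOn.div hf hg h0

theorem An.cexp {f : ℂ → ℂ} (hf : An f) : An (fun z => Complex.exp (f z)) :=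
  DifferentiableOn.cexp hf

theorem An.clog {f : ℂ → ℂ} (hf : An f) (h0 : ∀ z ∈ ball (0:ℂ) 1, 0 < (f z).re) :
    An (fun z => Complex.log (f z)) :=
  DifferentiableOn.clog hf fun z hz => Or.inl (h0 z hz)

theorem ne_zero_of_re {w : ℂ} (h : 0 < w.re) : w ≠ 0 := by
  rintro rfl; simp at h

/-- Uniqueness for `z g' = 0`. -/
theorem const_of_zderiv {g : ℂ → ℂ} (hg : An g) (h : ∀ z ∈ ball (0:ℂ) 1, z * deriv g z = 0) :
    ∀ z ∈ ball (0:ℂ) 1, g z = g 0 := by
  intro z hz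
  refine ext_tc hg (An.const (g 0)) (fun n => ?_) hz
  rw [tc_const]
  have h1 : tc n (fun z => z * deriv g z) = tc n (fun _ => (0:ℂ)) := tc_congr n h
  rw [tc_zderiv hg, tc_const] at h1
  split_ifs with hn
  · subst hn; exact tc_zero g
  · rw [if_neg hn] at h1
    rcases mul_eq_zero.mp h1 with h2 | h2
    · exact absurd (Nat.cast_eq_zero.mp h2) hn
    · exact h2

/-- Uniqueness for first order linear equations `z f' = c f`. -/
theorem lin_unique {f F c : ℂ → ℂ} (hf : An f) (hF : An F) (h0 : ∀ z ∈ ball (0:ℂ) 1, F z ≠ 0)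
    (h1 : ∀ z ∈ ball (0:ℂ) 1, z * deriv f z = c z * f z)
    (h2 : ∀ z ∈ ball (0:ℂ) 1, z * deriv F z = c z * F z) (h3 : f 0 = F 0) :
    ∀ z ∈ ball (0:ℂ) 1, f z = F z := by
  have hq : An (fun z => f z / F z) := hf.div hF h0
  have hz : ∀ z ∈ ball (0:ℂ) 1, z * deriv (fun z => f z / F z) z = 0 := by
    intro z hz
    have e1 := (hf.hasDerivAt hz).fun_div (hF.hasDerivAt hz) (h0 z hz)
    rw [e1.deriv]
    have : z * ((deriv f z * F z - f z * deriv F z) / F z ^ 2) =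
      ((z * deriv f z) * F z - f z * (z * deriv F z)) / F z ^ 2 := by ring
    rw [this, h1 z hz, h2 z hz]
    ring
  intro z hz'
  have h4 := const_of_zderiv hq hz z hz'
  have h5 := h0 z hz'
  have h6 := h0 0 zero_mem
  simp only [h3, div_self h6] at h4
  rwa [div_eq_one_iff_eq h5] at h4

theorem exists_prim {g : ℂ → ℂ} (hg : An g) :
    ∃ G : ℂ → ℂ, An G ∧ G 0 = 0 ∧ ∀ z ∈ ball (0:ℂ) 1, HasDerivAt G (g z) z := by
  obtain ⟨G, h0, hG⟩ := (DifferentiableOn.isExactOn_ball hg).with_val_at 0 0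
  exact ⟨G, fun z hz => (hG z hz).differentiableAt.differentiableWithinAt, h0, hG⟩

/-- The half-plane function. -/
noncomputable def hh (z : ℂ) : ℂ := (1 + z) / (1 - z)

theorem one_sub_ne {z : ℂ} (hz : z ∈ ball (0:ℂ) 1) : 1 - z ≠ 0 := by
  intro h
  have h1 : z = 1 := by linear_combination -h
  have := norm_of_mem hz
  rw [h1, norm_one] at this
  exact lt_irrefl _ this

theorem hh_re {z : ℂ} (hz : z ∈ ball (0:ℂ) 1) : 0 < (hh z).re := by
  have h1 := norm_of_mem hz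
  have h2 : ‖z‖ ^ 2 < 1 := by nlinarith [norm_nonneg z]
  rw [← Complex.normSq_eq_norm_sq, Complex.normSq_apply] at h2
  have h3 : 0 < Complex.normSq (1 - z) := Complex.normSq_pos.mpr (one_sub_ne hz)
  rw [hh, Complex.div_re]
  rw [← add_div]
  apply div_pos _ h3
  simp only [Complex.add_re, Complex.sub_re, Complex.one_re, Complex.add_im, Complex.sub_im,
    Complex.one_im]
  nlinarith

theorem hh_An : An hh := by
  have : An (fun z => (1 + z) / (1 - z)) := by
    apply An.div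
    · exact (An.const 1).add An.id
    · exact (An.const 1).sub An.id
    · exact fun z hz => one_sub_ne hz
  exact this

theorem norm_sub_one_lt {w : ℂ} (h : 0 < w.re) : ‖w - 1‖ < ‖w + 1‖ := by
  have h1 : ‖w - 1‖ ^ 2 < ‖w + 1‖ ^ 2 := by
    rw [← Complex.normSq_eq_norm_sq, ← Complex.normSq_eq_norm_sq, Complex.normSq_apply,
      Complex.normSq_apply]
    simp only [Complex.sub_re, Complex.add_re, Complex.sub_im, Complex.add_im, Complex.one_re,
      Complex.one_im]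
    nlinarith
  exact lt_of_pow_lt_pow_left₀ 2 (norm_nonneg _) h1

/-- Schwarz representation of functions with positive real part. -/
theorem carath_rep {p : ℂ → ℂ} (hp : An p) (hre : ∀ z ∈ ball (0:ℂ) 1, 0 < (p z).re) (h0 : p 0 = 1) :
    ∃ Ψ : ℂ → ℂ, An Ψ ∧ (∀ z ∈ ball (0:ℂ) 1, ‖Ψ z‖ ≤ 1) ∧
      ∀ z ∈ ball (0:ℂ) 1, p z - 1 = z * Ψ z * (p z + 1) := by
  have hne : ∀ z ∈ ball (0:ℂ) 1, p z + 1 ≠ 0 := by
    intro z hz
    apply ne_zero_of_re
    have := hre z hz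
    simp only [Complex.add_re, Complex.one_re]
    linarith
  set Ω : ℂ → ℂ := fun z => (p z - 1) / (p z + 1) with hΩ
  have hΩA : An Ω := (hp.sub (An.const 1)).div (hp.add (An.const 1)) hne
  have hΩ0 : Ω 0 = 0 := by simp [hΩ, h0]
  have hmaps : MapsTo Ω (ball (0:ℂ) 1) (closedBall (Ω 0) 1) := by
    intro z hz
    rw [hΩ0, mem_closedBall_zero_iff, hΩ]
    simp only [norm_div]
    rw [div_le_one (norm_pos_iff.mpr (hne z hz))]
    exact (norm_sub_one_lt (hre z hz)).le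
  refine ⟨dslope Ω 0, hΩA.dslope, ?_, ?_⟩
  · intro z hz
    have := Complex.norm_dslope_le_div_of_mapsTo_ball (f := Ω) (c := 0) hΩA hmaps hz
    simpa using this
  · intro z hz
    have h1 := dslope_eq (f := Ω) z
    rw [hΩ0, zero_add] at h1
    rw [← h1, hΩ]
    field_simp [hne z hz]

/-- Carathéodory's coefficient bound. -/
theorem carath {p : ℂ → ℂ} (hp : An p) (hre : ∀ z ∈ ball (0:ℂ) 1, 0 < (p z).re) (h0 : p 0 = 1)
    (n : ℕ) (hn : n ≠ 0) : ‖tc n p‖ ≤ 2 := by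
  obtain ⟨Ψ, hΨ, hb, heq⟩ := carath_rep hp hre h0
  obtain ⟨m, rfl⟩ := Nat.exists_eq_succ_of_ne_zero hn
  have hpp : An (fun z => p z + 1) := hp.add (An.const 1)
  have hpm : An (fun z => p z - 1) := hp.sub (An.const 1)
  have h1 : ∀ k, tc (k + 1) (fun z => p z - 1) = tc k (fun z => Ψ z * (p z + 1)) := by
    intro k
    rw [← tc_zmul_succ (hΨ.mul hpp)]
    apply tc_congr
    intro z hz
    rw [heq z hz]; ring
  have h2 : ∀ k, tc (k + 1) (fun z => p z - 1) = tc (k + 1) p := by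
    intro k
    rw [tc_sub hp (An.const 1), tc_const]; simp
  have h3 : ∀ k, tc (k + 1) (fun z => p z + 1) = tc (k + 1) p := by
    intro k
    rw [tc_add hp (An.const 1), tc_const]; simp
  have h4 : tc 0 (fun z => p z + 1) = 2 := by
    rw [tc_zero, h0]; norm_num
  have hc := contract hΨ hpp hb m
  have h5 : ∑ k ∈ Finset.range (m + 1), ‖tc k (fun z => Ψ z * (p z + 1))‖ ^ 2 =
      (∑ k ∈ Finset.range m, ‖tc (k + 1) p‖ ^ 2) + ‖tc (m + 1) p‖ ^ 2 := by
    rw [Finset.sum_range_succ]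
    congr 1
    · exact Finset.sum_congr rfl fun k _ => by rw [← h1, h2]
    · rw [← h1, h2]
  have h6 : ∑ k ∈ Finset.range (m + 1), ‖tc k (fun z => p z + 1)‖ ^ 2 =
      (∑ k ∈ Finset.range m, ‖tc (k + 1) p‖ ^ 2) + 4 := by
    rw [Finset.sum_range_succ', h4]
    congr 1
    · exact Finset.sum_congr rfl fun k _ => by rw [h3]
    · norm_num
  rw [h5, h6] at hc
  have h7 : ‖tc (m + 1) p‖ ^ 2 ≤ 2 ^ 2 := by linarith
  exact le_of_sq_le_sq h7 (by norm_num)

end Pool.Agent.H802R2.AC
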