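import Pool.Agent.H802R2.AC4

set_option autoImplicit false

open Complex Metric Set Filter Topology

namespace Pool.Agent.H802R2.AC

/-- Taylor coefficients of `1/q₀`. -/
noncomputable def cw (β : ℝ) : ℕ → ℝ
  | 0 => 1
  | 1 => -(2 * β) / (β + 1)
  | (k + 2) => cw β (k + 1) * ((k + 1 - β) / (k + 2 + β))

theorem cw_bound {β : ℝ} (hβ : 0 < β) (n : ℕ) : |cw β n| ≤ 2 := by
  have key : ∀ n, |cw β (n + 1)| ≤ 2 := by
    intro n
    induction n with
    | zero =>
      rw [cw, abs_div, abs_neg, abs_of_pos (by positivity : (0:ℝ) < 2 * β),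
        abs_of_pos (by positivity : (0:ℝ) < β + 1), div_le_iff₀ (by positivity)]
      linarith
    | succ k ih =>
      rw [cw, abs_mul]
      have h1 : |((k:ℝ) + 1 - β) / (k + 2 + β)| ≤ 1 := by
        rw [abs_div, abs_of_pos (by positivity : (0:ℝ) < k + 2 + β), div_le_one (by positivity)]
        have hk : (0:ℝ) ≤ k := Nat.cast_nonneg k
        rw [abs_le]
        constructor <;> linarith
      calc |cw β (k + 1)| * |((k:ℝ) + 1 - β) / (k + 2 + β)| ≤ 2 * 1 :=
            mul_le_mul ih h1 (abs_nonneg _) (by norm_num)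
        _ = 2 := by norm_num
  cases n with
  | zero => rw [cw]; norm_num
  | succ n => exact key n

theorem exists_w0 {β : ℝ} (hβ : 0 < β) : ∃ w : ℂ → ℂ, An w ∧ (∀ n, tc n w = (cw β n : ℂ)) ∧
    ∀ z ∈ ball (0:ℂ) 1, z * deriv w z + β * hh z * w z = β := by
  obtain ⟨w, hw, hc⟩ := exists_of_coeff (fun n => (cw β n : ℂ)) (by
    intro r hr0 hr1
    refine Summable.of_nonneg_of_le (f := fun n => 2 * r ^ n) (fun n => by positivity) (fun n => ?_)
      ((summable_geometric_of_lt_one hr0 hr1).mul_left 2)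
    rw [Complex.norm_real]
    exact mul_le_mul_of_nonneg_right (cw_bound hβ n) (pow_nonneg hr0 n))
  refine ⟨w, hw, hc, ?_⟩
  have hD : An (fun z => z * deriv w z) := An.id.mul hw.deriv
  have hβw : An (fun z => (β:ℂ) * w z) := hw.cmul _
  have hL : An (fun z => (z * deriv w z - z * (z * deriv w z)) + ((β:ℂ) * w z + z * ((β:ℂ) * w z))) :=
    (hD.sub (An.id.mul hD)).add (hβw.add (An.id.mul hβw))
  have hR : An (fun z => (β:ℂ) - β * z) := (An.const _).sub (An.id.cmul _)
  have hne : ((β:ℂ) + 1) ≠ 0 := by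
    have : (β + 1 : ℝ) ≠ 0 := by positivity
    exact_mod_cast this
  have key : ∀ z ∈ ball (0:ℂ) 1,
      (z * deriv w z - z * (z * deriv w z)) + ((β:ℂ) * w z + z * ((β:ℂ) * w z)) = (β:ℂ) - β * z := by
    intro z hz
    refine ext_tc hL hR (fun n => ?_) hz
    rw [tc_add (hD.sub (An.id.mul hD)) (hβw.add (An.id.mul hβw)), tc_sub hD (An.id.mul hD),
      tc_add hβw (An.id.mul hβw), tc_sub (An.const _) (An.id.cmul _), tc_zderiv hw, tc_cmul, tc_cmul,
      tc_const, tc_id]
    match n with
    | 0 =>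
      rw [tc_zmul_zero, tc_zmul_zero, hc]
      simp [cw]
    | 1 =>
      rw [tc_zmul_succ hD, tc_zmul_succ hβw, tc_zderiv hw, tc_cmul, hc, hc]
      have h2 : cw β 1 = -(2 * β) / (β + 1) := by rw [cw]
      have h3 : cw β 0 = 1 := by rw [cw]
      rw [h2, h3]
      push_cast
      field_simp
      ring
    | (k + 2) =>
      rw [tc_zmul_succ hD, tc_zmul_succ hβw, tc_zderiv hw, tc_cmul, hc, hc]
      have h2 : cw β (k + 2) = cw β (k + 1) * ((k + 1 - β) / (k + 2 + β)) := by rw [cw]
      have hne2 : ((k:ℂ) + 2 + β) ≠ 0 := by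
        have : ((k:ℝ) + 2 + β : ℝ) ≠ 0 := by positivity
        exact_mod_cast this
      rw [h2, if_neg (by omega), if_neg (by omega)]
      push_cast
      field_simp
      ring
  intro z hz
  have h1 := key z hz
  have h2 := one_sub_ne hz
  rw [hh]
  field_simp
  linear_combination h1

/-- The structure of the dominant `q₀`. -/
structure QZ (β : ℝ) (q : ℂ → ℂ) : Prop where
  an : An q
  zero : q 0 = 1
  re : ∀ z ∈ ball (0:ℂ) 1, 0 < (q z).re
  ode : ∀ z ∈ ball (0:ℂ) 1, z * deriv q z = β * q z * (hh z - q z)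
  real : ∀ n, (tc n q).im = 0

theorem exists_q0 {β : ℝ} (hβ : 0 < β) : ∃ q : ℂ → ℂ, QZ β q := by
  obtain ⟨w, hw, hc, hode⟩ := exists_w0 hβ
  have hβ0 : (β:ℂ) ≠ 0 := by exact_mod_cast hβ.ne'
  have hw0 : w 0 = 1 := by
    have := hc 0
    rw [tc_zero, cw] at this
    simpa using this
  have hre : ∀ z ∈ ball (0:ℂ) 1, 0 < (w z).re := by
    have hJ : An (fun z => (β:ℂ)⁻¹ * w z) := hw.cmul _
    have hP : ∀ z ∈ ball (0:ℂ) 1, 0 < ((β:ℂ) * hh z).re := by
      intro z hz
      rw [Complex.re_ofReal_mul]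
      exact mul_pos hβ (hh_re hz)
    have := min_lemma hJ hP (by
      intro z hz
      have e1 : deriv (fun z => (β:ℂ)⁻¹ * w z) z = (β:ℂ)⁻¹ * deriv w z :=
        ((hw.hasDerivAt hz).const_mul _).deriv
      rw [e1]
      have e2 := hode z hz
      field_simp
      linear_combination e2)
    intro z hz
    have h1 := this z hz
    have h2 : ((β:ℂ)⁻¹ * w z).re = β⁻¹ * (w z).re := by
      rw [← Complex.ofReal_inv, Complex.re_ofReal_mul]
    rw [h2] at h1
    exact (mul_pos_iff_of_pos_left (inv_pos.mpr hβ)).mp h1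
  have hne : ∀ z ∈ ball (0:ℂ) 1, w z ≠ 0 := fun z hz => ne_zero_of_re (hre z hz)
  have hq : An (fun z => (w z)⁻¹) := hw.inv hne
  refine ⟨fun z => (w z)⁻¹, hq, ?_, ?_, ?_, ?_⟩
  · simp [hw0]
  · intro z hz
    show 0 < ((w z)⁻¹).re
    rw [Complex.inv_re]
    exact div_pos (hre z hz) (Complex.normSq_pos.mpr (hne z hz))
  · intro z hz
    have e1 := (hw.hasDerivAt hz).fun_inv (hne z hz)
    rw [e1.deriv]
    have e2 := hode z hz
    have e3 := hne z hz
    have e4 : z * deriv w z = β - β * hh z * w z := by linear_combination e2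
    field_simp
    linear_combination -e4
  · intro n
    induction n using Nat.strong_induction_on with
    | _ n ih =>
      cases n with
      | zero => rw [tc_zero]; simp [hw0]
      | succ n =>
        have h1 : tc (n + 1) (fun z => w z * (w z)⁻¹) = 0 := by
          have : tc (n + 1) (fun z => w z * (w z)⁻¹) = tc (n + 1) (fun _ => (1:ℂ)) :=
            tc_congr _ fun z hz => mul_inv_cancel₀ (hne z hz)
          rw [this, tc_const]; simp
        rw [tc_mul hw hq, Finset.sum_range_succ'] at h1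
        simp only [hc] at h1
        have h2 : tc (n + 1) (fun z => (w z)⁻¹) =
            -∑ k ∈ Finset.range (n + 1), (cw β (k + 1) : ℂ) * tc (n + 1 - (k + 1)) (fun z => (w z)⁻¹) := by
          have h3 : ((cw β 0 : ℝ) : ℂ) = 1 := by rw [cw]; simp
          rw [h3, one_mul, Nat.sub_zero] at h1
          linear_combination h1
        rw [h2, Complex.neg_im, Complex.im_sum, neg_eq_zero]
        apply Finset.sum_eq_zero
        intro k hk
        rw [Complex.im_ofReal_mul, ih _ (by omega), mul_zero]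

theorem hh_coeff (n : ℕ) : tc (n + 1) hh = 2 := by
  have h1 : ∀ z ∈ ball (0:ℂ) 1, hh z - z * hh z = 1 + z := by
    intro z hz
    have := one_sub_ne hz
    rw [hh]; field_simp
  have h2 : ∀ n, tc n (fun z => hh z - z * hh z) = tc n (fun z => 1 + z) := fun n => tc_congr n h1
  have h0 : tc 0 hh = 1 := by rw [tc_zero, hh]; simp
  induction n with
  | zero =>
    have := h2 1
    rw [tc_sub hh_An (An.id.mul hh_An), tc_zmul_succ hh_An, tc_add (An.const 1) An.id, tc_const,
      tc_id, h0] at this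
    simp at this
    linear_combination this
  | succ n ih =>
    have := h2 (n + 1 + 1)
    rw [tc_sub hh_An (An.id.mul hh_An), tc_zmul_succ hh_An, tc_add (An.const 1) An.id, tc_const,
      tc_id, ih] at this
    simp at this
    linear_combination this

/-- Nonnegativity of the coefficients of `q₀^γ`. -/
theorem Q0_nonneg {β : ℝ} {q Q : ℂ → ℂ} (hq : QZ β q) (hQ : An Q) (hQ0 : Q 0 = 1) {γ : ℝ} (hγ : 0 ≤ γ)
    (hode : ∀ z ∈ ball (0:ℂ) 1, z * deriv Q z = γ * ((hh z - q z) * Q z)) (n : ℕ) :
    (tc n Q).im = 0 ∧ 0 ≤ (tc n Q).re := by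
  have hd : An (fun z => hh z - q z) := hh_An.sub hq.an
  have hd0 : tc 0 (fun z => hh z - q z) = 0 := by
    rw [tc_zero, hq.zero, hh]; simp
  have hd1 : ∀ k, k ≠ 0 → (tc k (fun z => hh z - q z)).im = 0 ∧
      0 ≤ (tc k (fun z => hh z - q z)).re := by
    intro k hk
    obtain ⟨m, rfl⟩ := Nat.exists_eq_succ_of_ne_zero hk
    rw [tc_sub hh_An hq.an, hh_coeff]
    have h1 := carath hq.an hq.re hq.zero (m + 1) hk
    have h2 := hq.real (m + 1)
    constructor
    · rw [Complex.sub_im, h2]; simp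
    · rw [Complex.sub_re]
      have h3 : (tc (m + 1) q).re ≤ 2 := (Complex.re_le_norm _).trans h1
      simp only [Complex.re_ofNat]
      linarith
  induction n using Nat.strong_induction_on with
  | _ n ih =>
    rcases Nat.eq_zero_or_pos n with rfl | hn
    · rw [tc_zero, hQ0]; simp
    · have h1 : tc n (fun z => z * deriv Q z) = tc n (fun z => (γ:ℂ) * ((hh z - q z) * Q z)) :=
        tc_congr n hode
      rw [tc_zderiv hQ, tc_cmul, tc_mul hd hQ] at h1
      obtain ⟨m, rfl⟩ := Nat.exists_eq_succ_of_ne_zero hn.ne'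
      have hterm : ∀ i ∈ Finset.range (m.succ + 1),
          (tc i (fun z => hh z - q z) * tc (m.succ - i) Q).im = 0 ∧
          0 ≤ (tc i (fun z => hh z - q z) * tc (m.succ - i) Q).re := by
        intro i _
        rcases Nat.eq_zero_or_pos i with rfl | hi
        · rw [hd0]; simp
        · obtain ⟨a1, a2⟩ := hd1 i hi.ne'
          obtain ⟨b1, b2⟩ := ih (m.succ - i) (by omega)
          rw [Complex.mul_im, Complex.mul_re, a1, b1]
          constructor
          · ring
          · have := mul_nonneg a2 b2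
            linarith
      have hm : (0:ℝ) < (m.succ : ℝ) := by exact_mod_cast Nat.succ_pos m
      have h2 : tc m.succ Q = (((γ / (m.succ:ℝ) : ℝ)) : ℂ) *
          ∑ i ∈ Finset.range (m.succ + 1), tc i (fun z => hh z - q z) * tc (m.succ - i) Q := by
        have hm' : ((m.succ : ℕ) : ℂ) ≠ 0 := by exact_mod_cast (Nat.succ_ne_zero m)
        rw [Complex.ofReal_div, Complex.ofReal_natCast, div_mul_eq_mul_div, eq_div_iff hm']
        rw [← h1]; ring
      rw [h2, Complex.im_ofReal_mul, Complex.re_ofReal_mul, Complex.im_sum, Complex.re_sum]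
      constructor
      · rw [Finset.sum_eq_zero fun i hi => (hterm i hi).1, mul_zero]
      · exact mul_nonneg (div_nonneg hγ hm.le) (Finset.sum_nonneg fun i hi => (hterm i hi).2)

end Pool.Agent.H802R2.AC
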