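import Pool.Agent.H802R2.AC5
import Pool.Agent.Helper968.Schild.Starlike
import Pool.Agent.Helper202.Geom

set_option autoImplicit false

open Complex Metric Set Filter Topology

namespace Pool.Agent.H802R2.AC

/-- the auxiliary function `J₀`. -/
noncomputable def J0 (β : ℝ) (q : ℂ → ℂ) (z : ℂ) : ℂ := (1 - z) ^ 2 * deriv q z / (2 * β * q z)

theorem J0_An {β : ℝ} (hβ : 0 < β) {q : ℂ → ℂ} (hq : QZ β q) : An (J0 β q) := by
  have : An (fun z => (1 - z) ^ 2 * deriv q z / (2 * β * q z)) := by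
    apply An.div
    · exact (((An.const 1).sub An.id).pow 2).mul hq.an.deriv
    · exact (An.const (2 * β)).mul hq.an
    · intro z hz
      have h1 := ne_zero_of_re (hq.re z hz)
      have h2 : (β:ℂ) ≠ 0 := by exact_mod_cast hβ.ne'
      exact mul_ne_zero (mul_ne_zero two_ne_zero h2) h1
  exact this

theorem J0_re {β : ℝ} (hβ : 0 < β) {q : ℂ → ℂ} (hq : QZ β q) :
    ∀ z ∈ ball (0:ℂ) 1, 0 < (J0 β q z).re := by
  have hP : ∀ z ∈ ball (0:ℂ) 1, 0 < (β * q z + hh z).re := by
    intro z hz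
    rw [Complex.add_re, Complex.re_ofReal_mul]
    have := mul_pos hβ (hq.re z hz)
    linarith [hh_re hz]
  refine min_lemma (J0_An hβ hq) hP ?_
  intro z hz
  have hβ0 : (β:ℂ) ≠ 0 := by exact_mod_cast hβ.ne'
  have hq0 := ne_zero_of_re (hq.re z hz)
  have hz1 := one_sub_ne hz
  have d1 := hq.an.hasDerivAt hz
  have d2 := hq.an.deriv.hasDerivAt hz
  -- derivative of J0
  have e1 : HasDerivAt (J0 β q) (((-(2 * (1 - z)) * deriv q z + (1 - z) ^ 2 * deriv (deriv q) z) *
      (2 * β * q z) - (1 - z) ^ 2 * deriv q z * (2 * β * deriv q z)) / (2 * β * q z) ^ 2) z := by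
    have a1 : HasDerivAt (fun z : ℂ => (1 - z) ^ 2) (-(2 * (1 - z))) z := by
      have := ((hasDerivAt_id z).const_sub 1).pow 2
      convert! this using 1
      simp
    have a2 := a1.mul d2
    have a3 := d1.const_mul (2 * (β:ℂ))
    exact a2.fun_div a3 (mul_ne_zero (mul_ne_zero two_ne_zero hβ0) hq0)
  -- derivative of the equation
  have e2 : deriv q z + z * deriv (deriv q) z =
      β * (deriv q z * (hh z - q z) + q z * (2 / (1 - z) ^ 2 - deriv q z)) := by
    have b1 : HasDerivAt (fun z => z * deriv q z) (1 * deriv q z + z * deriv (deriv q) z) z :=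
      (hasDerivAt_id z).mul d2
    have b2 : HasDerivAt hh (2 / (1 - z) ^ 2) z := by
      have := ((hasDerivAt_id z).const_add 1).fun_div ((hasDerivAt_id z).const_sub 1) hz1
      convert! this using 1
      simp only [id]
      ring
    have b3 : HasDerivAt (fun z => (β * q z) * (hh z - q z))
        (β * deriv q z * (hh z - q z) + β * q z * (2 / (1 - z) ^ 2 - deriv q z)) z :=
      (d1.const_mul _).mul (b2.sub d1)
    have b4 : (fun z => z * deriv q z) =ᶠ[𝓝 z] fun z => (β * q z) * (hh z - q z) := by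
      filter_upwards [isOpen_ball.mem_nhds hz] with y hy using hq.ode y hy
    have b5 := (b1.congr_of_eventuallyEq b4.symm).unique b3
    rw [one_mul] at b5
    rw [b5]; ring
  have e3 := hq.ode z hz
  rw [e1.deriv, J0]
  have e4 : z * deriv (deriv q) z =
      β * (deriv q z * (hh z - q z) + q z * (2 / (1 - z) ^ 2 - deriv q z)) - deriv q z := by
    rw [← e2]; ring
  have e5 : hh z * (1 - z) = 1 + z := by rw [hh]; field_simp
  have e6 : z * (((-(2 * (1 - z)) * deriv q z + (1 - z) ^ 2 * deriv (deriv q) z) *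
      (2 * β * q z) - (1 - z) ^ 2 * deriv q z * (2 * β * deriv q z)) / (2 * β * q z) ^ 2) =
      ((-(2 * (1 - z)) * z * deriv q z + (1 - z) ^ 2 * (z * deriv (deriv q) z)) *
      (2 * β * q z) - (1 - z) ^ 2 * (z * deriv q z) * (2 * β * deriv q z)) / (2 * β * q z) ^ 2 := by
    ring
  rw [e6, e4, e3]
  have e7 : deriv q z * (1 - z) * (hh z * (1 - z)) = deriv q z * (1 - z) * (1 + z) := by rw [e5]
  field_simp
  linear_combination e7

theorem q_deriv_ne {β : ℝ} (hβ : 0 < β) {q : ℂ → ℂ} (hq : QZ β q) {z : ℂ} (hz : z ∈ ball (0:ℂ) 1) :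
    deriv q z ≠ 0 := by
  intro h
  have h1 := J0_re hβ hq z hz
  rw [J0, h] at h1
  simp at h1

/-- inverse of the half-plane map -/
noncomputable def zeta (W : ℂ) : ℂ := (W - 1) / (W + 1)

theorem zeta_mem {W : ℂ} (h : 0 < W.re) : zeta W ∈ ball (0:ℂ) 1 := by
  apply mem_of_norm
  have h1 := norm_sub_one_lt h
  rw [zeta, norm_div, div_lt_one (lt_of_le_of_lt (norm_nonneg _) h1)]
  exact h1

theorem zeta_hh {z : ℂ} (hz : z ∈ ball (0:ℂ) 1) : zeta (hh z) = z := by
  have h1 := one_sub_ne hz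
  have h2 : hh z + 1 ≠ 0 := by
    apply ne_zero_of_re
    have := hh_re hz
    simp only [Complex.add_re, Complex.one_re]
    linarith
  rw [zeta, div_eq_iff h2, hh]
  field_simp
  ring

theorem zeta_deriv {W : ℂ} (h : 0 < W.re) : HasDerivAt zeta ((1 - zeta W) ^ 2 / 2) W := by
  have h2 : W + 1 ≠ 0 := by
    apply ne_zero_of_re
    simp only [Complex.add_re, Complex.one_re]
    linarith
  have := ((hasDerivAt_id W).sub_const 1).fun_div ((hasDerivAt_id W).add_const 1) h2
  convert! this using 1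
  simp only [id, zeta]
  field_simp
  ring

theorem q_inj {β : ℝ} (hβ : 0 < β) {q : ℂ → ℂ} (hq : QZ β q) : InjOn q (ball (0:ℂ) 1) := by
  intro z1 hz1 z2 hz2 he
  have hβ0 : (β:ℂ) ≠ 0 := by exact_mod_cast hβ.ne'
  have key := Pool.Agent.Helper968.Schild.starlike_aux_inj
    (fun w => -Complex.log (q (zeta (-w)))) (fun w => β * J0 β q (zeta (-w))) (by
      intro w hw
      have hw' : 0 < (-w).re := by rw [Complex.neg_re]; linarith
      have hm := zeta_mem hw'
      have d1 : HasDerivAt (fun w : ℂ => zeta (-w)) (-((1 - zeta (-w)) ^ 2 / 2)) w := by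
        have := (zeta_deriv hw').comp w ((hasDerivAt_id w).neg)
        convert! this using 1
        ring
      have d2 : HasDerivAt (fun w : ℂ => q (zeta (-w)))
          (deriv q (zeta (-w)) * (-((1 - zeta (-w)) ^ 2 / 2))) w :=
        (hq.an.hasDerivAt hm).comp w d1
      have d3 := (d2.clog (Or.inl (hq.re _ hm))).neg
      convert! d3 using 1
      rw [J0]
      have hq0 := ne_zero_of_re (hq.re _ hm)
      field_simp) (by
      intro w hw
      have hw' : 0 < (-w).re := by rw [Complex.neg_re]; linarith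
      rw [Complex.re_ofReal_mul]
      exact mul_pos hβ (J0_re hβ hq _ (zeta_mem hw')))
    (-hh z1) (-hh z2) (by rw [Complex.neg_re]; linarith [hh_re hz1])
    (by rw [Complex.neg_re]; linarith [hh_re hz2]) (by
      simp only [neg_neg]
      rw [zeta_hh hz1, zeta_hh hz2, he])
  have h2 : hh z1 = hh z2 := neg_injective key
  rw [← zeta_hh hz1, ← zeta_hh hz2, h2]

/-- the inverse function of `q`. -/
noncomputable def qinv (q : ℂ → ℂ) : ℂ → ℂ := Function.invFunOn q (ball (0:ℂ) 1)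

theorem qinv_q {β : ℝ} (hβ : 0 < β) {q : ℂ → ℂ} (hq : QZ β q) {z : ℂ} (hz : z ∈ ball (0:ℂ) 1) :
    qinv q (q z) = z := (q_inj hβ hq).leftInvOn_invFunOn hz

theorem q_qinv {q : ℂ → ℂ} {w : ℂ} (hw : w ∈ q '' ball (0:ℂ) 1) : q (qinv q w) = w :=
  Function.invFunOn_eq hw

theorem qinv_mem {q : ℂ → ℂ} {w : ℂ} (hw : w ∈ q '' ball (0:ℂ) 1) : qinv q w ∈ ball (0:ℂ) 1 :=
  Function.invFunOn_mem hw

theorem q_open {β : ℝ} (hβ : 0 < β) {q : ℂ → ℂ} (hq : QZ β q) : IsOpen (q '' ball (0:ℂ) 1) := by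
  rw [isOpen_iff_mem_nhds]
  rintro _ ⟨z, hz, rfl⟩
  rw [← ((hq.an.analyticAt hz).hasStrictDerivAt).map_nhds_eq (q_deriv_ne hβ hq hz)]
  exact Filter.image_mem_map (isOpen_ball.mem_nhds hz)

theorem qinv_hasDerivAt {β : ℝ} (hβ : 0 < β) {q : ℂ → ℂ} (hq : QZ β q) {z : ℂ}
    (hz : z ∈ ball (0:ℂ) 1) : HasDerivAt (qinv q) (deriv q z)⁻¹ (q z) := by
  have hs : HasStrictDerivAt q (deriv q z) z := (hq.an.analyticAt hz).hasStrictDerivAt
  have h1 : HasStrictDerivAt (qinv q) (deriv q z)⁻¹ (q z) := by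
    apply hs.to_local_left_inverse (q_deriv_ne hβ hq hz)
    filter_upwards [isOpen_ball.mem_nhds hz] with x hx
    exact qinv_q hβ hq hx
  exact h1.hasDerivAt

end Pool.Agent.H802R2.AC
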