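import Pool.Agent.H802R2.AC6

set_option autoImplicit false

open Complex Metric Set Filter Topology

namespace Pool.Agent.H802R2.AC

/-- derivative at the origin from the Briot-Bouquet type equation -/
theorem deriv_zero {β : ℝ} (hβ : 0 < β) {p q : ℂ → ℂ} (hp : An p) (hq : An q) (hq0 : q 0 = 1)
    (hode : ∀ z ∈ ball (0:ℂ) 1, z * deriv q z = β * q z * (p z - q z)) :
    p 0 = 1 ∧ deriv q 0 * (1 + β) = β * deriv p 0 := by
  have hβ0 : (β:ℂ) ≠ 0 := by exact_mod_cast hβ.ne'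
  have h1 := hode 0 zero_mem
  have hp0 : p 0 = 1 := by
    rw [zero_mul, hq0, mul_one] at h1
    have h2 := (mul_eq_zero.mp h1.symm).resolve_left hβ0
    linear_combination h2
  refine ⟨hp0, ?_⟩
  have d1 := hq.hasDerivAt zero_mem
  have d2 := hq.deriv.hasDerivAt zero_mem
  have d3 := hp.hasDerivAt zero_mem
  have b1 : HasDerivAt (fun z => z * deriv q z) (1 * deriv q 0 + 0 * deriv (deriv q) 0) 0 :=
    (hasDerivAt_id (0:ℂ)).mul d2
  have b3 : HasDerivAt (fun z => (β * q z) * (p z - q z))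
      (β * deriv q 0 * (p 0 - q 0) + β * q 0 * (deriv p 0 - deriv q 0)) 0 :=
    (d1.const_mul _).mul (d3.sub d1)
  have b4 : (fun z => z * deriv q z) =ᶠ[𝓝 0] fun z => (β * q z) * (p z - q z) := by
    filter_upwards [isOpen_ball.mem_nhds zero_mem] with y hy using hode y hy
  have b5 := (b1.congr_of_eventuallyEq b4.symm).unique b3
  rw [hp0, hq0] at b5
  linear_combination b5

theorem hh_deriv_zero : deriv hh 0 = 2 := by
  have := ((hasDerivAt_id (0:ℂ)).const_add 1).fun_div ((hasDerivAt_id (0:ℂ)).const_sub 1) (by simp)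
  have h2 : HasDerivAt hh 2 0 := by
    convert! this using 1
    simp only [id]
    norm_num
  exact h2.deriv

/-- The pointwise estimate at a boundary point. -/
theorem barrier {β : ℝ} (hβ : 0 < β) {q0 : ℂ → ℂ} (h0 : QZ β q0) {ζ P : ℂ} (hζ : ζ ∈ ball (0:ℂ) 1)
    (hζ0 : ζ ≠ 0) {m : ℝ} (hm : 1 ≤ m) (hP : P - q0 ζ = m * (hh ζ - q0 ζ)) {ρ : ℝ} (hρ1 : ρ < 1)
    (hb : ‖P - 1‖ ≤ ρ * ‖ζ‖ * ‖P + 1‖) : False := by
  have hβ0 : (β:ℂ) ≠ 0 := by exact_mod_cast hβ.ne'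
  have hq0 := ne_zero_of_re (h0.re ζ hζ)
  have hz1 := one_sub_ne hζ
  have hJ := J0_re hβ h0 ζ hζ
  have e1 : hh ζ - q0 ζ = 2 * ζ * J0 β q0 ζ / (1 - ζ) ^ 2 := by
    have e2 := h0.ode ζ hζ
    rw [J0]
    field_simp
    linear_combination -e2
  set J := J0 β q0 ζ with hJdef
  set c : ℂ := ((m - 1 : ℝ) : ℂ) * J / (1 - ζ) with hc
  have e3 : P = hh ζ + ((m - 1 : ℝ) : ℂ) * (hh ζ - q0 ζ) := by
    push_cast
    linear_combination hP
  have e4 : P - 1 = (2 / (1 - ζ)) * ζ * (1 + c) := by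
    rw [e3, e1, hc, hh]
    field_simp
    ring
  have e5 : P + 1 = (2 / (1 - ζ)) * (1 + ζ * c) := by
    rw [e3, e1, hc, hh]
    field_simp
    ring
  have e6 : c * (1 - ζ) = ((m - 1 : ℝ) : ℂ) * J := by rw [hc]; field_simp
  have e7 : ‖1 + ζ * c‖ ≤ ‖1 + c‖ := by
    have h1 : ‖1 + ζ * c‖ ^ 2 ≤ ‖1 + c‖ ^ 2 := by
      rw [← Complex.normSq_eq_norm_sq, ← Complex.normSq_eq_norm_sq, Complex.normSq_add,
        Complex.normSq_add, Complex.normSq_mul]
      have h2 : Complex.normSq ζ ≤ 1 := by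
        rw [Complex.normSq_eq_norm_sq]
        have := norm_of_mem hζ
        nlinarith [norm_nonneg ζ]
      have h3 : 0 ≤ (c * (1 - ζ)).re := by
        rw [e6, Complex.re_ofReal_mul]
        exact mul_nonneg (by linarith) hJ.le
      have h4 : (1 * (starRingEnd ℂ) c).re - (1 * (starRingEnd ℂ) (ζ * c)).re = (c * (1 - ζ)).re := by
        rw [one_mul, one_mul, Complex.conj_re, Complex.conj_re, ← Complex.sub_re]
        congr 1; ring
      have h5 := mul_le_mul_of_nonneg_right h2 (Complex.normSq_nonneg c)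
      linarith
    exact le_of_sq_le_sq h1 (norm_nonneg _)
  have e8 : ‖ζ‖ * ‖P + 1‖ ≤ ‖P - 1‖ := by
    rw [e4, e5, norm_mul, norm_mul, norm_mul]
    have := mul_le_mul_of_nonneg_left e7 (mul_nonneg (norm_nonneg ζ) (norm_nonneg (2 / (1 - ζ))))
    linarith
  have hζn : 0 < ‖ζ‖ := norm_pos_iff.mpr hζ0
  have e9 : ‖P + 1‖ = 0 := by
    have h1 : (1 - ρ) * (‖ζ‖ * ‖P + 1‖) ≤ 0 := by linarith
    have h2 : 0 ≤ ‖ζ‖ * ‖P + 1‖ := by positivity
    have h3 : ‖ζ‖ * ‖P + 1‖ = 0 := by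
      by_contra hne
      have h4 : 0 < ‖ζ‖ * ‖P + 1‖ := lt_of_le_of_ne h2 (Ne.symm hne)
      have := mul_pos (sub_pos.mpr hρ1) h4
      linarith
    exact (mul_eq_zero.mp h3).resolve_left hζn.ne'
  have e10 : ‖P - 1‖ = 0 := by
    rw [e9, mul_zero] at hb
    exact le_antisymm hb (norm_nonneg _)
  have e11 : P = -1 := by linear_combination (norm_eq_zero.mp e9)
  have e12 : P = 1 := by linear_combination (norm_eq_zero.mp e10)
  rw [e11] at e12
  norm_num at e12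

/-- Jack's lemma in the form used here. -/
theorem jack {om : ℂ → ℂ} {z1 : ℂ} (hz1 : z1 ≠ 0) {d : ℂ} (hd : HasDerivAt om d z1)
    (hle : ∀ z, ‖z‖ ≤ ‖z1‖ → ‖om z‖ ≤ ‖z‖) (heq : ‖om z1‖ = ‖z1‖) :
    ∃ m : ℝ, 1 ≤ m ∧ z1 * d = m * om z1 := by
  have hf1 : HasFDerivAt om ((ContinuousLinearMap.toSpanSingleton ℂ d : ℂ →L[ℂ] ℂ).restrictScalars ℝ) z1 :=
    hd.hasFDerivAt.restrictScalars ℝ
  have hf2 := hf1.norm_sq
  have hf3 := (hasFDerivAt_id (𝕜 := ℝ) z1).norm_sq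
  have hf4 := hf3.sub hf2
  have hb := bdry (u := fun z => ‖z‖ ^ 2 - ‖om z‖ ^ 2) hf4 (by
    intro z hz
    have := hle z hz
    have h2 := pow_le_pow_left₀ (norm_nonneg _) this 2
    show 0 ≤ ‖z‖ ^ 2 - ‖om z‖ ^ 2
    linarith) (by
    show ‖z1‖ ^ 2 - ‖om z1‖ ^ 2 = 0
    rw [heq]; ring)
  obtain ⟨h1, h2⟩ := hb
  have key : ∀ v : ℂ, (2 • (innerSL ℝ z1).comp (ContinuousLinearMap.id ℝ ℂ) -
      2 • (innerSL ℝ (om z1)).comp
        ((ContinuousLinearMap.toSpanSingleton ℂ d : ℂ →L[ℂ] ℂ).restrictScalars ℝ)) v =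
      2 * ((starRingEnd ℂ) z1 * v).re - 2 * ((starRingEnd ℂ) (om z1) * (v * d)).re := by
    intro v
    simp [Complex.inner, mul_comm]
    ring
  have h1' := h1
  have h2' := h2
  have k1 := key z1
  have k2 := key (I * z1)
  have r1 : 2 * ((starRingEnd ℂ) z1 * z1).re - 2 * ((starRingEnd ℂ) (om z1) * (z1 * d)).re ≤ 0 := by
    rw [← k1]; exact h1
  have r2 : 2 * ((starRingEnd ℂ) z1 * (I * z1)).re -
      2 * ((starRingEnd ℂ) (om z1) * (I * z1 * d)).re = 0 := by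
    rw [← k2]; exact h2
  have n1 : (starRingEnd ℂ) z1 * z1 = ((‖z1‖ ^ 2 : ℝ) : ℂ) := by
    rw [mul_comm, Complex.mul_conj, Complex.normSq_eq_norm_sq]
  have n2 : om z1 * (starRingEnd ℂ) (om z1) = ((‖z1‖ ^ 2 : ℝ) : ℂ) := by
    rw [Complex.mul_conj, Complex.normSq_eq_norm_sq, heq]
  set T : ℂ := (starRingEnd ℂ) (om z1) * (z1 * d) with hT
  have t1 : ‖z1‖ ^ 2 ≤ T.re := by
    rw [n1, Complex.ofReal_re] at r1
    linarith
  have t2 : T.im = 0 := by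
    have m1 : (starRingEnd ℂ) z1 * (I * z1) = I * ((starRingEnd ℂ) z1 * z1) := by ring
    have m2 : (starRingEnd ℂ) (om z1) * (I * z1 * d) = I * T := by rw [hT]; ring
    have m3 : (I * ((‖z1‖ ^ 2 : ℝ) : ℂ)).re = 0 := by
      rw [Complex.mul_re, Complex.ofReal_im, Complex.I_re]; ring
    have m4 : (I * T).re = -T.im := by
      rw [Complex.mul_re, Complex.I_re, Complex.I_im]; ring
    rw [m1, m2, n1, m3, m4] at r2
    linarith
  have hr : 0 < ‖z1‖ ^ 2 := by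
    have := norm_pos_iff.mpr hz1
    positivity
  refine ⟨T.re / ‖z1‖ ^ 2, ?_, ?_⟩
  · rw [le_div_iff₀ hr]; linarith
  · have t3 : T = (T.re : ℂ) := by
      apply Complex.ext
      · simp
      · simp [t2]
    have hr' : ((‖z1‖ ^ 2 : ℝ) : ℂ) ≠ 0 := by exact_mod_cast hr.ne'
    have t4 : om z1 * T = ((‖z1‖ ^ 2 : ℝ) : ℂ) * (z1 * d) := by
      rw [hT, ← mul_assoc, n2]
    rw [Complex.ofReal_div, div_mul_eq_mul_div, eq_div_iff hr', ← t3, mul_comm T, t4]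
    ring

end Pool.Agent.H802R2.AC
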