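import Pool.Agent.H802R2.AC7

set_option autoImplicit false

open Complex Metric Set Filter Topology

namespace Pool.Agent.H802R2.AC

theorem subord {β : ℝ} (hβ : 0 < β) {q0 : ℂ → ℂ} (h0 : QZ β q0) {p q : ℂ → ℂ} (hp : An p)
    (hq : An q) (hq0 : q 0 = 1)
    (hode : ∀ z ∈ ball (0:ℂ) 1, z * deriv q z = β * q z * (p z - q z)) {ρ : ℝ}
    (hρ1 : ρ < 1)
    (hb : ∀ z ∈ ball (0:ℂ) 1, ‖p z - 1‖ ≤ ρ * ‖z‖ * ‖p z + 1‖) :
    ∃ Φ : ℂ → ℂ, An Φ ∧ (∀ z ∈ ball (0:ℂ) 1, ‖Φ z‖ ≤ 1) ∧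
      ∀ z ∈ ball (0:ℂ) 1, q z = q0 (z * Φ z) := by
  set G : Set ℂ := q0 '' ball (0:ℂ) 1 with hG
  have hGo : IsOpen G := q_open hβ h0
  set om : ℂ → ℂ := fun z => qinv q0 (q z) with hom
  set U : Set ℂ := ball (0:ℂ) 1 ∩ q ⁻¹' G with hU
  have hqc : ContinuousOn q (ball (0:ℂ) 1) := DifferentiableOn.continuousOn hq
  have hUo : IsOpen U := hqc.isOpen_inter_preimage isOpen_ball hGo
  have hom0 : om 0 = 0 := by
    rw [hom]; simp only []
    rw [hq0, ← h0.zero, qinv_q hβ h0 zero_mem]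
  have h0U : (0:ℂ) ∈ U := ⟨zero_mem, by rw [mem_preimage, hq0, ← h0.zero]; exact ⟨0, zero_mem, rfl⟩⟩
  have homd : ∀ z ∈ U, HasDerivAt om ((deriv q0 (om z))⁻¹ * deriv q z) z := by
    intro z hz
    obtain ⟨w, hw, hwq⟩ := hz.2
    have h1 : om z = w := by rw [hom]; simp only []; rw [← hwq, qinv_q hβ h0 hw]
    have h2 := qinv_hasDerivAt hβ h0 hw
    rw [hwq] at h2
    rw [h1]
    exact h2.comp z (hq.hasDerivAt hz.1)
  have homU : DifferentiableOn ℂ om U := fun z hz => (homd z hz).differentiableAt.differentiableWithinAt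
  have hΦU : DifferentiableOn ℂ (dslope om 0) U := by
    rw [Complex.differentiableOn_dslope (hUo.mem_nhds h0U)]
    exact homU
  set B : Set ℂ := U ∩ (fun z => ‖dslope om 0 z‖) ⁻¹' Iio 1 with hB
  have hBo : IsOpen B := hΦU.continuousOn.norm.isOpen_inter_preimage hUo isOpen_Iio
  -- relation between om and dslope
  have hrel : ∀ z, om z = z * dslope om 0 z := by
    intro z
    have := dslope_eq (f := om) z
    rw [hom0, zero_add] at this
    exact this
  have hqom : ∀ z ∈ U, q z = q0 (om z) := by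
    intro z hz
    rw [hom]
    exact (q_qinv hz.2).symm
  -- the origin is good
  have h0B : (0:ℂ) ∈ B := by
    refine ⟨h0U, ?_⟩
    show ‖dslope om 0 0‖ < 1
    rw [dslope_same, (homd 0 h0U).deriv, hom0]
    obtain ⟨hp0, hd1⟩ := deriv_zero hβ hp hq hq0 hode
    obtain ⟨_, hd2⟩ := deriv_zero hβ hh_An h0.an h0.zero h0.ode
    rw [hh_deriv_zero] at hd2
    have hβ1 : (1 + (β:ℂ)) ≠ 0 := by
      have : (1 + β : ℝ) ≠ 0 := by positivity
      exact_mod_cast this
    have hβ0 : (β:ℂ) ≠ 0 := by exact_mod_cast hβ.ne'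
    have e1 : deriv q 0 = β * deriv p 0 / (1 + β) := by rw [eq_div_iff hβ1]; exact hd1
    have e2 : deriv q0 0 = β * 2 / (1 + β) := by rw [eq_div_iff hβ1]; exact hd2
    have e3 : (deriv q0 0)⁻¹ * deriv q 0 = deriv p 0 / 2 := by
      rw [e1, e2]; field_simp
    rw [e3, norm_div, Complex.norm_ofNat]
    have e4 : ‖deriv p 0‖ ≤ ρ * 2 := by
      have c1 : ContinuousAt (dslope p 0) 0 := (hp.dslope.differentiableAt zero_mem).continuousAt
      have c2 : ContinuousAt p 0 := (hp.differentiableAt zero_mem).continuousAt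
      have t1 : Tendsto (fun z => ‖dslope p 0 z‖) (𝓝[≠] 0) (𝓝 ‖deriv p 0‖) := by
        have := (c1.norm.tendsto).mono_left (nhdsWithin_le_nhds (s := {(0:ℂ)}ᶜ))
        rw [dslope_same] at this
        exact this
      have t2 : Tendsto (fun z => ρ * ‖p z + 1‖) (𝓝[≠] 0) (𝓝 (ρ * 2)) := by
        have h3 : ContinuousAt (fun z => ρ * ‖p z + 1‖) 0 :=
          continuousAt_const.mul (c2.add continuousAt_const).norm
        have := h3.tendsto.mono_left (nhdsWithin_le_nhds (s := {(0:ℂ)}ᶜ))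
        rw [hp0] at this
        have h4 : ‖(1:ℂ) + 1‖ = 2 := by norm_num
        rw [h4] at this
        exact this
      refine le_of_tendsto_of_tendsto t1 t2 ?_
      filter_upwards [self_mem_nhdsWithin,
        mem_nhdsWithin_of_mem_nhds (isOpen_ball.mem_nhds zero_mem)] with z hz1 hz2
      have hz1' : z ≠ 0 := hz1
      have h5 := hb z hz2
      have h6 := dslope_eq (f := p) z
      rw [hp0] at h6
      have h7 : ‖p z - 1‖ = ‖z‖ * ‖dslope p 0 z‖ := by
        rw [← norm_mul]; congr 1; linear_combination h6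
      rw [h7] at h5
      have h8 : 0 < ‖z‖ := norm_pos_iff.mpr hz1'
      have h9 : ‖z‖ * ‖dslope p 0 z‖ ≤ ‖z‖ * (ρ * ‖p z + 1‖) := by linarith
      exact le_of_mul_le_mul_left h9 h8
    linarith
  -- everything is good
  have hall : ball (0:ℂ) 1 ⊆ B := by
    by_contra hcon
    rw [not_subset] at hcon
    obtain ⟨zb, hzb, hzbB⟩ := hcon
    have hzbn := norm_of_mem hzb
    have hK : IsCompact (closedBall (0:ℂ) ‖zb‖ \ B) := (isCompact_closedBall _ _).diff hBo
    obtain ⟨z1, hz1, hmin⟩ := hK.exists_isMinOn ⟨zb, by simp, hzbB⟩ continuous_norm.continuousOn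
    have hz1n : ‖z1‖ ≤ ‖zb‖ := by simpa using hz1.1
    have hz1b : z1 ∈ ball (0:ℂ) 1 := mem_of_norm (by linarith)
    have hz10 : z1 ≠ 0 := by
      rintro rfl
      exact hz1.2 h0B
    have hgood : ∀ z, ‖z‖ < ‖z1‖ → z ∈ B := by
      intro z hz
      by_contra hzB
      have h1 : z ∈ closedBall (0:ℂ) ‖zb‖ \ B :=
        ⟨by rw [mem_closedBall_zero_iff]; linarith, hzB⟩
      have h2 := hmin h1
      simp only [mem_ofPred_eq] at h2
      linarith
    have himg : ∀ z, ‖z‖ ≤ ‖z1‖ → q z ∈ q0 '' closedBall (0:ℂ) ‖z‖ := by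
      intro z hz
      have hzb' : ‖z‖ < 1 := by linarith
      have hsub : closedBall (0:ℂ) ‖z‖ ⊆ ball (0:ℂ) 1 := closedBall_subset_ball hzb'
      have hcl : IsClosed (q0 '' closedBall (0:ℂ) ‖z‖) :=
        ((isCompact_closedBall (0:ℂ) ‖z‖).image_of_continuousOn
          ((DifferentiableOn.continuousOn h0.an).mono hsub)).isClosed
      have hcz : ContinuousAt q z := (hq.differentiableAt (mem_of_norm hzb')).continuousAt
      have ht : Tendsto (fun t : ℝ => q ((t : ℂ) * z)) (𝓝[<] 1) (𝓝 (q z)) := by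
        have h2 : Tendsto (fun t : ℝ => (t : ℂ) * z) (𝓝[<] 1) (𝓝 z) := by
          have : Continuous (fun t : ℝ => (t : ℂ) * z) := by fun_prop
          have h3 := this.tendsto 1
          simp only [ofReal_one, one_mul] at h3
          exact h3.mono_left nhdsWithin_le_nhds
        exact hcz.tendsto.comp h2
      refine hcl.mem_of_tendsto ht ?_
      filter_upwards [Ioo_mem_nhdsLT (show (0:ℝ) < 1 by norm_num)] with t ht
      have hn : ‖(t:ℂ) * z‖ = t * ‖z‖ := by
        rw [norm_mul, Complex.norm_real, Real.norm_of_nonneg ht.1.le]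
      have htB : (t:ℂ) * z ∈ B := by
        by_cases hz0 : z = 0
        · subst hz0; rw [mul_zero]; exact h0B
        · apply hgood
          have : 0 < ‖z‖ := norm_pos_iff.mpr hz0
          rw [hn]
          nlinarith [ht.2]
      refine ⟨om ((t:ℂ) * z), ?_, (hqom _ htB.1).symm⟩
      rw [mem_closedBall_zero_iff, hrel, norm_mul, hn]
      have h3 : ‖dslope om 0 ((t:ℂ) * z)‖ < 1 := htB.2
      have h4 : 0 ≤ t * ‖z‖ := mul_nonneg ht.1.le (norm_nonneg _)
      have h5 : t * ‖z‖ ≤ ‖z‖ := mul_le_of_le_one_left (norm_nonneg _) ht.2.le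
      nlinarith [norm_nonneg (dslope om 0 ((t:ℂ) * z))]
    have hle : ∀ z, ‖z‖ ≤ ‖z1‖ → ‖om z‖ ≤ ‖z‖ := by
      intro z hz
      obtain ⟨w, hw, hwq⟩ := himg z hz
      have hwn : ‖w‖ ≤ ‖z‖ := by simpa using hw
      have h1 : om z = w := by
        rw [hom]; simp only []
        rw [← hwq, qinv_q hβ h0 (mem_of_norm (by linarith))]
      rw [h1]; exact hwn
    have hz1U : z1 ∈ U := by
      refine ⟨hz1b, ?_⟩
      obtain ⟨w, hw, hwq⟩ := himg z1 le_rfl
      have hwn : ‖w‖ ≤ ‖z1‖ := by simpa using hw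
      exact ⟨w, mem_of_norm (by linarith), hwq⟩
    have hge : ‖z1‖ ≤ ‖om z1‖ := by
      have h1 : ¬ ‖dslope om 0 z1‖ < 1 := fun h => hz1.2 ⟨hz1U, h⟩
      push Not at h1
      rw [hrel, norm_mul]
      nlinarith [norm_nonneg z1]
    have heq : ‖om z1‖ = ‖z1‖ := le_antisymm (hle z1 le_rfl) hge
    obtain ⟨m, hm, hmz⟩ := jack hz10 (homd z1 hz1U) hle heq
    have hζb : om z1 ∈ ball (0:ℂ) 1 := mem_of_norm (by rw [heq]; linarith)
    have hζ0 : om z1 ≠ 0 := by
      rw [← norm_pos_iff, heq]; exact norm_pos_iff.mpr hz10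
    have hq1 := hqom z1 hz1U
    have hβ0 : (β:ℂ) ≠ 0 := by exact_mod_cast hβ.ne'
    have hqn := ne_zero_of_re (h0.re _ hζb)
    have hdn := q_deriv_ne hβ h0 hζb
    have hP : p z1 - q0 (om z1) = m * (hh (om z1) - q0 (om z1)) := by
      have e1 := hode z1 hz1b
      have e2 := h0.ode _ hζb
      have e3 : z1 * deriv q z1 = m * (om z1 * deriv q0 (om z1)) := by
        field_simp at hmz
        linear_combination hmz
      rw [e3, e2, hq1] at e1
      have e4 : (β * q0 (om z1)) * (p z1 - q0 (om z1)) =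
          (β * q0 (om z1)) * (m * (hh (om z1) - q0 (om z1))) := by linear_combination -e1
      exact mul_left_cancel₀ (mul_ne_zero hβ0 hqn) e4
    have hb1 := hb z1 hz1b
    rw [← heq] at hb1
    exact barrier hβ h0 hζb hζ0 hm hP hρ1 hb1
  refine ⟨dslope om 0, fun z hz => ?_, fun z hz => ?_, fun z hz => ?_⟩
  · exact (hΦU z (hall hz).1).mono_of_mem_nhdsWithin
      (mem_nhdsWithin_of_mem_nhds (hUo.mem_nhds (hall hz).1))
  · exact le_of_lt (hall hz).2
  · rw [← hrel]; exact hqom z (hall hz).1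

end Pool.Agent.H802R2.AC
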