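import Pool.Agent.H802R2.AC8

set_option autoImplicit false

open Complex Metric Set Filter Topology

namespace Pool.Agent.H802R2.AC

/-- Clunie type bound: square roots of starlike functions have coefficients bounded by one. -/
theorem half_bound {p S : ℂ → ℂ} (hp : An p) (hre : ∀ z ∈ ball (0:ℂ) 1, 0 < (p z).re) (hp0 : p 0 = 1)
    (hS : An S) (hS0 : S 0 = 1)
    (hode : ∀ z ∈ ball (0:ℂ) 1, z * deriv S z = (p z - 1) / 2 * S z) (k : ℕ) : ‖tc k S‖ ≤ 1 := by
  obtain ⟨Ψ, hΨ, hb, heq⟩ := carath_rep hp hre hp0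
  have hF : An (fun z => z * deriv S z + S z) := (An.id.mul hS.deriv).add hS
  have hFc : ∀ k, tc k (fun z => z * deriv S z + S z) = (k + 1) * tc k S := by
    intro k
    rw [tc_add (An.id.mul hS.deriv) hS, tc_zderiv hS]; ring
  have h1 : ∀ z ∈ ball (0:ℂ) 1, z * deriv S z = z * (Ψ z * (z * deriv S z + S z)) := by
    intro z hz
    have e1 := hode z hz
    have e2 := heq z hz
    rw [e2] at e1
    have e3 : p z + 1 = z * Ψ z * (p z + 1) + 2 := by linear_combination e2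
    have e4 : (p z + 1) * S z = 2 * (z * deriv S z + S z) := by
      rw [e1]; linear_combination (S z) * e3
    linear_combination e1 + (z * Ψ z / 2) * e4
  have h2 : ∀ k : ℕ, ((k:ℂ) + 1) * tc (k + 1) S =
      tc k (fun z => Ψ z * (z * deriv S z + S z)) := by
    intro k
    have := tc_congr (k + 1) h1
    rw [tc_zderiv hS, tc_zmul_succ (hΨ.mul hF)] at this
    rw [← this]; push_cast; ring
  induction k using Nat.strong_induction_on with
  | _ k ih =>
    cases k with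
    | zero => rw [tc_zero, hS0]; simp
    | succ m =>
      have hc := contract hΨ hF hb m
      have h5 : ∑ k ∈ Finset.range (m + 1), ‖tc k (fun z => Ψ z * (z * deriv S z + S z))‖ ^ 2 =
          (∑ k ∈ Finset.range m, ((k:ℝ) + 1) ^ 2 * ‖tc (k + 1) S‖ ^ 2) +
            ((m:ℝ) + 1) ^ 2 * ‖tc (m + 1) S‖ ^ 2 := by
        rw [Finset.sum_range_succ]
        have hn : ∀ k : ℕ, ‖tc k (fun z => Ψ z * (z * deriv S z + S z))‖ ^ 2 =
            ((k:ℝ) + 1) ^ 2 * ‖tc (k + 1) S‖ ^ 2 := by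
          intro k
          rw [← h2, norm_mul, mul_pow]
          congr 2
          have : ((k:ℂ) + 1) = ((k + 1 : ℝ) : ℂ) := by push_cast; ring
          rw [this, Complex.norm_real, Real.norm_of_nonneg (by positivity)]
        rw [hn m]
        congr 1
        exact Finset.sum_congr rfl fun k _ => hn k
      have h6 : ∑ k ∈ Finset.range (m + 1), ‖tc k (fun z => z * deriv S z + S z)‖ ^ 2 =
          ∑ k ∈ Finset.range (m + 1), ((k:ℝ) + 1) ^ 2 * ‖tc k S‖ ^ 2 := by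
        refine Finset.sum_congr rfl fun k _ => ?_
        rw [hFc, norm_mul, mul_pow]
        congr 2
        have : ((k:ℂ) + 1) = ((k + 1 : ℝ) : ℂ) := by push_cast; ring
        rw [this, Complex.norm_real, Real.norm_of_nonneg (by positivity)]
      rw [h5, h6] at hc
      -- shift
      have h7 : ∑ k ∈ Finset.range (m + 1), (k:ℝ) ^ 2 * ‖tc k S‖ ^ 2 =
          ∑ k ∈ Finset.range m, ((k:ℝ) + 1) ^ 2 * ‖tc (k + 1) S‖ ^ 2 := by
        rw [Finset.sum_range_succ']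
        push_cast
        simp
      have h8 : ∑ k ∈ Finset.range (m + 1), (((k:ℝ) + 1) ^ 2 - (k:ℝ) ^ 2) * ‖tc k S‖ ^ 2 ≤
          ∑ k ∈ Finset.range (m + 1), (((k:ℝ) + 1) ^ 2 - (k:ℝ) ^ 2) := by
        refine Finset.sum_le_sum fun k hk => ?_
        have h9 := ih k (by have := Finset.mem_range.mp hk; omega)
        have h10 : ‖tc k S‖ ^ 2 ≤ 1 := by nlinarith [norm_nonneg (tc k S)]
        have h11 : (0:ℝ) ≤ ((k:ℝ) + 1) ^ 2 - (k:ℝ) ^ 2 := by
          have : (0:ℝ) ≤ k := Nat.cast_nonneg k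
          nlinarith
        nlinarith
      have h12 : ∀ M : ℕ, ∑ k ∈ Finset.range M, (((k:ℝ) + 1) ^ 2 - (k:ℝ) ^ 2) = (M:ℝ) ^ 2 := by
        intro M
        induction M with
        | zero => simp
        | succ M ihM => rw [Finset.sum_range_succ, ihM]; push_cast; ring
      rw [h12] at h8
      have h13 : ∑ k ∈ Finset.range (m + 1), (((k:ℝ) + 1) ^ 2 - (k:ℝ) ^ 2) * ‖tc k S‖ ^ 2 =
          ∑ k ∈ Finset.range (m + 1), ((k:ℝ) + 1) ^ 2 * ‖tc k S‖ ^ 2 -
            ∑ k ∈ Finset.range (m + 1), (k:ℝ) ^ 2 * ‖tc k S‖ ^ 2 := by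
        rw [← Finset.sum_sub_distrib]
        exact Finset.sum_congr rfl fun k _ => by ring
      rw [h13, h7] at h8
      have h14 : ((m:ℝ) + 1) ^ 2 * ‖tc (m + 1) S‖ ^ 2 ≤ ((m:ℝ) + 1) ^ 2 * 1 := by
        push_cast at h8
        linarith
      have h15 : ‖tc (m + 1) S‖ ^ 2 ≤ 1 ^ 2 := by
        rw [one_pow]
        exact le_of_mul_le_mul_left h14 (by positivity)
      exact le_of_sq_le_sq h15 (by norm_num)

/-- If the coefficients of `S` are bounded by one then those of `S²Ψ` by `m+1`. -/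
theorem sq_bound {S Ψ : ℂ → ℂ} (hS : An S) (hb : ∀ k, ‖tc k S‖ ≤ 1) (hΨ : An Ψ)
    (hΨb : ∀ z ∈ ball (0:ℂ) 1, ‖Ψ z‖ ≤ 1) (m : ℕ) :
    ‖tc m (fun z => S z * (Ψ z * S z))‖ ≤ m + 1 := by
  rw [tc_mul hS (hΨ.mul hS)]
  have hc := contract hΨ hS hΨb m
  have h1 : ∑ k ∈ Finset.range (m + 1), ‖tc k S‖ ^ 2 ≤ m + 1 := by
    calc ∑ k ∈ Finset.range (m + 1), ‖tc k S‖ ^ 2 ≤ ∑ _k ∈ Finset.range (m + 1), (1:ℝ) := by
          refine Finset.sum_le_sum fun k _ => ?_
          have := hb k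
          nlinarith [norm_nonneg (tc k S)]
      _ = m + 1 := by simp
  have h2 : ∑ i ∈ Finset.range (m + 1), ‖tc (m - i) (fun z => Ψ z * S z)‖ ^ 2 =
      ∑ i ∈ Finset.range (m + 1), ‖tc i (fun z => Ψ z * S z)‖ ^ 2 :=
    Finset.sum_flip (fun i => ‖tc i (fun z => Ψ z * S z)‖ ^ 2)
  calc ‖∑ i ∈ Finset.range (m + 1), tc i S * tc (m - i) (fun z => Ψ z * S z)‖
      ≤ ∑ i ∈ Finset.range (m + 1), ‖tc i S * tc (m - i) (fun z => Ψ z * S z)‖ := norm_sum_le _ _
    _ ≤ ∑ i ∈ Finset.range (m + 1),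
        (‖tc i S‖ ^ 2 + ‖tc (m - i) (fun z => Ψ z * S z)‖ ^ 2) / 2 := by
        refine Finset.sum_le_sum fun i _ => ?_
        rw [norm_mul]
        nlinarith [sq_nonneg (‖tc i S‖ - ‖tc (m - i) (fun z => Ψ z * S z)‖)]
    _ ≤ m + 1 := by
        rw [← Finset.sum_div, Finset.sum_add_distrib, h2]
        linarith

/-- Nonnegative real coefficients. -/
def NN (R : ℂ → ℂ) : Prop := ∀ n, (tc n R).im = 0 ∧ 0 ≤ (tc n R).re

theorem An.comp_z {R Φ : ℂ → ℂ} (hR : An R) (hΦ : An Φ) (hΦb : ∀ z ∈ ball (0:ℂ) 1, ‖Φ z‖ ≤ 1) :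
    An (fun z => R (z * Φ z)) := by
  intro z hz
  have hm : z * Φ z ∈ ball (0:ℂ) 1 := by
    apply mem_of_norm
    rw [norm_mul]
    have h1 := hΦb z hz
    have h2 := norm_of_mem hz
    nlinarith [norm_nonneg z, norm_nonneg (Φ z)]
  exact ((hR.differentiableAt hm).comp z ((An.id.mul hΦ).differentiableAt hz)).differentiableWithinAt

/-- The coefficient estimate for `S² Ψ (R ∘ ω)`. -/
theorem comp_bound {S Φ : ℂ → ℂ} (hS : An S) (hb : ∀ k, ‖tc k S‖ ≤ 1) (hΦ : An Φ)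
    (hΦb : ∀ z ∈ ball (0:ℂ) 1, ‖Φ z‖ ≤ 1) (n : ℕ) : ∀ R Ψ : ℂ → ℂ, An R → NN R → An Ψ →
    (∀ z ∈ ball (0:ℂ) 1, ‖Ψ z‖ ≤ 1) →
    ‖tc n (fun z => S z * (Ψ z * S z) * R (z * Φ z))‖ ≤
      ∑ j ∈ Finset.range (n + 1), (tc j R).re * ((n:ℝ) - j + 1) := by
  induction n with
  | zero =>
    intro R Ψ hR hRn hΨ hΨb
    rw [tc_zero, Finset.sum_range_one, zero_mul]
    have h1 := sq_bound hS hb hΨ hΨb 0
    rw [tc_zero] at h1
    rw [norm_mul, tc_zero]
    have h2 : ‖R 0‖ = (R 0).re := by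
      have h3 := hRn 0
      rw [tc_zero] at h3
      have h4 : R 0 = ((R 0).re : ℂ) := by
        apply Complex.ext
        · simp
        · simp [h3.1]
      rw [h4, Complex.norm_real, Real.norm_of_nonneg h3.2, Complex.ofReal_re]
    rw [h2]
    have h3 := (hRn 0).2
    rw [tc_zero] at h3
    push_cast at h1 ⊢
    nlinarith
  | succ n ih =>
    intro R Ψ hR hRn hΨ hΨb
    have hSΨ : An (fun z => S z * (Ψ z * S z)) := hS.mul (hΨ.mul hS)
    have hR1 : An (dslope R 0) := hR.dslope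
    have hR1n : NN (dslope R 0) := fun k => by rw [tc_dslope hR]; exact hRn (k + 1)
    have hΨΦ : An (fun z => Ψ z * Φ z) := hΨ.mul hΦ
    have hΨΦb : ∀ z ∈ ball (0:ℂ) 1, ‖Ψ z * Φ z‖ ≤ 1 := by
      intro z hz
      rw [norm_mul]
      exact mul_le_one₀ (hΨb z hz) (norm_nonneg _) (hΦb z hz)
    have hI := ih (dslope R 0) (fun z => Ψ z * Φ z) hR1 hR1n hΨΦ hΨΦb
    have hX : An (fun z => S z * ((Ψ z * Φ z) * S z) * dslope R 0 (z * Φ z)) :=
      (hS.mul (hΨΦ.mul hS)).mul (hR1.comp_z hΦ hΦb)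
    have hsplit : tc (n + 1) (fun z => S z * (Ψ z * S z) * R (z * Φ z)) =
        R 0 * tc (n + 1) (fun z => S z * (Ψ z * S z)) +
        tc n (fun z => S z * ((Ψ z * Φ z) * S z) * dslope R 0 (z * Φ z)) := by
      rw [← tc_cmul, ← tc_zmul_succ hX, ← tc_add (hSΨ.cmul _) (An.id.mul hX)]
      apply tc_congr
      intro z _
      have := dslope_eq (f := R) (z * Φ z)
      rw [this]; ring
    rw [hsplit]
    have h1 := sq_bound hS hb hΨ hΨb (n + 1)
    have h2 : ‖R 0‖ = (tc 0 R).re := by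
      have h3 := hRn 0
      rw [tc_zero] at h3 ⊢
      have h4 : R 0 = ((R 0).re : ℂ) := by
        apply Complex.ext
        · simp
        · simp [h3.1]
      rw [h4, Complex.norm_real, Real.norm_of_nonneg h3.2, Complex.ofReal_re]
    have h5 : ∑ j ∈ Finset.range (n + 1 + 1), (tc j R).re * (((n + 1 : ℕ):ℝ) - j + 1) =
        (∑ j ∈ Finset.range (n + 1), (tc j (dslope R 0)).re * ((n:ℝ) - j + 1)) +
          (tc 0 R).re * ((n:ℝ) + 2) := by
      rw [Finset.sum_range_succ']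
      congr 1
      · refine Finset.sum_congr rfl fun j _ => ?_
        rw [tc_dslope hR]; push_cast; ring
      · push_cast; ring
    rw [h5]
    calc ‖R 0 * tc (n + 1) (fun z => S z * (Ψ z * S z)) +
        tc n (fun z => S z * ((Ψ z * Φ z) * S z) * dslope R 0 (z * Φ z))‖
        ≤ ‖R 0 * tc (n + 1) (fun z => S z * (Ψ z * S z))‖ +
          ‖tc n (fun z => S z * ((Ψ z * Φ z) * S z) * dslope R 0 (z * Φ z))‖ := norm_add_le _ _
      _ ≤ (tc 0 R).re * ((n:ℝ) + 2) +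
          ∑ j ∈ Finset.range (n + 1), (tc j (dslope R 0)).re * ((n:ℝ) - j + 1) := by
          refine add_le_add ?_ hI
          rw [norm_mul, h2]
          refine mul_le_mul_of_nonneg_left ?_ (hRn 0).2
          push_cast at h1
          linarith
      _ = _ := by ring

end Pool.Agent.H802R2.AC
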