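import Pool.Agent.H143R3.RZ5_FM
import Pool.Agent.H802R2.RZ5_FMC
import Pool.Agent.H116R2.RZ5_NM2

/-!
Project RZ5, task FM2 (unconditional form); `FMCs_proof` is the remaining hypothesis of FM4_of.
-/

set_option autoImplicit false

open Pool.Agent.H306R2.RZ

namespace Pool.Agent.H802R2.RZFM

theorem FMCs_proof : Pool.Agent.H143R3.FM.FMCs := by
  obtain ⟨C, hC, h⟩ := FMC
  refine ⟨C, hC, fun k t v L w B hk hv hL hw hB => h k v t L w B ?_ hv hL hw hB⟩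
  simpa [Finset.mem_insert, Finset.mem_singleton] using hk

theorem FM2 (ε : ℝ) (hε : 0 < ε) : ∃ (C : ℝ) (A : ℕ), 0 < C ∧ ∀ (K v : ℕ) (t L : ℝ)
    (w : ℝ → ℝ) (B : ℝ), 1 ≤ K → 1 ≤ v → 1 ≤ L → Wt 1 w → Bd A w B →
    ∑ k ∈ sqZ K, ‖NS k t v L w‖ ^ 2 ≤
      C * (1 + |t|) ^ A * B ^ 2 * (K : ℝ) ^ (1 + ε) * Real.exp (ε * L) :=
  Pool.Agent.H143R3.FM.FM2_of Pool.Agent.H116R2.RZ5NM.NM2 FMCs_proof ε hε

end Pool.Agent.H802R2.RZFM
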