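import Mathlib

/-! Conformal maps of the upper half-plane onto planes with two horizontal slits, and their
shears.  Level curves of the imaginary part. -/

open Complex Set Filter Topology

namespace Pool.Agent.H802R2

/-- the map `-C t^2 + B t + log t` -/
noncomputable def Phi (C B : ℝ) (t : ℂ) : ℂ := -(C : ℂ) * t ^ 2 + B * t + Complex.log t

/-- its derivative -/
noncomputable def dPhi (C B : ℝ) (t : ℂ) : ℂ := -2 * (C : ℂ) * t + B + 1 / t

theorem mem_slitPlane_of_im_pos {t : ℂ} (ht : 0 < t.im) : t ∈ slitPlane := by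
  rw [Complex.mem_slitPlane_iff]; right; exact ht.ne'

theorem hasDerivAt_Phi (C B : ℝ) {t : ℂ} (ht : t ∈ slitPlane) :
    HasDerivAt (Phi C B) (dPhi C B t) t := by
  have h1 : HasDerivAt (fun t : ℂ => -(C : ℂ) * t ^ 2) (-(C : ℂ) * (2 * t)) t := by
    simpa using (hasDerivAt_pow 2 t).const_mul (-(C : ℂ))
  have h2 : HasDerivAt (fun t : ℂ => (B : ℂ) * t) (B : ℂ) t := by
    simpa using (hasDerivAt_id t).const_mul (B : ℂ)
  have h3 := Complex.hasDerivAt_log ht
  have := (h1.add h2).add h3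
  refine this.congr_deriv ?_
  unfold dPhi
  rw [one_div]; ring

/-- imaginary part in real coordinates -/
noncomputable def V (C B a b : ℝ) : ℝ := -2 * C * a * b + B * b + Complex.arg (⟨a, b⟩ : ℂ)

/-- real part in real coordinates -/
noncomputable def U (C B a b : ℝ) : ℝ :=
  -C * (a ^ 2 - b ^ 2) + B * a + Real.log ‖(⟨a, b⟩ : ℂ)‖

theorem Phi_im (C B a b : ℝ) : (Phi C B ⟨a, b⟩).im = V C B a b := by
  unfold Phi V
  simp only [Complex.add_im, Complex.mul_im, Complex.log_im, Complex.neg_re, Complex.ofReal_re,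
    Complex.neg_im, Complex.ofReal_im, pow_two, Complex.mul_re]
  ring

theorem Phi_re (C B a b : ℝ) : (Phi C B ⟨a, b⟩).re = U C B a b := by
  unfold Phi U
  simp only [Complex.add_re, Complex.mul_im, Complex.log_re, Complex.neg_re, Complex.ofReal_re,
    Complex.neg_im, Complex.ofReal_im, pow_two, Complex.mul_re]
  ring

theorem dPhi_im (C B a b : ℝ) (hb : 0 < b) :
    (dPhi C B ⟨a, b⟩).im = -(2 * C * b + b / (a ^ 2 + b ^ 2)) := by
  unfold dPhi
  simp only [Complex.add_im, Complex.mul_im, Complex.neg_re, Complex.ofReal_re,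
    Complex.neg_im, Complex.ofReal_im, Complex.mul_re, one_div, Complex.inv_im, Complex.normSq_mk]
  have h0 : (0:ℝ) < a * a + b * b := by nlinarith [mul_pos hb hb, mul_self_nonneg a]
  have h0' : a * a + b * b ≠ 0 := h0.ne'
  have h1' : a ^ 2 + b ^ 2 ≠ 0 := by rw [pow_two, pow_two]; exact h0'
  simp
  field_simp
  ring

theorem dPhi_im_neg {C B a b : ℝ} (hC : 0 < C) (hb : 0 < b) : (dPhi C B ⟨a, b⟩).im < 0 := by
  rw [dPhi_im C B a b hb]
  have : 0 < b / (a ^ 2 + b ^ 2) := by positivity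
  have : 0 < 2 * C * b := by positivity
  linarith

theorem V_arg_nonneg (a : ℝ) {b : ℝ} (hb : 0 < b) : 0 < Complex.arg (⟨a, b⟩ : ℂ) := by
  have h1 : 0 ≤ Complex.arg (⟨a, b⟩ : ℂ) := by
    rw [Complex.arg_nonneg_iff]; exact hb.le
  rcases h1.lt_or_eq with h | h
  · exact h
  · exfalso
    have h2 := (Complex.arg_eq_zero_iff (z := (⟨a, b⟩ : ℂ))).1 h.symm
    simp at h2
    exact hb.ne' h2.2

theorem V_arg_lt (a : ℝ) {b : ℝ} (hb : 0 < b) : Complex.arg (⟨a, b⟩ : ℂ) < Real.pi := by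
  rcases (Complex.arg_le_pi (⟨a, b⟩ : ℂ)).lt_or_eq with h | h
  · exact h
  · exfalso
    have h2 := (Complex.arg_eq_pi_iff (z := (⟨a, b⟩ : ℂ))).1 h
    simp at h2
    exact hb.ne' h2.2

theorem V_strictAnti {C : ℝ} (B : ℝ) {b : ℝ} (hC : 0 < C) (hb : 0 < b) :
    StrictAnti (fun a => V C B a b) := by
  apply strictAnti_of_deriv_neg
  intro a
  have h1 : HasDerivAt (fun a : ℝ => ((⟨a, b⟩ : ℂ))) 1 a := by
    have : (fun a : ℝ => ((⟨a, b⟩ : ℂ))) = fun a : ℝ => (a : ℂ) + b * I := by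
      ext x; apply Complex.ext <;> simp
    rw [this]
    simpa using (Complex.ofRealCLM.hasDerivAt (x := a)).add_const (b * I)
  have h2 := (hasDerivAt_Phi C B (t := ⟨a, b⟩) (mem_slitPlane_of_im_pos hb)).comp a h1
  have h3 := Complex.imCLM.hasFDerivAt.comp_hasDerivAt a h2
  have h4 : (fun a => V C B a b) = (⇑Complex.imCLM ∘ (Phi C B ∘ fun a : ℝ => (⟨a, b⟩ : ℂ))) := by
    ext x; simp [Phi_im]
  rw [h4, h3.deriv]
  simpa using dPhi_im_neg (B := B) (a := a) hC hb

theorem V_continuousAt (C B : ℝ) (p : ℝ × ℝ) (hp : 0 < p.2) :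
    ContinuousAt (fun p : ℝ × ℝ => V C B p.1 p.2) p := by
  unfold V
  have h : ContinuousAt (fun p : ℝ × ℝ => Complex.arg (⟨p.1, p.2⟩ : ℂ)) p := by
    have h1 : ContinuousAt Complex.arg (⟨p.1, p.2⟩ : ℂ) :=
      Complex.continuousAt_arg (mem_slitPlane_of_im_pos hp)
    have h2 : Continuous (fun p : ℝ × ℝ => (⟨p.1, p.2⟩ : ℂ)) :=
      Complex.equivRealProdCLM.symm.continuous
    exact ContinuousAt.comp (f := fun p : ℝ × ℝ => (⟨p.1, p.2⟩ : ℂ)) h1 h2.continuousAt
  fun_prop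

theorem V_surj {C : ℝ} (B : ℝ) {b : ℝ} (hC : 0 < C) (hb : 0 < b) (y : ℝ) :
    ∃ a, V C B a b = y := by
  have hc : Continuous (fun a => V C B a b) := by
    rw [continuous_iff_continuousAt]
    intro a
    exact ContinuousAt.comp (f := fun a : ℝ => (a, b)) (V_continuousAt C B (a, b) hb)
      (by fun_prop)
  have h1 : Tendsto (fun a => V C B a b) atTop atBot := by
    have h0 : Tendsto (fun a : ℝ => -2 * C * b * a + (B * b + Real.pi)) atTop atBot := by
      apply tendsto_atBot_add_const_right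
      apply Tendsto.const_mul_atTop_of_neg _ tendsto_id
      have : 0 < C * b := by positivity
      linarith
    apply tendsto_atBot_mono _ h0
    intro a
    have := V_arg_lt a hb
    unfold V
    linarith
  have h2 : Tendsto (fun a => V C B a b) atBot atTop := by
    have h0 : Tendsto (fun a : ℝ => -2 * C * b * a + (B * b)) atBot atTop := by
      apply tendsto_atTop_add_const_right
      apply Tendsto.const_mul_atBot_of_neg _ tendsto_id
      have : 0 < C * b := by positivity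
      linarith
    apply tendsto_atTop_mono _ h0
    intro a
    have := V_arg_nonneg a hb
    unfold V
    linarith
  exact hc.surjective' h2 h1 y

open Classical in
/-- the abscissa of the point of height `b` on the level curve `Im Phi = y` -/
noncomputable def al (C B y b : ℝ) : ℝ :=
  if h : ∃ a, V C B a b = y then h.choose else 0

theorem V_al {C : ℝ} (B : ℝ) {b : ℝ} (hC : 0 < C) (hb : 0 < b) (y : ℝ) :
    V C B (al C B y b) b = y := by
  unfold al
  rw [dif_pos (V_surj B hC hb y)]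
  exact (V_surj B hC hb y).choose_spec

theorem al_eq {C B a b y : ℝ} (hC : 0 < C) (hb : 0 < b) (h : V C B a b = y) :
    al C B y b = a := by
  apply (V_strictAnti B hC hb).injective
  show V C B (al C B y b) b = V C B a b
  rw [V_al B hC hb y, h]

theorem lt_al {C B a b y : ℝ} (hC : 0 < C) (hb : 0 < b) (h : y < V C B a b) :
    a < al C B y b := by
  have := V_al B hC hb y
  rw [← (V_strictAnti B hC hb).lt_iff_gt]
  show V C B (al C B y b) b < V C B a b
  rw [this]; exact h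

theorem al_lt {C B a b y : ℝ} (hC : 0 < C) (hb : 0 < b) (h : V C B a b < y) :
    al C B y b < a := by
  have := V_al B hC hb y
  rw [← (V_strictAnti B hC hb).lt_iff_gt]
  show V C B a b < V C B (al C B y b) b
  rw [this]; exact h

theorem al_continuousAt {C B : ℝ} (hC : 0 < C) (q : ℝ × ℝ) (hq : 0 < q.2) :
    ContinuousAt (fun q : ℝ × ℝ => al C B q.1 q.2) q := by
  rw [Metric.continuousAt_iff']
  intro ε hε
  set a₀ := al C B q.1 q.2 with ha₀
  have hV := V_al B hC hq q.1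
  have h1 : V C B (a₀ + ε) q.2 < q.1 := by
    rw [← hV]; exact V_strictAnti B hC hq (by linarith)
  have h2 : q.1 < V C B (a₀ - ε) q.2 := by
    rw [← hV]; exact V_strictAnti B hC hq (by linarith)
  have c1 : ∀ c : ℝ, ContinuousAt (fun r : ℝ × ℝ => V C B c r.2) q := by
    intro c
    exact ContinuousAt.comp (f := fun r : ℝ × ℝ => (c, r.2)) (V_continuousAt C B (c, q.2) hq)
      (by fun_prop)
  have e1 : ∀ᶠ r : ℝ × ℝ in 𝓝 q, V C B (a₀ + ε) r.2 < r.1 :=
    (c1 _).eventually_lt continuousAt_fst h1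
  have e2 : ∀ᶠ r : ℝ × ℝ in 𝓝 q, r.1 < V C B (a₀ - ε) r.2 :=
    continuousAt_fst.eventually_lt (c1 _) h2
  have e3 : ∀ᶠ r : ℝ × ℝ in 𝓝 q, 0 < r.2 :=
    continuousAt_snd.eventually (lt_mem_nhds hq)
  filter_upwards [e1, e2, e3] with r h1 h2 h3
  have k1 := al_lt hC h3 h1
  have k2 := lt_al hC h3 h2
  rw [Real.dist_eq, abs_lt]
  constructor <;> linarith

/-- the curve of points of height `b` on the level curve -/
noncomputable def gam (C B y b : ℝ) : ℂ := ⟨al C B y b, b⟩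

theorem al_hasDerivAt {C B : ℝ} (hC : 0 < C) (y : ℝ) {b : ℝ} (hb : 0 < b) :
    HasDerivAt (fun b => al C B y b)
      (-(dPhi C B (gam C B y b)).re / (dPhi C B (gam C B y b)).im) b := by
  set t := gam C B y b with ht
  set p := (dPhi C B t).re with hp
  set q := (dPhi C B t).im with hq
  have hq0 : q ≠ 0 := (dPhi_im_neg hC hb).ne
  -- the map (a, b) ↦ (V a b, b)
  let f : ℝ × ℝ → ℝ × ℝ := fun r => (V C B r.1 r.2, r.2)
  let g : ℝ × ℝ → ℝ × ℝ := fun r => (al C B r.1 r.2, r.2)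
  let L : (ℝ × ℝ) ≃L[ℝ] (ℝ × ℝ) :=
    ContinuousLinearEquiv.equivOfInverse
      ((q • ContinuousLinearMap.fst ℝ ℝ ℝ + p • ContinuousLinearMap.snd ℝ ℝ ℝ).prod
        (ContinuousLinearMap.snd ℝ ℝ ℝ))
      ((q⁻¹ • ContinuousLinearMap.fst ℝ ℝ ℝ + (-(p / q)) • ContinuousLinearMap.snd ℝ ℝ ℝ).prod
        (ContinuousLinearMap.snd ℝ ℝ ℝ))
      (by
        rintro ⟨x, z⟩
        simp
        field_simp
        ring)
      (by
        rintro ⟨x, z⟩
        simp
        field_simp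
        ring)
  have hg : ContinuousAt g (y, b) := by
    apply ContinuousAt.prodMk
    · exact al_continuousAt hC (y, b) hb
    · exact continuousAt_snd
  have hf : HasFDerivAt f (L : (ℝ × ℝ) →L[ℝ] (ℝ × ℝ)) (g (y, b)) := by
    have h1 : HasFDerivAt (fun r : ℝ × ℝ => (⟨r.1, r.2⟩ : ℂ))
        (Complex.equivRealProdCLM.symm : (ℝ × ℝ) →L[ℝ] ℂ) (g (y, b)) :=
      Complex.equivRealProdCLM.symm.hasFDerivAt
    have h2 : HasDerivAt (Phi C B) (dPhi C B t) t :=
      hasDerivAt_Phi C B (mem_slitPlane_of_im_pos hb)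
    have h3 : HasFDerivAt (Phi C B)
        ((ContinuousLinearMap.toSpanSingleton ℂ (dPhi C B t)).restrictScalars ℝ) t :=
      h2.hasFDerivAt.restrictScalars ℝ
    have h4 := HasFDerivAt.comp (g := Phi C B) (f := fun r : ℝ × ℝ => (⟨r.1, r.2⟩ : ℂ))
      (g (y, b)) h3 h1
    have h5 := Complex.imCLM.hasFDerivAt.comp (g (y, b)) h4
    have h6 : (fun r : ℝ × ℝ => V C B r.1 r.2) =
        (⇑Complex.imCLM ∘ (Phi C B ∘ fun r : ℝ × ℝ => (⟨r.1, r.2⟩ : ℂ))) := by
      ext x; simp [Phi_im]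
    rw [← h6] at h5
    have h7 := HasFDerivAt.prodMk h5
      (hasFDerivAt_snd (𝕜 := ℝ) (E := ℝ) (F := ℝ) (p := g (y, b)))
    refine h7.congr_fderiv ?_
    ext <;> simp [L, hp, hq]
  have hfg : ∀ᶠ r in 𝓝 ((y, b) : ℝ × ℝ), f (g r) = r := by
    have e3 : ∀ᶠ r : ℝ × ℝ in 𝓝 ((y, b) : ℝ × ℝ), 0 < r.2 :=
      continuousAt_snd.eventually (lt_mem_nhds hb)
    filter_upwards [e3] with r hr
    show (V C B (al C B r.1 r.2) r.2, r.2) = r
    rw [V_al B hC hr]
  have key := HasFDerivAt.of_local_left_inverse hg hf hfg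
  have h8 : HasFDerivAt (fun r : ℝ × ℝ => al C B r.1 r.2)
      ((ContinuousLinearMap.fst ℝ ℝ ℝ).comp (L.symm : (ℝ × ℝ) →L[ℝ] (ℝ × ℝ))) (y, b) :=
    (ContinuousLinearMap.fst ℝ ℝ ℝ).hasFDerivAt.comp (y, b) key
  have h9 : HasDerivAt (fun b : ℝ => ((y, b) : ℝ × ℝ)) ((0, 1) : ℝ × ℝ) b :=
    (hasDerivAt_const b y).prodMk (hasDerivAt_id b)
  have h10 := HasFDerivAt.comp_hasDerivAt (l := fun r : ℝ × ℝ => al C B r.1 r.2) b h8 h9
  refine h10.congr_deriv ?_
  simp [L]
  ring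

theorem gam_im (C B y b : ℝ) : (gam C B y b).im = b := rfl

theorem gam_eq {C B : ℝ} (hC : 0 < C) {t : ℂ} (ht : 0 < t.im) :
    gam C B (Phi C B t).im t.im = t := by
  apply Complex.ext
  · show al C B (Phi C B t).im t.im = t.re
    apply al_eq hC ht
    rw [← Phi_im]
  · rfl

theorem Phi_gam_im {C : ℝ} (B : ℝ) {b : ℝ} (hC : 0 < C) (hb : 0 < b) (y : ℝ) :
    (Phi C B (gam C B y b)).im = y := by
  unfold gam
  rw [Phi_im, V_al B hC hb y]

theorem gam_hasDerivAt {C B : ℝ} (hC : 0 < C) (y : ℝ) {b : ℝ} (hb : 0 < b) :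
    HasDerivAt (gam C B y)
      (⟨-(dPhi C B (gam C B y b)).re / (dPhi C B (gam C B y b)).im, 1⟩ : ℂ) b := by
  have h1 := al_hasDerivAt (B := B) hC y hb
  have h2 : HasDerivAt (fun b : ℝ => b) 1 b := hasDerivAt_id b
  have h3 := h1.prodMk h2
  exact Complex.equivRealProdCLM.symm.hasFDerivAt.comp_hasDerivAt b h3

/-- the speed of the real part along the level curve -/
noncomputable def spd (C B y b : ℝ) : ℝ :=
  -((dPhi C B (gam C B y b)).re ^ 2 + (dPhi C B (gam C B y b)).im ^ 2) /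
    (dPhi C B (gam C B y b)).im

theorem spd_ge {C B : ℝ} (hC : 0 < C) (y : ℝ) {b : ℝ} (hb : 0 < b) :
    2 * C * b ≤ spd C B y b := by
  have h := dPhi_im C B (al C B y b) b hb
  have hneg := dPhi_im_neg (B := B) (a := al C B y b) hC hb
  unfold spd gam
  set p := (dPhi C B ⟨al C B y b, b⟩).re
  set q := (dPhi C B ⟨al C B y b, b⟩).im
  have h0 : 0 < b / ((al C B y b) ^ 2 + b ^ 2) := by positivity
  have h1 : -(p ^ 2 + q ^ 2) / q = p ^ 2 / (-q) + (-q) := by
    field_simp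
    ring
  rw [h1]
  have h2 : 0 ≤ p ^ 2 / (-q) := by
    apply div_nonneg (sq_nonneg _)
    linarith
  linarith

theorem re_comp_gam_hasDerivAt {C B : ℝ} (hC : 0 < C) (y : ℝ) {b : ℝ} (hb : 0 < b)
    {F P : ℂ → ℂ} (hF : ∀ t : ℂ, 0 < t.im → HasDerivAt F (dPhi C B t * P t) t) :
    HasDerivAt (fun b => (F (gam C B y b)).re)
      (spd C B y b * (P (gam C B y b)).re) b := by
  have h1 := gam_hasDerivAt (B := B) hC y hb
  have h2 := hF (gam C B y b) hb
  have h3 := HasDerivAt.comp b h2 h1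
  have h4 := Complex.reCLM.hasFDerivAt.comp_hasDerivAt b h3
  refine h4.congr_deriv ?_
  have hneg := dPhi_im_neg (B := B) (a := al C B y b) hC hb
  have hneg' : (dPhi C B (gam C B y b)).im ≠ 0 := hneg.ne
  unfold spd
  set d := dPhi C B (gam C B y b)
  simp only [Complex.reCLM_apply, Complex.mul_re, Complex.mul_im]
  field_simp
  ring

theorem W_sub_mono {C B : ℝ} (hC : 0 < C) (y : ℝ) {c₀ : ℝ}
    {F P : ℂ → ℂ} (hF : ∀ t : ℂ, 0 < t.im → HasDerivAt F (dPhi C B t * P t) t)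
    (hP : ∀ t : ℂ, 0 < t.im → c₀ ≤ (P t).re) :
    MonotoneOn (fun b => (F (gam C B y b)).re - c₀ * (Phi C B (gam C B y b)).re) (Ioi 0) := by
  have hd : ∀ b : ℝ, 0 < b → HasDerivAt
      (fun b => (F (gam C B y b)).re - c₀ * (Phi C B (gam C B y b)).re)
      (spd C B y b * (P (gam C B y b)).re - c₀ * (spd C B y b * 1)) b := by
    intro b hb
    have h1 := re_comp_gam_hasDerivAt hC y hb hF
    have h2 := re_comp_gam_hasDerivAt (F := Phi C B) (P := fun _ => 1) hC y hb
      (fun t ht => by simpa using hasDerivAt_Phi C B (mem_slitPlane_of_im_pos ht))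
    exact h1.sub (h2.const_mul c₀)
  apply monotoneOn_of_deriv_nonneg (convex_Ioi 0)
  · intro b hb
    exact (hd b hb).continuousAt.continuousWithinAt
  · intro b hb
    rw [interior_Ioi] at hb
    exact (hd b hb).differentiableAt.differentiableWithinAt
  · intro b hb
    rw [interior_Ioi] at hb
    rw [(hd b hb).deriv]
    have hb' : (0 : ℝ) < b := hb
    have h1 := spd_ge (B := B) hC y hb'
    have h2 := hP (gam C B y b) hb'
    have h3 : 0 < 2 * C * b := by positivity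
    nlinarith

theorem Z_sub_mono {C B : ℝ} (hC : 0 < C) (y : ℝ) :
    MonotoneOn (fun b => (Phi C B (gam C B y b)).re - C * b ^ 2) (Ioi 0) := by
  have hd : ∀ b : ℝ, 0 < b → HasDerivAt
      (fun b => (Phi C B (gam C B y b)).re - C * b ^ 2)
      (spd C B y b * 1 - C * (2 * b)) b := by
    intro b hb
    have h2 := re_comp_gam_hasDerivAt (F := Phi C B) (P := fun _ => 1) hC y hb
      (fun t ht => by simpa using hasDerivAt_Phi C B (mem_slitPlane_of_im_pos ht))
    have h3 : HasDerivAt (fun b : ℝ => C * b ^ 2) (C * (2 * b)) b := by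
      simpa using (hasDerivAt_pow 2 b).const_mul C
    exact h2.sub h3
  apply monotoneOn_of_deriv_nonneg (convex_Ioi 0)
  · intro b hb
    exact (hd b hb).continuousAt.continuousWithinAt
  · intro b hb
    rw [interior_Ioi] at hb
    exact (hd b hb).differentiableAt.differentiableWithinAt
  · intro b hb
    rw [interior_Ioi] at hb
    rw [(hd b hb).deriv]
    have hb' : (0 : ℝ) < b := hb
    have h1 := spd_ge (B := B) hC y hb'
    linarith

theorem W_strictMono {C B : ℝ} (hC : 0 < C) (y : ℝ) {c₀ : ℝ} (hc₀ : 0 < c₀)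
    {F P : ℂ → ℂ} (hF : ∀ t : ℂ, 0 < t.im → HasDerivAt F (dPhi C B t * P t) t)
    (hP : ∀ t : ℂ, 0 < t.im → c₀ ≤ (P t).re) :
    StrictMonoOn (fun b => (F (gam C B y b)).re) (Ioi 0) := by
  intro b hb b' hb' hbb'
  have h1 := W_sub_mono hC y hF hP hb hb' hbb'.le
  have h2 := Z_sub_mono (B := B) hC y hb hb' hbb'.le
  simp only at h1 h2 ⊢
  have hb0 : (0:ℝ) < b := hb
  have h3 : C * b ^ 2 < C * b' ^ 2 := by
    apply mul_lt_mul_of_pos_left _ hC
    nlinarith
  nlinarith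

theorem W_continuousOn {C B : ℝ} (hC : 0 < C) (y : ℝ)
    {F P : ℂ → ℂ} (hF : ∀ t : ℂ, 0 < t.im → HasDerivAt F (dPhi C B t * P t) t) :
    ContinuousOn (fun b => (F (gam C B y b)).re) (Ioi 0) := by
  intro b hb
  exact (re_comp_gam_hasDerivAt hC y hb hF).continuousAt.continuousWithinAt

theorem W_exists_gt {C B : ℝ} (hC : 0 < C) (y : ℝ) {c₀ : ℝ} (hc₀ : 0 < c₀)
    {F P : ℂ → ℂ} (hF : ∀ t : ℂ, 0 < t.im → HasDerivAt F (dPhi C B t * P t) t)
    (hP : ∀ t : ℂ, 0 < t.im → c₀ ≤ (P t).re) (X : ℝ) :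
    ∃ b, 0 < b ∧ X < (F (gam C B y b)).re := by
  set K := X - (F (gam C B y 1)).re with hK
  obtain ⟨b, hb1, hb2⟩ : ∃ b : ℝ, 1 ≤ b ∧ K < c₀ * C * (b ^ 2 - 1) := by
    refine ⟨|K| / (c₀ * C) + 2, ?_, ?_⟩
    · have : 0 ≤ |K| / (c₀ * C) := by positivity
      linarith
    · have h0 : 0 ≤ |K| / (c₀ * C) := by positivity
      set s := |K| / (c₀ * C) with hs
      have h1 : c₀ * C * s = |K| := by
        rw [hs]; field_simp
      have h2 : K ≤ |K| := le_abs_self K
      have h3 : 0 < c₀ * C := by positivity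
      have h4 : c₀ * C * ((s + 2) ^ 2 - 1) = c₀ * C * s * s + 4 * (c₀ * C * s) + 3 * (c₀ * C) := by
        ring
      rw [h4, h1]
      have : 0 ≤ |K| * s := by positivity
      nlinarith [abs_nonneg K]
  refine ⟨b, by linarith, ?_⟩
  have hb : b ∈ Ioi (0:ℝ) := by show (0:ℝ) < b; linarith
  have h1 := W_sub_mono hC y hF hP (show (1:ℝ) ∈ Ioi (0:ℝ) by simp) hb hb1
  have h2 := Z_sub_mono (B := B) hC y (show (1:ℝ) ∈ Ioi (0:ℝ) by simp) hb hb1
  simp only at h1 h2
  have h3 : c₀ * (C * b ^ 2 - C) ≤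
      c₀ * ((Phi C B (gam C B y b)).re - (Phi C B (gam C B y 1)).re) := by
    apply mul_le_mul_of_nonneg_left _ hc₀.le
    linarith
  nlinarith

end Pool.Agent.H802R2
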