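import Pool.Agent.H802R2.SlitCore

/-! Behaviour of the level curves near the real axis and the image of a sheared slit map. -/

open Complex Set Filter Topology

namespace Pool.Agent.H802R2

theorem arg_lt_div {a b : ℝ} (ha : 0 < a) (hb : 0 < b) : Complex.arg (⟨a, b⟩ : ℂ) < b / a := by
  have h0 := V_arg_nonneg a hb
  have h1 : Complex.arg (⟨a, b⟩ : ℂ) < Real.pi / 2 := by
    rw [Complex.arg_lt_pi_div_two_iff]; left; exact ha
  have h2 := Real.lt_tan h0 h1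
  rw [Complex.tan_arg] at h2
  exact h2

theorem le_arg {a b : ℝ} (ha : 0 < a) (hb : 0 < b) :
    b * (a / (a ^ 2 + b ^ 2)) ≤ Complex.arg (⟨a, b⟩ : ℂ) := by
  have h0 := V_arg_nonneg a hb
  set θ := Complex.arg (⟨a, b⟩ : ℂ) with hθ
  have hne : (⟨a, b⟩ : ℂ) ≠ 0 := by
    intro h
    have := congrArg Complex.im h
    simp at this
    exact hb.ne' this
  have h1 : Real.sin θ = b / ‖(⟨a, b⟩ : ℂ)‖ := Complex.sin_arg _
  have h2 : Real.cos θ = a / ‖(⟨a, b⟩ : ℂ)‖ := Complex.cos_arg hne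
  have h3 : ‖(⟨a, b⟩ : ℂ)‖ ^ 2 = a ^ 2 + b ^ 2 := by
    rw [← Complex.normSq_eq_norm_sq, Complex.normSq_mk]; ring
  have h4 : b * (a / (a ^ 2 + b ^ 2)) = Real.sin θ * Real.cos θ := by
    rw [h1, h2, ← h3]
    have : ‖(⟨a, b⟩ : ℂ)‖ ≠ 0 := by simpa using hne
    field_simp
  rw [h4]
  have h5 : Real.sin θ ≤ θ := Real.sin_le h0.le
  have h6 : Real.cos θ ≤ 1 := Real.cos_le_one θ
  have h7 : 0 ≤ Real.sin θ := by rw [h1]; positivity
  have h8 : 0 ≤ Real.cos θ := by rw [h2]; positivity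
  nlinarith

theorem arg_neg_left (a : ℝ) {b : ℝ} (hb : 0 < b) :
    Complex.arg (⟨-a, b⟩ : ℂ) = Real.pi - Complex.arg (⟨a, b⟩ : ℂ) := by
  have h1 : (⟨-a, b⟩ : ℂ) = -((starRingEnd ℂ) ⟨a, b⟩) := by
    apply Complex.ext <;> simp
  rw [h1, Complex.arg_neg_eq_arg_add_pi_of_im_neg (by simpa using hb), Complex.arg_conj,
    if_neg (V_arg_lt a hb).ne]
  ring

theorem V_lt_of_pos (C B : ℝ) {a b : ℝ} (ha : 0 < a) (hb : 0 < b) :
    V C B a b < b * (B - 2 * C * a + 1 / a) := by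
  have := arg_lt_div ha hb
  unfold V
  have h : b * (B - 2 * C * a + 1 / a) = -2 * C * a * b + B * b + b / a := by
    field_simp; ring
  rw [h]; linarith

theorem le_V_of_pos (C B : ℝ) {a b : ℝ} (ha : 0 < a) (hb : 0 < b) :
    b * (B - 2 * C * a + a / (a ^ 2 + b ^ 2)) ≤ V C B a b := by
  have := le_arg ha hb
  unfold V
  have h : b * (B - 2 * C * a + a / (a ^ 2 + b ^ 2)) =
    -2 * C * a * b + B * b + b * (a / (a ^ 2 + b ^ 2)) := by ring
  rw [h]; linarith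

theorem lt_V_of_neg (C B : ℝ) {a b : ℝ} (ha : a < 0) (hb : 0 < b) :
    Real.pi + b * (B - 2 * C * a + 1 / a) < V C B a b := by
  have h1 := arg_lt_div (neg_pos.2 ha) hb
  have h2 := arg_neg_left a hb
  rw [h2] at h1
  unfold V
  have h : b * (B - 2 * C * a + 1 / a) = -2 * C * a * b + B * b - b / (-a) := by
    have : a ≠ 0 := ha.ne
    field_simp; ring
  rw [h]; linarith

theorem V_le_of_neg (C B : ℝ) {a b : ℝ} (ha : a < 0) (hb : 0 < b) :
    V C B a b ≤ Real.pi + b * (B - 2 * C * a + a / (a ^ 2 + b ^ 2)) := by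
  have h1 := le_arg (neg_pos.2 ha) hb
  have h2 := arg_neg_left a hb
  rw [h2] at h1
  unfold V
  have h : b * (B - 2 * C * a + a / (a ^ 2 + b ^ 2)) =
    -2 * C * a * b + B * b - b * (-a / ((-a) ^ 2 + b ^ 2)) := by
    rw [neg_sq]; ring
  rw [h]; linarith

theorem al_tendsto_zero_level {C B t₂ : ℝ} (hC : 0 < C) (ht : 0 < t₂)
    (hcrit : -2 * C * t₂ + B + 1 / t₂ = 0) :
    Tendsto (fun b => al C B 0 b) (𝓝[>] 0) (𝓝 t₂) := by
  rw [tendsto_order]
  constructor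
  · intro a' ha'
    set a := max a' (t₂ / 2) with ha
    have ha0 : 0 < a := lt_of_lt_of_le (by linarith) (le_max_right _ _)
    have hat : a < t₂ := max_lt ha' (by linarith)
    have hpos : 0 < B - 2 * C * a + 1 / a := by
      have h1 : 1 / t₂ < 1 / a := one_div_lt_one_div_of_lt ha0 hat
      have h2 : C * a < C * t₂ := mul_lt_mul_of_pos_left hat hC
      nlinarith
    have hc : ContinuousAt (fun b : ℝ => B - 2 * C * a + a / (a ^ 2 + b ^ 2)) 0 := by
      have : a ^ 2 + (0:ℝ) ^ 2 ≠ 0 := by positivity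
      fun_prop (disch := exact this)
    have hev : ∀ᶠ b : ℝ in 𝓝 (0:ℝ), 0 < B - 2 * C * a + a / (a ^ 2 + b ^ 2) := by
      apply hc.eventually (lt_mem_nhds _)
      have : a / (a ^ 2 + (0:ℝ) ^ 2) = 1 / a := by field_simp; ring
      show 0 < B - 2 * C * a + a / (a ^ 2 + (0:ℝ) ^ 2)
      rw [this]; exact hpos
    filter_upwards [nhdsWithin_le_nhds hev, self_mem_nhdsWithin] with b h1 hb
    have hb' : (0:ℝ) < b := hb
    refine lt_of_le_of_lt (le_max_left a' (t₂ / 2)) (lt_al hC hb' ?_)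
    have := le_V_of_pos C B ha0 hb'
    have h3 : 0 < b * (B - 2 * C * a + a / (a ^ 2 + b ^ 2)) := mul_pos hb' h1
    linarith
  · intro a ha
    filter_upwards [self_mem_nhdsWithin] with b hb
    have hb' : (0:ℝ) < b := hb
    have ha0 : 0 < a := ht.trans ha
    apply al_lt hC hb'
    have h1 := V_lt_of_pos C B ha0 hb'
    have h2 : B - 2 * C * a + 1 / a < 0 := by
      have h1 : 1 / a < 1 / t₂ := one_div_lt_one_div_of_lt ht ha
      have h2 : C * t₂ < C * a := mul_lt_mul_of_pos_left ha hC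
      nlinarith
    have h3 : b * (B - 2 * C * a + 1 / a) < 0 := mul_neg_of_pos_of_neg hb' h2
    linarith

theorem al_tendsto_pi_level {C B t₁ : ℝ} (hC : 0 < C) (ht : t₁ < 0)
    (hcrit : -2 * C * t₁ + B + 1 / t₁ = 0) :
    Tendsto (fun b => al C B Real.pi b) (𝓝[>] 0) (𝓝 t₁) := by
  rw [tendsto_order]
  constructor
  · intro a ha
    filter_upwards [self_mem_nhdsWithin] with b hb
    have hb' : (0:ℝ) < b := hb
    have ha0 : a < 0 := ha.trans ht
    apply lt_al hC hb'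
    have h1 := lt_V_of_neg C B ha0 hb'
    have h2 : 0 < B - 2 * C * a + 1 / a := by
      have h1 : 1 / t₁ < 1 / a := one_div_lt_one_div_of_neg_of_lt ht ha
      have h2 : C * a < C * t₁ := mul_lt_mul_of_pos_left ha hC
      nlinarith
    have h3 : 0 < b * (B - 2 * C * a + 1 / a) := mul_pos hb' h2
    linarith
  · intro a' ha'
    set a := min a' (t₁ / 2) with ha
    have ha0 : a < 0 := lt_of_le_of_lt (min_le_right _ _) (by linarith)
    have hat : t₁ < a := lt_min ha' (by linarith)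
    have hneg : B - 2 * C * a + 1 / a < 0 := by
      have h1 : 1 / a < 1 / t₁ := one_div_lt_one_div_of_neg_of_lt ha0 hat
      have h2 : C * t₁ < C * a := mul_lt_mul_of_pos_left hat hC
      nlinarith
    have hc : ContinuousAt (fun b : ℝ => B - 2 * C * a + a / (a ^ 2 + b ^ 2)) 0 := by
      have : a ^ 2 + (0:ℝ) ^ 2 ≠ 0 := by
        have : 0 < a ^ 2 := by nlinarith
        positivity
      fun_prop (disch := exact this)
    have hev : ∀ᶠ b : ℝ in 𝓝 (0:ℝ), B - 2 * C * a + a / (a ^ 2 + b ^ 2) < 0 := by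
      apply hc.eventually (gt_mem_nhds _)
      have : a / (a ^ 2 + (0:ℝ) ^ 2) = 1 / a := by
        have : a ≠ 0 := ha0.ne
        field_simp; ring
      show B - 2 * C * a + a / (a ^ 2 + (0:ℝ) ^ 2) < 0
      rw [this]; exact hneg
    filter_upwards [nhdsWithin_le_nhds hev, self_mem_nhdsWithin] with b h1 hb
    have hb' : (0:ℝ) < b := hb
    refine lt_of_lt_of_le (al_lt hC hb' ?_) (min_le_left a' (t₁ / 2))
    have := V_le_of_neg C B ha0 hb'
    have h3 : b * (B - 2 * C * a + a / (a ^ 2 + b ^ 2)) < 0 := mul_neg_of_pos_of_neg hb' h1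
    linarith

theorem al_tendsto_mid_level {C B y : ℝ} (hC : 0 < C) (hy : 0 < y) (hy' : y < Real.pi) :
    Tendsto (fun b => al C B y b) (𝓝[>] 0) (𝓝 0) := by
  rw [tendsto_order]
  constructor
  · intro a ha
    have hc : ContinuousAt (fun b : ℝ => Real.pi + b * (B - 2 * C * a + 1 / a)) 0 := by
      fun_prop
    have hev : ∀ᶠ b : ℝ in 𝓝 (0:ℝ), y < Real.pi + b * (B - 2 * C * a + 1 / a) := by
      apply hc.eventually (lt_mem_nhds _)
      simpa using hy'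
    filter_upwards [nhdsWithin_le_nhds hev, self_mem_nhdsWithin] with b h1 hb
    have hb' : (0:ℝ) < b := hb
    exact lt_al hC hb' (h1.trans (lt_V_of_neg C B ha hb'))
  · intro a ha
    have hc : ContinuousAt (fun b : ℝ => b * (B - 2 * C * a + 1 / a)) 0 := by
      fun_prop
    have hev : ∀ᶠ b : ℝ in 𝓝 (0:ℝ), b * (B - 2 * C * a + 1 / a) < y := by
      apply hc.eventually (gt_mem_nhds _)
      simpa using hy
    filter_upwards [nhdsWithin_le_nhds hev, self_mem_nhdsWithin] with b h1 hb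
    have hb' : (0:ℝ) < b := hb
    exact al_lt hC hb' ((V_lt_of_pos C B ha hb').trans h1)

theorem U_tendsto_mid {C B y : ℝ} (hC : 0 < C) (hy : 0 < y) (hy' : y < Real.pi) :
    Tendsto (fun b => U C B (al C B y b) b) (𝓝[>] 0) atBot := by
  have h1 := al_tendsto_mid_level (B := B) hC hy hy'
  have hb0 : Tendsto (fun b : ℝ => b) (𝓝[>] 0) (𝓝 0) := tendsto_nhdsWithin_of_tendsto_nhds tendsto_id
  have h2 : Tendsto (fun b : ℝ => -C * ((al C B y b) ^ 2 - b ^ 2) + B * al C B y b) (𝓝[>] 0)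
      (𝓝 (-C * ((0:ℝ) ^ 2 - 0 ^ 2) + B * 0)) :=
    (((h1.pow 2).sub (hb0.pow 2)).const_mul (-C)).add (h1.const_mul B)
  have h3 : Tendsto (fun b : ℝ => ‖(⟨al C B y b, b⟩ : ℂ)‖) (𝓝[>] 0) (𝓝[>] 0) := by
    apply tendsto_nhdsWithin_of_tendsto_nhds_of_eventually_within
    · have h4 : Continuous (fun p : ℝ × ℝ => ‖(⟨p.1, p.2⟩ : ℂ)‖) :=
        continuous_norm.comp Complex.equivRealProdCLM.symm.continuous
      have h5 := (h4.tendsto (0, 0)).comp (h1.prodMk_nhds hb0)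
      have h6 : ‖((⟨(0, 0).1, (0, 0).2⟩ : ℂ))‖ = (0 : ℝ) := by
        have : ((⟨((0:ℝ), (0:ℝ)).1, ((0:ℝ), (0:ℝ)).2⟩ : ℂ)) = 0 := rfl
        rw [this, norm_zero]
      rw [h6] at h5
      exact h5
    · filter_upwards [self_mem_nhdsWithin] with b hb
      have hb' : (0:ℝ) < b := hb
      show 0 < ‖(⟨al C B y b, b⟩ : ℂ)‖
      rw [norm_pos_iff]
      intro h
      have := congrArg Complex.im h
      simp at this
      exact hb'.ne' this
  have h4 := Real.tendsto_log_nhdsGT_zero.comp h3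
  exact h2.add_atBot h4

theorem U_le (C B a b : ℝ) (hC : 0 < C) (hb : 0 < b) (hb1 : b ≤ 1) :
    U C B a b ≤ -C * a ^ 2 + (|B| + 1) * |a| + (C + 1) := by
  unfold U
  have h1 : Real.log ‖(⟨a, b⟩ : ℂ)‖ ≤ |a| + b := by
    have hn : 0 < ‖(⟨a, b⟩ : ℂ)‖ := by
      rw [norm_pos_iff]
      intro h
      have := congrArg Complex.im h
      simp at this
      exact hb.ne' this
    have h2 := Real.log_le_sub_one_of_pos hn
    have h3 : ‖(⟨a, b⟩ : ℂ)‖ ≤ |a| + |b| := Complex.norm_le_abs_re_add_abs_im _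
    rw [abs_of_pos hb] at h3
    linarith
  have h2 : B * a ≤ |B| * |a| := by
    rw [← abs_mul]; exact le_abs_self _
  have h3 : C * b ^ 2 ≤ C := by
    have : b ^ 2 ≤ 1 := by nlinarith
    nlinarith
  nlinarith

theorem quad_tendsto (C K L : ℝ) (hC : 0 < C) :
    Tendsto (fun x : ℝ => -C * x ^ 2 + K * x + L) atTop atBot := by
  have h1 : Tendsto (fun x : ℝ => -C * x + K) atTop atBot := by
    apply tendsto_atBot_add_const_right
    exact Tendsto.const_mul_atTop_of_neg (by linarith) tendsto_id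
  have h2 : Tendsto (fun x : ℝ => x * (-C * x + K)) atTop atBot :=
    tendsto_id.atTop_mul_atBot₀ h1
  have h3 := tendsto_atBot_add_const_right atTop L h2
  refine h3.congr ?_
  intro x; ring

theorem U_tendsto_of_abs {C B y : ℝ} (hC : 0 < C)
    (h : Tendsto (fun b => |al C B y b|) (𝓝[>] 0) atTop) :
    Tendsto (fun b => U C B (al C B y b) b) (𝓝[>] 0) atBot := by
  have h1 := (quad_tendsto C (|B| + 1) (C + 1) hC).comp h
  apply tendsto_atBot_mono' _ _ h1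
  have : ∀ᶠ b : ℝ in 𝓝[>] 0, b ≤ 1 := by
    apply nhdsWithin_le_nhds
    exact (ge_mem_nhds (by norm_num))
  filter_upwards [this, self_mem_nhdsWithin] with b hb1 hb
  have hb' : (0:ℝ) < b := hb
  have := U_le C B (al C B y b) b hC hb' hb1
  simp only [Function.comp_apply, sq_abs]
  exact this

theorem al_tendsto_below {C B y : ℝ} (hC : 0 < C) (hy : y < 0) :
    Tendsto (fun b => al C B y b) (𝓝[>] 0) atTop := by
  have h0 : Tendsto (fun b : ℝ => (B + (-y) * b⁻¹) * (2 * C)⁻¹) (𝓝[>] 0) atTop := by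
    apply Tendsto.atTop_mul_const (by positivity)
    apply tendsto_atTop_add_const_left
    exact Tendsto.const_mul_atTop (by linarith) tendsto_inv_nhdsGT_zero
  apply tendsto_atTop_mono' _ _ h0
  filter_upwards [self_mem_nhdsWithin] with b hb
  have hb' : (0:ℝ) < b := hb
  have h1 := V_al B hC hb' y
  have h2 := V_arg_nonneg (al C B y b) hb'
  unfold V at h1
  set a := al C B y b
  have h3 : b * (B - 2 * C * a) < y := by nlinarith
  have h4 : B + (-y) * b⁻¹ < 2 * C * a := by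
    have h5 : b * (B + (-y) * b⁻¹) = b * B - y := by field_simp; ring
    have h6 : b * (B + (-y) * b⁻¹) < b * (2 * C * a) := by rw [h5]; linarith
    exact lt_of_mul_lt_mul_left h6 hb'.le
  have h7 : (B + (-y) * b⁻¹) * (2 * C)⁻¹ ≤ (2 * C * a) * (2 * C)⁻¹ :=
    mul_le_mul_of_nonneg_right h4.le (by positivity)
  have h8 : (2 * C * a) * (2 * C)⁻¹ = a := by field_simp
  linarith

theorem al_tendsto_above {C B y : ℝ} (hC : 0 < C) (hy : Real.pi < y) :
    Tendsto (fun b => al C B y b) (𝓝[>] 0) atBot := by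
  have h0 : Tendsto (fun b : ℝ => (B + (-(y - Real.pi)) * b⁻¹) * (2 * C)⁻¹) (𝓝[>] 0) atBot := by
    apply Tendsto.atBot_mul_const (by positivity)
    apply tendsto_atBot_add_const_left
    exact Tendsto.const_mul_atTop_of_neg (by linarith) tendsto_inv_nhdsGT_zero
  apply tendsto_atBot_mono' _ _ h0
  filter_upwards [self_mem_nhdsWithin] with b hb
  have hb' : (0:ℝ) < b := hb
  have h1 := V_al B hC hb' y
  have h2 := V_arg_lt (al C B y b) hb'
  unfold V at h1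
  set a := al C B y b
  have h3 : y - Real.pi < b * (B - 2 * C * a) := by nlinarith
  have h4 : 2 * C * a < B + (-(y - Real.pi)) * b⁻¹ := by
    have h5 : b * (B + (-(y - Real.pi)) * b⁻¹) = b * B - (y - Real.pi) := by field_simp; ring
    have h6 : b * (2 * C * a) < b * (B + (-(y - Real.pi)) * b⁻¹) := by rw [h5]; linarith
    exact lt_of_mul_lt_mul_left h6 hb'.le
  have h7 : (2 * C * a) * (2 * C)⁻¹ ≤ (B + (-(y - Real.pi)) * b⁻¹) * (2 * C)⁻¹ :=
    mul_le_mul_of_nonneg_right h4.le (by positivity)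
  have h8 : (2 * C * a) * (2 * C)⁻¹ = a := by field_simp
  linarith

theorem U_tendsto_generic {C B y : ℝ} (hC : 0 < C) (hy0 : y ≠ 0) (hy1 : y ≠ Real.pi) :
    Tendsto (fun b => U C B (al C B y b) b) (𝓝[>] 0) atBot := by
  rcases lt_or_gt_of_ne hy0 with h | h
  · exact U_tendsto_of_abs hC (tendsto_abs_atTop_atTop.comp (al_tendsto_below hC h))
  · rcases lt_or_gt_of_ne hy1 with h' | h'
    · exact U_tendsto_mid hC h h'
    · exact U_tendsto_of_abs hC (tendsto_abs_atBot_atTop.comp (al_tendsto_above hC h'))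

/-- the plane minus the two half-lines `{x ≤ α₁, y = π}` and `{x ≤ α₂, y = 0}` -/
def slitDom (α₁ α₂ : ℝ) : Set ℂ :=
  {w | (w.im = Real.pi → α₁ < w.re) ∧ (w.im = 0 → α₂ < w.re)}

theorem W_exists_lt_generic {C B y : ℝ} (hC : 0 < C) (hy0 : y ≠ 0) (hy1 : y ≠ Real.pi)
    {c₀ : ℝ} (hc₀ : 0 < c₀)
    {F P : ℂ → ℂ} (hF : ∀ t : ℂ, 0 < t.im → HasDerivAt F (dPhi C B t * P t) t)
    (hP : ∀ t : ℂ, 0 < t.im → c₀ ≤ (P t).re) (X : ℝ) :
    ∃ b, 0 < b ∧ (F (gam C B y b)).re < X := by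
  have h1 := U_tendsto_generic (B := B) hC hy0 hy1
  set K := (F (gam C B y 1)).re - c₀ * (Phi C B (gam C B y 1)).re with hK
  have h2 : ∀ᶠ b in 𝓝[>] (0:ℝ), U C B (al C B y b) b < (X - K) / c₀ :=
    h1.eventually (eventually_lt_atBot _)
  have h3 : ∀ᶠ b : ℝ in 𝓝[>] 0, b ≤ 1 := by
    apply nhdsWithin_le_nhds
    exact (ge_mem_nhds (by norm_num))
  obtain ⟨b, h2, h3, hb⟩ := (h2.and (h3.and self_mem_nhdsWithin)).exists
  have hb' : (0:ℝ) < b := hb
  refine ⟨b, hb', ?_⟩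
  have h4 := W_sub_mono hC y hF hP hb (show (1:ℝ) ∈ Ioi (0:ℝ) by simp) h3
  simp only at h4
  have h5 : (Phi C B (gam C B y b)).re = U C B (al C B y b) b := Phi_re _ _ _ _
  rw [h5] at h4
  rw [lt_div_iff₀ hc₀] at h2
  nlinarith

theorem gam_tendsto {C B y t₀ : ℝ} (h : Tendsto (fun b => al C B y b) (𝓝[>] 0) (𝓝 t₀)) :
    Tendsto (fun b => gam C B y b) (𝓝[>] 0) (𝓝[{t : ℂ | 0 < t.im}] (t₀ : ℂ)) := by
  apply tendsto_nhdsWithin_of_tendsto_nhds_of_eventually_within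
  · have hb0 : Tendsto (fun b : ℝ => b) (𝓝[>] 0) (𝓝 0) :=
      tendsto_nhdsWithin_of_tendsto_nhds tendsto_id
    have h4 : Continuous (fun p : ℝ × ℝ => (⟨p.1, p.2⟩ : ℂ)) :=
      Complex.equivRealProdCLM.symm.continuous
    have h5 := (h4.tendsto (t₀, 0)).comp (h.prodMk_nhds hb0)
    exact h5
  · filter_upwards [self_mem_nhdsWithin] with b hb
    exact hb

theorem shear_injOn {C B : ℝ} (hC : 0 < C) {c₀ : ℝ} (hc₀ : 0 < c₀)
    {F P : ℂ → ℂ} (hF : ∀ t : ℂ, 0 < t.im → HasDerivAt F (dPhi C B t * P t) t)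
    (hP : ∀ t : ℂ, 0 < t.im → c₀ ≤ (P t).re) :
    InjOn (fun t => (⟨(F t).re, (Phi C B t).im⟩ : ℂ)) {t : ℂ | 0 < t.im} := by
  intro t ht t' ht' h
  have h0 : (⟨(F t).re, (Phi C B t).im⟩ : ℂ) = ⟨(F t').re, (Phi C B t').im⟩ := h
  rw [Complex.mk.injEq] at h0
  obtain ⟨h1, h2⟩ := h0
  have h3 := gam_eq (B := B) hC ht
  have h4 := gam_eq (B := B) hC ht'
  rw [← h2] at h4
  have hm := W_strictMono (B := B) hC (Phi C B t).im hc₀ hF hP
  have h5 : t.im = t'.im := by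
    apply hm.injOn ht ht'
    show (F (gam C B (Phi C B t).im t.im)).re = (F (gam C B (Phi C B t).im t'.im)).re
    rw [h3, h4, h1]
  rw [← h3, ← h4, h5]

theorem W_gt_lim {C B y α t₀ : ℝ} (hC : 0 < C) {c₀ : ℝ} (hc₀ : 0 < c₀)
    {F P : ℂ → ℂ} (hF : ∀ t : ℂ, 0 < t.im → HasDerivAt F (dPhi C B t * P t) t)
    (hP : ∀ t : ℂ, 0 < t.im → c₀ ≤ (P t).re)
    (hal : Tendsto (fun b => al C B y b) (𝓝[>] 0) (𝓝 t₀))
    (hlim : Tendsto (fun t => (F t).re) (𝓝[{t : ℂ | 0 < t.im}] (t₀ : ℂ)) (𝓝 α)) {b : ℝ}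
    (hb : 0 < b) : α < (F (gam C B y b)).re := by
  have h1 : Tendsto (fun b => (F (gam C B y b)).re) (𝓝[>] 0) (𝓝 α) := hlim.comp (gam_tendsto hal)
  have hm := W_strictMono (B := B) hC y hc₀ hF hP
  have h2 : (F (gam C B y (b / 2))).re < (F (gam C B y b)).re :=
    hm (show b / 2 ∈ Ioi (0:ℝ) by show (0:ℝ) < b / 2; linarith) hb (by linarith)
  refine lt_of_le_of_lt ?_ h2
  apply le_of_tendsto h1
  have h3 : ∀ᶠ x : ℝ in 𝓝[>] 0, x ≤ b / 2 := by
    apply nhdsWithin_le_nhds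
    exact (ge_mem_nhds (by linarith))
  filter_upwards [h3, self_mem_nhdsWithin] with x hx hx0
  exact hm.monotoneOn hx0 (show b / 2 ∈ Ioi (0:ℝ) by show (0:ℝ) < b / 2; linarith) hx

theorem W_exists_lt_lim {C B y α t₀ : ℝ}
    {F : ℂ → ℂ}
    (hal : Tendsto (fun b => al C B y b) (𝓝[>] 0) (𝓝 t₀))
    (hlim : Tendsto (fun t => (F t).re) (𝓝[{t : ℂ | 0 < t.im}] (t₀ : ℂ)) (𝓝 α)) {X : ℝ}
    (hX : α < X) : ∃ b, 0 < b ∧ (F (gam C B y b)).re < X := by
  have h1 : Tendsto (fun b => (F (gam C B y b)).re) (𝓝[>] 0) (𝓝 α) := hlim.comp (gam_tendsto hal)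
  have h2 : ∀ᶠ b in 𝓝[>] (0:ℝ), (F (gam C B y b)).re < X := h1.eventually (gt_mem_nhds hX)
  obtain ⟨b, h2, hb⟩ := (h2.and self_mem_nhdsWithin).exists
  exact ⟨b, hb, h2⟩

theorem shear_image {C B t₁ t₂ α₁ α₂ : ℝ} (hC : 0 < C) (ht₁ : t₁ < 0) (ht₂ : 0 < t₂)
    (hc₁ : -2 * C * t₁ + B + 1 / t₁ = 0) (hc₂ : -2 * C * t₂ + B + 1 / t₂ = 0)
    {c₀ : ℝ} (hc₀ : 0 < c₀)
    {F P : ℂ → ℂ} (hF : ∀ t : ℂ, 0 < t.im → HasDerivAt F (dPhi C B t * P t) t)
    (hP : ∀ t : ℂ, 0 < t.im → c₀ ≤ (P t).re)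
    (hl₁ : Tendsto (fun t => (F t).re) (𝓝[{t : ℂ | 0 < t.im}] (t₁ : ℂ)) (𝓝 α₁))
    (hl₂ : Tendsto (fun t => (F t).re) (𝓝[{t : ℂ | 0 < t.im}] (t₂ : ℂ)) (𝓝 α₂)) :
    (fun t => (⟨(F t).re, (Phi C B t).im⟩ : ℂ)) '' {t : ℂ | 0 < t.im} = slitDom α₁ α₂ := by
  have a₁ := al_tendsto_pi_level hC ht₁ hc₁
  have a₂ := al_tendsto_zero_level hC ht₂ hc₂
  ext w
  constructor
  · rintro ⟨t, ht, rfl⟩
    have ht' : 0 < t.im := ht
    have h3 := gam_eq (B := B) hC ht
    refine ⟨fun h => ?_, fun h => ?_⟩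
    · have h' : (Phi C B t).im = Real.pi := h
      show α₁ < (F t).re
      rw [← h3, h']
      exact W_gt_lim hC hc₀ hF hP a₁ hl₁ ht'
    · have h' : (Phi C B t).im = 0 := h
      show α₂ < (F t).re
      rw [← h3, h']
      exact W_gt_lim hC hc₀ hF hP a₂ hl₂ ht'
  · rintro ⟨h1, h2⟩
    have hlow : ∃ b, 0 < b ∧ (F (gam C B w.im b)).re < w.re := by
      by_cases hy0 : w.im = 0
      · rw [hy0]; exact W_exists_lt_lim a₂ hl₂ (h2 hy0)
      · by_cases hy1 : w.im = Real.pi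
        · rw [hy1]; exact W_exists_lt_lim a₁ hl₁ (h1 hy1)
        · exact W_exists_lt_generic hC hy0 hy1 hc₀ hF hP w.re
    obtain ⟨b₁, hb₁, hl⟩ := hlow
    obtain ⟨b₂, hb₂, hu⟩ := W_exists_gt (B := B) hC w.im hc₀ hF hP w.re
    obtain ⟨b, hb, hbw⟩ := isPreconnected_Ioi.intermediate_value (a := b₁) (b := b₂)
      (s := Ioi (0:ℝ)) hb₁ hb₂ (W_continuousOn (B := B) hC w.im hF)
      (show w.re ∈ Icc _ _ from ⟨hl.le, hu.le⟩)
    refine ⟨gam C B w.im b, hb, ?_⟩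
    apply Complex.ext
    · exact hbw
    · exact Phi_gam_im B hC hb w.im

end Pool.Agent.H802R2
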