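import Pool.Agent.H802R2.SlitSol

/-! The explicit pair of slit maps. -/

open Complex Set Filter Topology Metric

namespace Pool.Agent.H802R2

/-- `-C t² + B t + log |t|` -/
noncomputable def ur (C B t : ℝ) : ℝ := -C * t ^ 2 + B * t + Real.log t

theorem Phi_ofReal_re (C B t : ℝ) : (Phi C B (t : ℂ)).re = ur C B t := by
  unfold Phi ur
  rw [Complex.add_re, Complex.log_re, Complex.norm_real, Real.norm_eq_abs, Real.log_abs]
  simp [pow_two]

theorem ur_le {C B s t : ℝ} (hC : 0 < C) (hst : 0 < s / t) (ht : t ≠ 0)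
    (hcrit : -2 * C * t + B + 1 / t = 0) : ur C B s ≤ ur C B t := by
  have hs : s ≠ 0 := by
    rintro rfl
    simp at hst
  have h1 : Real.log s - Real.log t ≤ s / t - 1 := by
    have := Real.log_le_sub_one_of_pos hst
    rwa [Real.log_div hs ht] at this
  have h2 : s / t - 1 = (s - t) * (1 / t) := by field_simp
  have h3 : 1 / t = 2 * C * t - B := by linarith
  rw [h2, h3] at h1
  unfold ur
  nlinarith [mul_nonneg hC.le (sq_nonneg (s - t))]

theorem crit_exists (C B : ℝ) (hC : 0 < C) :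
    ∃ s₁ s₂ : ℝ, s₁ < 0 ∧ 0 < s₂ ∧ -2 * C * s₁ + B + 1 / s₁ = 0 ∧
      -2 * C * s₂ + B + 1 / s₂ = 0 := by
  set d := Real.sqrt (B ^ 2 + 8 * C) with hd
  have hd2 : d ^ 2 = B ^ 2 + 8 * C := Real.sq_sqrt (by positivity)
  have hlt : |B| < d := by
    rw [hd]
    apply Real.lt_sqrt_of_sq_lt
    rw [sq_abs]; linarith
  rw [abs_lt] at hlt
  obtain ⟨h1, h2⟩ := hlt
  have hs₁ : (B - d) / (4 * C) < 0 := div_neg_of_neg_of_pos (by linarith) (by positivity)
  have hs₂ : 0 < (B + d) / (4 * C) := div_pos (by linarith) (by positivity)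
  refine ⟨(B - d) / (4 * C), (B + d) / (4 * C), hs₁, hs₂, ?_, ?_⟩
  · have hne : B - d ≠ 0 := by linarith
    field_simp
    nlinarith
  · have hne : B + d ≠ 0 := by linarith
    field_simp
    nlinarith

theorem cramer_pos {a₁ a₂ b₁ b₂ c₁ c₂ : ℝ} (ha₁ : a₁ < 0) (ha₂ : 0 < a₂) (hb₁ : 0 < b₁)
    (hb₂ : b₂ < 0) (hc₁ : 0 < c₁) (hc₂ : 0 < c₂) (hd : 0 < a₁ * b₂ - a₂ * b₁) :
    ∃ x y : ℝ, 0 < x ∧ 0 < y ∧ x * a₁ + y * b₁ + c₁ = 0 ∧ x * a₂ + y * b₂ + c₂ = 0 := by
  refine ⟨(-c₁ * b₂ + c₂ * b₁) / (a₁ * b₂ - a₂ * b₁),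
    (-a₁ * c₂ + a₂ * c₁) / (a₁ * b₂ - a₂ * b₁), ?_, ?_, ?_, ?_⟩
  · apply div_pos _ hd
    have h1 : 0 < c₁ * (-b₂) := mul_pos hc₁ (by linarith)
    have h2 : 0 < c₂ * b₁ := mul_pos hc₂ hb₁
    linarith
  · apply div_pos _ hd
    have h1 : 0 < (-a₁) * c₂ := mul_pos (by linarith) hc₂
    have h2 : 0 < a₂ * c₁ := mul_pos ha₂ hc₁
    linarith
  · rw [div_mul_eq_mul_div, div_mul_eq_mul_div, ← add_div, div_add' _ _ _ hd.ne',
      div_eq_zero_iff]
    left; ring
  · rw [div_mul_eq_mul_div, div_mul_eq_mul_div, ← add_div, div_add' _ _ _ hd.ne',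
      div_eq_zero_iff]
    left; ring

/-- first map, quadratic coefficient -/
noncomputable def CA : ℝ := 49 / 200
/-- first map, linear coefficient -/
noncomputable def BA : ℝ := -4899 / 100
/-- second map, quadratic coefficient -/
noncomputable def CB : ℝ := 71079401 / 96000796
/-- second map, linear coefficient -/
noncomputable def BB : ℝ := -97 / 2 - 2 * CB

theorem CA_lt_CB : CA < CB := by unfold CA CB; norm_num

theorem BA_sub_BB : BA - BB = 2 * (CB - CA) := by unfold BB BA CA; ring_nf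

theorem critA₁ : -2 * CA * (-100) + BA + 1 / (-100) = 0 := by unfold CA BA; norm_num

theorem critA₂ : -2 * CA * (1 / 49) + BA + 1 / (1 / 49) = 0 := by unfold CA BA; norm_num

theorem c_pos {s t : ℝ} (hst : 0 < s / t) (ht : t ≠ 0)
    (hcrit : -2 * CA * t + BA + 1 / t = 0) :
    0 < (ur CA BA t + BA) - (ur CB BB s + BB) := by
  have hCA : 0 < CA := by unfold CA; norm_num
  have h1 := ur_le hCA hst ht hcrit
  have h2 : ur CA BA s - ur CB BB s = (CB - CA) * s ^ 2 + (BA - BB) * s := by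
    unfold ur; ring
  rw [BA_sub_BB] at h2
  have h3 := BA_sub_BB
  have h4 : 0 < (CB - CA) * ((s + 1) ^ 2 + 1) := by
    apply mul_pos (sub_pos.2 CA_lt_CB)
    positivity
  nlinarith

/-- first column, first row -/
noncomputable def a₁ : ℝ := (49 * Real.pi - 296) / 200 - (Real.pi / 4 - 2 * CB / 3 - 1)
/-- first column, second row -/
noncomputable def a₂ : ℝ := -(296 + 147 * Real.pi) / 200 - (-(2 * CB / 3) - 1 - 3 * Real.pi / 4)
/-- second column, first row -/
noncomputable def b₁ : ℝ := (4950 * Real.pi - 10098) / 200 -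
  (BB - 2 * CB + 1 - (1 + 2 * BB) * Real.pi / 4)
/-- second column, second row -/
noncomputable def b₂ : ℝ := -(10098 + 14850 * Real.pi) / 200 -
  (BB - 2 * CB + 1 + (1 + 2 * BB) * (3 * Real.pi / 4))

theorem a₁_bounds : -0.0022 < a₁ ∧ a₁ < -0.002 := by
  have h1 := Real.pi_gt_d6
  have h2 := Real.pi_lt_d6
  unfold a₁ CB
  constructor <;> norm_num at * <;> linarith

theorem a₂_bounds : 0.06 < a₂ ∧ a₂ < 0.061 := by
  have h1 := Real.pi_gt_d6
  have h2 := Real.pi_lt_d6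
  unfold a₂ CB
  constructor <;> norm_num at * <;> linarith

theorem b₁_bounds : 0.0017 < b₁ ∧ b₁ < 0.0018 := by
  have h1 := Real.pi_gt_d6
  have h2 := Real.pi_lt_d6
  unfold b₁ BB CB
  constructor <;> norm_num at * <;> linarith

theorem b₂_bounds : -0.12 < b₂ ∧ b₂ < -0.118 := by
  have h1 := Real.pi_gt_d6
  have h2 := Real.pi_lt_d6
  unfold b₂ BB CB
  constructor <;> norm_num at * <;> linarith

theorem det_pos : 0 < a₁ * b₂ - a₂ * b₁ := by
  obtain ⟨h1, h2⟩ := a₁_bounds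
  obtain ⟨h3, h4⟩ := a₂_bounds
  obtain ⟨h5, h6⟩ := b₁_bounds
  obtain ⟨h7, h8⟩ := b₂_bounds
  have e1 : (0.002 : ℝ) * 0.118 ≤ (-a₁) * (-b₂) :=
    mul_le_mul (by linarith) (by linarith) (by norm_num) (by linarith)
  have e2 : a₂ * b₁ ≤ (0.061 : ℝ) * 0.0018 :=
    mul_le_mul (by linarith) (by linarith) (by linarith) (by norm_num)
  norm_num at e1 e2
  linarith

end Pool.Agent.H802R2
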