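import Pool.Agent.H802R2.SlitNum

/-! The two harmonic mappings. -/

open Complex Set Filter Topology Metric

namespace Pool.Agent.H802R2

/-- the function with positive real part, in the coordinate of the second map -/
noncomputable def Pf (x y : ℝ) (s : ℂ) : ℂ := 1 + x * (-(I * (s + 1))) + y * (I * (1 + 2 / s))

/-- change of coordinates -/
noncomputable def Mf (t : ℂ) : ℂ := (98 * t - 2) / (t + 100)

/-- primitive for the first map -/
noncomputable def FA (x y : ℝ) (t : ℂ) : ℂ :=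
  Phi CA BA t + x * (I / 200 * (4851 * t ^ 2 + 9406 * t - 196 * Complex.log t)) -
    y * (I / 200 * (50 * t ^ 2 + 10198 * t + 19800 * Complex.log t))

/-- primitive for the second map -/
noncomputable def FB (x y : ℝ) (s : ℂ) : ℂ :=
  Phi CB BB s - x * (I * (-2 * CB * s ^ 3 / 3 + (BB - 2 * CB) * s ^ 2 / 2 + (1 + BB) * s +
      Complex.log s)) +
    y * (I * (-CB * s ^ 2 + (BB - 4 * CB) * s + (1 + 2 * BB) * Complex.log s - 2 / s))

theorem Pf_re {x y : ℝ} (hx : 0 < x) (hy : 0 < y) {s : ℂ} (hs : 0 < s.im) :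
    1 ≤ (Pf x y s).re := by
  have h1 : (Pf x y s).re = 1 + x * s.im + y * (2 * s.im / Complex.normSq s) := by
    unfold Pf
    simp [Complex.div_re, Complex.div_im]
  rw [h1]
  have h2 : 0 < Complex.normSq s := by
    apply Complex.normSq_pos.2
    rintro rfl
    simp at hs
  have h3 : 0 < x * s.im := mul_pos hx hs
  have h4 : 0 < y * (2 * s.im / Complex.normSq s) := by positivity
  linarith

theorem Mf_im {t : ℂ} (ht : 0 < t.im) : 0 < (Mf t).im := by
  have h0 : t + 100 ≠ 0 := by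
    intro h
    have := congrArg Complex.im h
    simp at this
    linarith
  have h2 : 0 < Complex.normSq (t + 100) := Complex.normSq_pos.2 h0
  have h1 : (Mf t).im = 9802 * t.im / Complex.normSq (t + 100) := by
    unfold Mf
    rw [Complex.div_im]
    simp
    field_simp
    ring
  rw [h1]
  positivity

theorem ne_zero_of_im_pos {t : ℂ} (ht : 0 < t.im) : t ≠ 0 := by
  rintro rfl; simp at ht

theorem hasDerivAt_FA (x y : ℝ) {t : ℂ} (ht : 0 < t.im) :
    HasDerivAt (FA x y) (dPhi CA BA t * Pf x y (Mf t)) t := by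
  have h0 : t ≠ 0 := ne_zero_of_im_pos ht
  have h100 : t + 100 ≠ 0 := by
    intro h
    have := congrArg Complex.im h
    simp at this
    linarith
  have h98 : 98 * t - 2 ≠ 0 := by
    intro h
    have := congrArg Complex.im h
    simp at this
    linarith
  have hs := mem_slitPlane_of_im_pos ht
  have hl := Complex.hasDerivAt_log hs
  have h2 : HasDerivAt (fun t : ℂ => t ^ 2) (2 * t) t := by simpa using hasDerivAt_pow 2 t
  have h1 : HasDerivAt (fun t : ℂ => t) 1 t := hasDerivAt_id t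
  have e1 := (((h2.const_mul (4851:ℂ)).add (h1.const_mul (9406:ℂ))).sub
    (hl.const_mul (196:ℂ))).const_mul (I / 200)
  have e2 := (((h2.const_mul (50:ℂ)).add (h1.const_mul (10198:ℂ))).add
    (hl.const_mul (19800:ℂ))).const_mul (I / 200)
  have e3 := ((hasDerivAt_Phi CA BA hs).add (e1.const_mul (x:ℂ))).sub (e2.const_mul (y:ℂ))
  refine e3.congr_deriv ?_
  have e4 : Pf x y (Mf t) = 1 - x * (I * ((99 * t + 98) / (t + 100))) +
      y * (I * ((100 * t + 198) / (98 * t - 2))) := by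
    unfold Pf Mf
    have k1 : (98 * t - 2) / (t + 100) + 1 = (99 * t + 98) / (t + 100) := by
      field_simp; ring
    have k2 : 1 + 2 / ((98 * t - 2) / (t + 100)) = (100 * t + 198) / (98 * t - 2) := by
      rw [div_div_eq_mul_div]
      rw [eq_div_iff h98, add_mul, div_mul_cancel₀ _ h98]
      ring
    rw [k1, k2]
    ring
  have e5 : dPhi CA BA t = -((t + 100) * (98 * t - 2)) / (200 * t) := by
    unfold dPhi CA BA
    push_cast
    field_simp
    ring
  rw [e4, e5]
  have k3 : -((t + 100) * (98 * t - 2)) / (200 * t) *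
      (1 - x * (I * ((99 * t + 98) / (t + 100))) +
      y * (I * ((100 * t + 198) / (98 * t - 2)))) =
      -((t + 100) * (98 * t - 2)) / (200 * t) +
      x * (I * ((99 * t + 98) * (98 * t - 2) / (200 * t))) -
      y * (I * ((100 * t + 198) * (t + 100) / (200 * t))) := by
    have k4 : (t + 100) * ((99 * t + 98) / (t + 100)) = 99 * t + 98 := by field_simp
    have k5 : (98 * t - 2) * ((100 * t + 198) / (98 * t - 2)) = 100 * t + 198 := by
      rw [mul_div_cancel₀ _ h98]
    linear_combination (x * I * (98 * t - 2) / (200 * t)) * k4 -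
      (y * I * (t + 100) / (200 * t)) * k5
  rw [k3]
  field_simp
  ring

theorem hasDerivAt_FB (x y : ℝ) {t : ℂ} (ht : 0 < t.im) :
    HasDerivAt (FB x y) (dPhi CB BB t * Pf x y t) t := by
  have h0 : t ≠ 0 := ne_zero_of_im_pos ht
  have hs := mem_slitPlane_of_im_pos ht
  have hl := Complex.hasDerivAt_log hs
  have h3 : HasDerivAt (fun t : ℂ => -2 * (CB:ℂ) * t ^ 3 / 3) (-2 * (CB:ℂ) * (3 * t ^ 2) / 3) t := by
    have : HasDerivAt (fun t : ℂ => t ^ 3) (3 * t ^ 2) t := by simpa using hasDerivAt_pow 3 t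
    exact (this.const_mul (-2 * (CB:ℂ))).div_const 3
  have h2 : HasDerivAt (fun t : ℂ => t ^ 2) (2 * t) t := by simpa using hasDerivAt_pow 2 t
  have h1 : HasDerivAt (fun t : ℂ => t) 1 t := hasDerivAt_id t
  have hinv : HasDerivAt (fun t : ℂ => 2 / t) (2 * (-(t ^ 2)⁻¹)) t := by
    simpa [div_eq_mul_inv] using (hasDerivAt_inv h0).const_mul (2:ℂ)
  have e1 := (((h3.add ((h2.const_mul ((BB:ℂ) - 2 * CB)).div_const 2)).add
    (h1.const_mul (1 + (BB:ℂ)))).add hl).const_mul I
  have e2 := ((((h2.const_mul (-(CB:ℂ))).add (h1.const_mul ((BB:ℂ) - 4 * CB))).add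
    (hl.const_mul (1 + 2 * (BB:ℂ)))).sub hinv).const_mul I
  have e3 := ((hasDerivAt_Phi CB BB hs).sub (e1.const_mul (x:ℂ))).add (e2.const_mul (y:ℂ))
  refine e3.congr_deriv ?_
  unfold dPhi Pf
  field_simp
  ring

theorem FA_re_real (x y t : ℝ) :
    (FA x y (t : ℂ)).re = ur CA BA t + (x * 196 + y * 19800) / 200 * (Complex.log (t:ℂ)).im := by
  have h := Phi_ofReal_re CA BA t
  have h1 : (FA x y (t : ℂ)).re = (Phi CA BA (t : ℂ)).re +
      (x * (I / 200 * (4851 * (t:ℂ) ^ 2 + 9406 * t - 196 * Complex.log t))).re -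
      (y * (I / 200 * (50 * (t:ℂ) ^ 2 + 10198 * t + 19800 * Complex.log t))).re := by
    unfold FA
    rw [Complex.sub_re, Complex.add_re]
  rw [h1, h]
  simp [pow_two]
  ring

theorem FB_re_real (x y t : ℝ) :
    (FB x y (t : ℂ)).re = ur CB BB t + (x - y * (1 + 2 * BB)) * (Complex.log (t:ℂ)).im := by
  have h := Phi_ofReal_re CB BB t
  have h1 : (FB x y (t : ℂ)).re = (Phi CB BB (t : ℂ)).re -
      (x * (I * (-2 * CB * (t:ℂ) ^ 3 / 3 + (BB - 2 * CB) * (t:ℂ) ^ 2 / 2 + (1 + BB) * t +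
      Complex.log t))).re +
    (y * (I * (-CB * (t:ℂ) ^ 2 + (BB - 4 * CB) * t + (1 + 2 * BB) * Complex.log t - 2 / t))).re := by
    unfold FB
    rw [Complex.add_re, Complex.sub_re]
  rw [h1, h]
  simp [pow_succ, Complex.div_im, Complex.div_re]
  ring

theorem arg_tau : Complex.arg (-1 + I) = 3 * Real.pi / 4 := by
  have h : (-1 + I : ℂ) = (Real.sqrt 2 : ℝ) *
      (Complex.cos ((3 * Real.pi / 4 : ℝ) : ℂ) + Complex.sin ((3 * Real.pi / 4 : ℝ) : ℂ) * I) := by
    have h1 : Real.cos (3 * Real.pi / 4) = -(Real.sqrt 2 / 2) := by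
      rw [show 3 * Real.pi / 4 = Real.pi - Real.pi / 4 by ring, Real.cos_pi_sub,
        Real.cos_pi_div_four]
    have h2 : Real.sin (3 * Real.pi / 4) = Real.sqrt 2 / 2 := by
      rw [show 3 * Real.pi / 4 = Real.pi - Real.pi / 4 by ring, Real.sin_pi_sub,
        Real.sin_pi_div_four]
    have h3 : Real.sqrt 2 * Real.sqrt 2 = 2 := Real.mul_self_sqrt (by norm_num)
    rw [← Complex.ofReal_cos, ← Complex.ofReal_sin, h1, h2]
    apply Complex.ext
    · simp
      nlinarith
    · simp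
      nlinarith
  rw [h]
  apply Complex.arg_mul_cos_add_sin_mul_I (by positivity)
  constructor
  · have := Real.pi_pos; linarith
  · have := Real.pi_pos; linarith

theorem tau_sq : (-1 + I : ℂ) ^ 2 = -2 * I := by
  have : (-1 + I : ℂ) ^ 2 = 1 - 2 * I + I ^ 2 := by ring
  rw [this, I_sq]; ring

theorem tau_cube : (-1 + I : ℂ) ^ 3 = 2 + 2 * I := by
  have : (-1 + I : ℂ) ^ 3 = (-1 + I) ^ 2 * (-1 + I) := by ring
  rw [this, tau_sq]
  have : -2 * I * (-1 + I) = 2 * I - 2 * I ^ 2 := by ring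
  rw [this, I_sq]; ring

theorem two_div_tau : (2 : ℂ) / (-1 + I) = -1 - I := by
  have h : (-1 + I : ℂ) ≠ 0 := by
    intro h
    have := congrArg Complex.im h
    simp at this
  rw [div_eq_iff h]
  have : (-1 - I) * (-1 + I) = 1 - I ^ 2 := by ring
  rw [this, I_sq]; norm_num

theorem one_div_tau : (1 : ℂ) / (-1 + I) = (-1 - I) / 2 := by
  rw [← two_div_tau]; ring

theorem Phi_tau_im (C B : ℝ) : (Phi C B (-1 + I)).im = 2 * C + B + 3 * Real.pi / 4 := by
  unfold Phi
  rw [tau_sq, Complex.add_im, Complex.log_im, arg_tau]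
  simp
  ring

theorem Phi_tau_re (C B : ℝ) : (Phi C B (-1 + I)).re = -B + (Complex.log (-1 + I)).re := by
  unfold Phi
  rw [tau_sq, Complex.add_re]
  simp

theorem FA_tau_re (x y : ℝ) : (FA x y (-1 + I)).re =
    -BA + (Complex.log (-1 + I)).re + x * ((296 + 147 * Real.pi) / 200) +
      y * ((10098 + 14850 * Real.pi) / 200) := by
  have h1 : (FA x y (-1 + I)).re = (Phi CA BA (-1 + I)).re +
      (x * (I / 200 * (4851 * (-2 * I) + 9406 * (-1 + I) - 196 * Complex.log (-1 + I)))).re -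
      (y * (I / 200 * (50 * (-2 * I) + 10198 * (-1 + I) + 19800 * Complex.log (-1 + I)))).re := by
    unfold FA
    rw [tau_sq, Complex.sub_re, Complex.add_re]
  rw [h1, Phi_tau_re]
  have h2 : (Complex.log (-1 + I)).im = 3 * Real.pi / 4 := by rw [Complex.log_im, arg_tau]
  set L := Complex.log (-1 + I)
  simp [h2]
  ring

theorem FB_tau_re (x y : ℝ) : (FB x y (-1 + I)).re =
    -BB + (Complex.log (-1 + I)).re + x * (2 * CB / 3 + 1 + 3 * Real.pi / 4) -
      y * (BB - 2 * CB + 1 + (1 + 2 * BB) * (3 * Real.pi / 4)) := by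
  have h1 : (FB x y (-1 + I)).re = (Phi CB BB (-1 + I)).re -
      (x * (I * (-2 * CB * (2 + 2 * I) / 3 + (BB - 2 * CB) * (-2 * I) / 2 + (1 + BB) * (-1 + I) +
      Complex.log (-1 + I)))).re +
    (y * (I * (-CB * (-2 * I) + (BB - 4 * CB) * (-1 + I) +
      (1 + 2 * BB) * Complex.log (-1 + I) - (-1 - I)))).re := by
    unfold FB
    rw [tau_sq, tau_cube, two_div_tau, Complex.add_re, Complex.sub_re]
  rw [h1, Phi_tau_re]
  have h2 : (Complex.log (-1 + I)).im = 3 * Real.pi / 4 := by rw [Complex.log_im, arg_tau]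
  set L := Complex.log (-1 + I)
  simp [h2]
  ring

theorem log_im_neg {t : ℝ} (ht : t < 0) : (Complex.log (t : ℂ)).im = Real.pi := by
  rw [Complex.log_im, Complex.arg_ofReal_of_neg ht]

theorem log_im_pos {t : ℝ} (ht : 0 < t) : (Complex.log (t : ℂ)).im = 0 := by
  rw [Complex.log_im, Complex.arg_ofReal_of_nonneg ht.le]

/-- continuity of the logarithm up to the real axis from above -/
theorem log_tendsto {t : ℝ} (ht : t ≠ 0) :
    ContinuousWithinAt Complex.log {z : ℂ | 0 < z.im} (t : ℂ) := by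
  rcases lt_or_gt_of_ne ht with h | h
  · have h1 := Complex.continuousWithinAt_log_of_re_neg_of_im_zero (z := (t : ℂ))
      (by simpa using h) (by simp)
    apply h1.mono
    intro z hz
    exact (le_of_lt hz : (0:ℝ) ≤ z.im)
  · have h1 : (t : ℂ) ∈ slitPlane := by
      rw [Complex.mem_slitPlane_iff]; left; simpa using h
    exact (continuousAt_clog h1).continuousWithinAt

theorem FA_tendsto (x y : ℝ) {t : ℝ} (ht : t ≠ 0) :
    Tendsto (fun z => (FA x y z).re) (𝓝[{z : ℂ | 0 < z.im}] (t : ℂ)) (𝓝 (FA x y (t : ℂ)).re) := by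
  have hl := log_tendsto ht
  have h : ContinuousWithinAt (FA x y) {z : ℂ | 0 < z.im} (t : ℂ) := by
    unfold FA Phi
    fun_prop
  exact (continuous_re.tendsto _).comp h

theorem FB_tendsto (x y : ℝ) {t : ℝ} (ht : t ≠ 0) :
    Tendsto (fun z => (FB x y z).re) (𝓝[{z : ℂ | 0 < z.im}] (t : ℂ)) (𝓝 (FB x y (t : ℂ)).re) := by
  have hl := log_tendsto ht
  have ht' : (t : ℂ) ≠ 0 := by exact_mod_cast ht
  have h : ContinuousWithinAt (FB x y) {z : ℂ | 0 < z.im} (t : ℂ) := by
    unfold FB Phi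
    fun_prop (disch := exact ht')
  exact (continuous_re.tendsto _).comp h

/-- The masses: both maps have the same tips. -/
theorem masses : ∃ x y s₁ s₂ : ℝ, 0 < x ∧ 0 < y ∧ s₁ < 0 ∧ 0 < s₂ ∧
    -2 * CB * s₁ + BB + 1 / s₁ = 0 ∧ -2 * CB * s₂ + BB + 1 / s₂ = 0 ∧
    (FA x y ((-100 : ℝ) : ℂ)).re - (FA x y (-1 + I)).re =
      (FB x y (s₁ : ℂ)).re - (FB x y (-1 + I)).re ∧
    (FA x y ((1 / 49 : ℝ) : ℂ)).re - (FA x y (-1 + I)).re =
      (FB x y (s₂ : ℂ)).re - (FB x y (-1 + I)).re := by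
  obtain ⟨s₁, s₂, hs₁, hs₂, hc₁, hc₂⟩ := crit_exists CB BB (by unfold CB; norm_num)
  have h1 : 0 < s₁ / (-100) := div_pos_of_neg_of_neg hs₁ (by norm_num)
  have h2 : 0 < s₂ / (1 / 49) := by positivity
  have p1 := c_pos h1 (by norm_num) critA₁
  have p2 := c_pos h2 (by norm_num) critA₂
  obtain ⟨ha, ha'⟩ := a₁_bounds
  obtain ⟨hb, hb'⟩ := a₂_bounds
  obtain ⟨hc, hc'⟩ := b₁_bounds
  obtain ⟨hd, hd'⟩ := b₂_bounds
  obtain ⟨x, y, hx, hy, e1, e2⟩ := cramer_pos (a₁ := a₁) (a₂ := a₂) (b₁ := b₁) (b₂ := b₂)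
    (by linarith) (by linarith) (by linarith) (by linarith) p1 p2 det_pos
  refine ⟨x, y, s₁, s₂, hx, hy, hs₁, hs₂, hc₁, hc₂, ?_, ?_⟩
  · rw [FA_re_real, FA_tau_re, FB_re_real, FB_tau_re, log_im_neg (by norm_num), log_im_neg hs₁]
    unfold a₁ b₁ at e1
    linear_combination e1
  · rw [FA_re_real, FA_tau_re, FB_re_real, FB_tau_re, log_im_pos (by norm_num), log_im_pos hs₂]
    unfold a₂ b₂ at e2
    linear_combination e2

/-- rotation for the first map -/
noncomputable def lA : ℂ := I * (99 - I) / (99 + I)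
/-- rotation for the second map -/
noncomputable def lB : ℂ := I * (99 - I) ^ 2 / (99 + I) ^ 2

theorem ne_99 : (99 + I : ℂ) ≠ 0 := by
  intro h
  have := congrArg Complex.im h
  simp at this

theorem norm_99 : ‖(99 - I : ℂ)‖ = ‖(99 + I : ℂ)‖ := by
  have : (99 - I : ℂ) = (starRingEnd ℂ) (99 + I) := by
    apply Complex.ext <;> simp
  rw [this, Complex.norm_conj]

theorem norm_lA : ‖lA‖ = 1 := by
  unfold lA
  rw [norm_div, norm_mul, norm_99, Complex.norm_I, one_mul, div_self]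
  exact norm_ne_zero_iff.2 ne_99

theorem norm_lB : ‖lB‖ = 1 := by
  unfold lB
  rw [norm_div, norm_mul, norm_pow, norm_pow, norm_99, Complex.norm_I, one_mul, div_self]
  exact pow_ne_zero 2 (norm_ne_zero_iff.2 ne_99)

theorem lA_eq : lA = ⟨99 / 4901, 4900 / 4901⟩ := by
  unfold lA
  rw [div_eq_iff ne_99]
  apply Complex.ext <;> simp <;> norm_num

theorem lB_eq : lB = ⟨970200 / 24019801, 24000199 / 24019801⟩ := by
  unfold lB
  rw [div_eq_iff (pow_ne_zero 2 ne_99)]
  apply Complex.ext <;> simp [pow_two] <;> norm_num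

theorem dPhi_A : dPhi CA BA (-1 + I) * (I * lA) = ((4901 / 100 : ℝ) : ℂ) := by
  unfold dPhi
  rw [one_div_tau, lA_eq]
  unfold CA BA
  apply Complex.ext <;> simp <;> norm_num

theorem dPhi_B : dPhi CB BB (-1 + I) * (I * lB) = ((1176970249 / 24000199 : ℝ) : ℂ) := by
  unfold dPhi
  rw [one_div_tau, lB_eq]
  unfold BB CB
  apply Complex.ext <;> simp <;> norm_num

theorem Mf_nu {z : ℂ} (hz : z ∈ ball (0:ℂ) 1) : Mf (nu lA z) = nu lB z := by
  have h1 := one_sub_ne norm_lA hz
  have h2 := one_sub_ne norm_lB hz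
  have h3 : nu lA z + 100 ≠ 0 := by
    intro h
    have h4 := nu_im norm_lA hz
    have := congrArg Complex.im h
    simp at this
    linarith
  have h99 := ne_99
  have hI : I ^ 2 = -1 := I_sq
  unfold Mf
  rw [div_eq_iff h3]
  unfold nu at *
  have e1 : lB = lA * ((99 - I) / (99 + I)) := by
    unfold lA lB
    field_simp
  rw [e1] at h2 ⊢
  set w := lA * z with hw
  have e2 : lA * ((99 - I) / (99 + I)) * z = w * ((99 - I) / (99 + I)) := by rw [hw]; ring
  rw [e2] at h2 ⊢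
  have h5 : (99 + I) - w * (99 - I) ≠ 0 := by
    intro h
    apply h2
    field_simp
    linear_combination h
  have e3 : I * (1 + w * ((99 - I) / (99 + I))) / (1 - w * ((99 - I) / (99 + I))) =
      I * ((99 + I) + w * (99 - I)) / ((99 + I) - w * (99 - I)) := by
    rw [div_eq_div_iff h2 h5]
    field_simp
  rw [e3]
  field_simp
  ring_nf
  simp only [I_sq, I_pow_three]
  ring

end Pool.Agent.H802R2
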