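import Pool.Agent.H802R2.SlitTop

/-! The Cayley maps of the disk onto the upper half-plane based at `-1 + i`, and the harmonic
mappings of the disk obtained from sheared slit maps. -/

open Complex Set Filter Topology Metric

namespace Pool.Agent.H802R2

/-- Cayley map of the disk onto the upper half-plane, sending `0` to `-1 + i` -/
noncomputable def nu (l z : ℂ) : ℂ := -1 + I * (1 + l * z) / (1 - l * z)

theorem one_sub_ne {l z : ℂ} (hl : ‖l‖ = 1) (hz : z ∈ ball (0:ℂ) 1) : 1 - l * z ≠ 0 := by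
  intro h
  have h1 : l * z = 1 := (sub_eq_zero.1 h).symm
  have h2 : ‖l * z‖ = 1 := by rw [h1]; simp
  rw [norm_mul, hl, one_mul] at h2
  rw [mem_ball_zero_iff] at hz
  linarith

theorem nu_zero (l : ℂ) : nu l 0 = -1 + I := by simp [nu]

theorem nu_im {l z : ℂ} (hl : ‖l‖ = 1) (hz : z ∈ ball (0:ℂ) 1) : 0 < (nu l z).im := by
  have h0 := one_sub_ne hl hz
  have h1 : ‖l * z‖ < 1 := by
    rw [norm_mul, hl, one_mul]; simpa using hz
  set w := l * z with hw
  have h2 : w.re ^ 2 + w.im ^ 2 < 1 := by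
    have h3 : ‖w‖ ^ 2 = w.re ^ 2 + w.im ^ 2 := by
      rw [← Complex.normSq_eq_norm_sq, Complex.normSq_apply]; ring
    rw [← h3]
    have : 0 ≤ ‖w‖ := norm_nonneg w
    nlinarith
  have h3 : 0 < Complex.normSq (1 - w) := Complex.normSq_pos.2 h0
  have h4 : (nu l z).im = (1 - (w.re ^ 2 + w.im ^ 2)) / Complex.normSq (1 - w) := by
    unfold nu
    rw [← hw, Complex.add_im, Complex.div_im]
    simp
    field_simp
    ring
  rw [h4]
  apply div_pos _ h3
  linarith

theorem hasDerivAt_nu {l z : ℂ} (hl : ‖l‖ = 1) (hz : z ∈ ball (0:ℂ) 1) :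
    HasDerivAt (nu l) (2 * I * l / (1 - l * z) ^ 2) z := by
  have h0 := one_sub_ne hl hz
  have h1 : HasDerivAt (fun z : ℂ => l * z) l z := by
    simpa using (hasDerivAt_id z).const_mul l
  have h2 : HasDerivAt (fun z : ℂ => I * (1 + l * z)) (I * l) z :=
    (h1.const_add 1).const_mul I
  have h3 : HasDerivAt (fun z : ℂ => 1 - l * z) (-l) z := h1.const_sub 1
  have h4 := (h2.div h3 h0).const_add (-1)
  refine h4.congr_deriv ?_
  field_simp
  ring

theorem nu_bijOn {l : ℂ} (hl : ‖l‖ = 1) : BijOn (nu l) (ball 0 1) {t : ℂ | 0 < t.im} := by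
  have hl0 : l ≠ 0 := by
    intro h; rw [h, norm_zero] at hl; exact zero_ne_one hl
  refine ⟨fun z hz => nu_im hl hz, ?_, ?_⟩
  · intro z hz z' hz' h
    have h0 := one_sub_ne hl hz
    have h0' := one_sub_ne hl hz'
    unfold nu at h
    have h1 : I * (1 + l * z) / (1 - l * z) = I * (1 + l * z') / (1 - l * z') :=
      add_left_cancel h
    rw [div_eq_div_iff h0 h0'] at h1
    have h2 : (2 * I * l) * (z - z') = 0 := by linear_combination h1
    have h3 : (2 * I * l) ≠ 0 := by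
      simp [hl0]
    have h4 := (mul_eq_zero.1 h2).resolve_left h3
    exact sub_eq_zero.1 h4
  · intro t ht
    have ht' : 0 < t.im := ht
    have h1 : t + 1 + I ≠ 0 := by
      intro h
      have := congrArg Complex.im h
      simp at this
      linarith
    refine ⟨(t + 1 - I) / (t + 1 + I) / l, ?_, ?_⟩
    · rw [mem_ball_zero_iff, norm_div, hl, div_one, norm_div, div_lt_one (norm_pos_iff.2 h1)]
      have e1 : ‖t + 1 - I‖ ^ 2 < ‖t + 1 + I‖ ^ 2 := by
        rw [← Complex.normSq_eq_norm_sq, ← Complex.normSq_eq_norm_sq, Complex.normSq_apply,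
          Complex.normSq_apply]
        simp
        nlinarith
      exact lt_of_pow_lt_pow_left₀ 2 (norm_nonneg _) e1
    · unfold nu
      have h2 : l * ((t + 1 - I) / (t + 1 + I) / l) = (t + 1 - I) / (t + 1 + I) := by
        field_simp
      rw [h2]
      have h3 : 1 - (t + 1 - I) / (t + 1 + I) = 2 * I / (t + 1 + I) := by
        field_simp; ring
      rw [h3]
      field_simp
      ring

theorem exists_solution {C B t₁ t₂ α₁ α₂ : ℝ} (hC : 0 < C) (ht₁ : t₁ < 0) (ht₂ : 0 < t₂)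
    (hc₁ : -2 * C * t₁ + B + 1 / t₁ = 0) (hc₂ : -2 * C * t₂ + B + 1 / t₂ = 0)
    {c₀ : ℝ} (hc₀ : 0 < c₀)
    {F P : ℂ → ℂ} (hF : ∀ t : ℂ, 0 < t.im → HasDerivAt F (dPhi C B t * P t) t)
    (hP : ∀ t : ℂ, 0 < t.im → c₀ ≤ (P t).re)
    (hl₁ : Tendsto (fun t => (F t).re) (𝓝[{t : ℂ | 0 < t.im}] (t₁ : ℂ)) (𝓝 α₁))
    (hl₂ : Tendsto (fun t => (F t).re) (𝓝[{t : ℂ | 0 < t.im}] (t₂ : ℂ)) (𝓝 α₂))
    {l : ℂ} (hl : ‖l‖ = 1) {k : ℝ} (hdl : dPhi C B (-1 + I) * (I * l) = k)
    {p : ℝ} (hP0 : P (-1 + I) = p) :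
    ∃ h g : ℂ → ℂ, DifferentiableOn ℂ h (ball 0 1) ∧ DifferentiableOn ℂ g (ball 0 1) ∧
      InjOn (fun z => h z + (starRingEnd ℂ) (g z)) (ball 0 1) ∧
      (fun z => h z + (starRingEnd ℂ) (g z)) '' ball 0 1 = slitDom α₁ α₂ ∧
      h 0 + (starRingEnd ℂ) (g 0) = ⟨(F (-1 + I)).re, (Phi C B (-1 + I)).im⟩ ∧
      (∀ z ∈ ball (0:ℂ) 1, ‖deriv g z‖ < ‖deriv h z‖) ∧
      (∀ z ∈ ball (0:ℂ) 1, (P (nu l z) - 1) / (P (nu l z) + 1) = deriv g z / deriv h z) ∧
      deriv h 0 = ((k * (p + 1) : ℝ) : ℂ) ∧ deriv g 0 = ((k * (p - 1) : ℝ) : ℂ) := by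
  have hcomb : ∀ z, (F (nu l z) + Phi C B (nu l z)) / 2 +
      (starRingEnd ℂ) ((F (nu l z) - Phi C B (nu l z)) / 2) =
      ⟨(F (nu l z)).re, (Phi C B (nu l z)).im⟩ := by
    intro z
    apply Complex.ext
    · rw [Complex.add_re, Complex.conj_re]
      simp only [Complex.div_ofNat_re, Complex.add_re, Complex.sub_re]; ring
    · rw [Complex.add_im, Complex.conj_im]
      simp only [Complex.div_ofNat_im, Complex.add_im, Complex.sub_im]; ring
  have hd1 : ∀ z ∈ ball (0:ℂ) 1, HasDerivAt (fun z => (F (nu l z) + Phi C B (nu l z)) / 2)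
      (dPhi C B (nu l z) * (2 * I * l / (1 - l * z) ^ 2) * (P (nu l z) + 1) / 2) z := by
    intro z hz
    have h1 := hasDerivAt_nu hl hz
    have him := nu_im hl hz
    have h2 := HasDerivAt.comp z (hF _ him) h1
    have h3 := HasDerivAt.comp z (hasDerivAt_Phi C B (mem_slitPlane_of_im_pos him)) h1
    refine ((h2.add h3).div_const 2).congr_deriv ?_
    ring
  have hd2 : ∀ z ∈ ball (0:ℂ) 1, HasDerivAt (fun z => (F (nu l z) - Phi C B (nu l z)) / 2)
      (dPhi C B (nu l z) * (2 * I * l / (1 - l * z) ^ 2) * (P (nu l z) - 1) / 2) z := by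
    intro z hz
    have h1 := hasDerivAt_nu hl hz
    have him := nu_im hl hz
    have h2 := HasDerivAt.comp z (hF _ him) h1
    have h3 := HasDerivAt.comp z (hasDerivAt_Phi C B (mem_slitPlane_of_im_pos him)) h1
    refine ((h2.sub h3).div_const 2).congr_deriv ?_
    ring
  have hl0 : l ≠ 0 := by
    intro h; rw [h, norm_zero] at hl; exact zero_ne_one hl
  have hfac : ∀ z ∈ ball (0:ℂ) 1, dPhi C B (nu l z) * (2 * I * l / (1 - l * z) ^ 2) ≠ 0 := by
    intro z hz
    apply mul_ne_zero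
    · intro h
      have h1 := dPhi_im_neg (C := C) (B := B) (a := (nu l z).re) (b := (nu l z).im) hC
        (nu_im hl hz)
      have h2 : (⟨(nu l z).re, (nu l z).im⟩ : ℂ) = nu l z := rfl
      rw [h2, h] at h1
      simp at h1
    · apply div_ne_zero
      · simp [hl0]
      · exact pow_ne_zero 2 (one_sub_ne hl hz)
  have hlt : ∀ z ∈ ball (0:ℂ) 1, ‖P (nu l z) - 1‖ < ‖P (nu l z) + 1‖ := by
    intro z hz
    have h1 := hP _ (nu_im hl hz)
    have e1 : ‖P (nu l z) - 1‖ ^ 2 < ‖P (nu l z) + 1‖ ^ 2 := by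
      rw [← Complex.normSq_eq_norm_sq, ← Complex.normSq_eq_norm_sq, Complex.normSq_apply,
        Complex.normSq_apply]
      simp
      nlinarith
    exact lt_of_pow_lt_pow_left₀ 2 (norm_nonneg _) e1
  have h00 : (0:ℂ) ∈ ball (0:ℂ) 1 := by simp
  refine ⟨fun z => (F (nu l z) + Phi C B (nu l z)) / 2,
    fun z => (F (nu l z) - Phi C B (nu l z)) / 2, ?_, ?_, ?_, ?_, ?_, ?_, ?_, ?_, ?_⟩
  · intro z hz
    exact (hd1 z hz).differentiableAt.differentiableWithinAt
  · intro z hz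
    exact (hd2 z hz).differentiableAt.differentiableWithinAt
  · have h1 := (shear_injOn hC hc₀ hF hP).comp (nu_bijOn hl).injOn (nu_bijOn hl).mapsTo
    refine h1.congr ?_
    intro z _
    exact (hcomb z).symm
  · have h1 := shear_image hC ht₁ ht₂ hc₁ hc₂ hc₀ hF hP hl₁ hl₂
    rw [← h1, ← (nu_bijOn hl).image_eq, image_image]
    apply image_congr
    intro z _
    exact hcomb z
  · show (F (nu l 0) + Phi C B (nu l 0)) / 2 +
      (starRingEnd ℂ) ((F (nu l 0) - Phi C B (nu l 0)) / 2) = _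
    rw [hcomb, nu_zero]
  · intro z hz
    rw [(hd1 z hz).deriv, (hd2 z hz).deriv, norm_div, norm_div,
      norm_mul (dPhi C B (nu l z) * (2 * I * l / (1 - l * z) ^ 2)) (P (nu l z) - 1),
      norm_mul (dPhi C B (nu l z) * (2 * I * l / (1 - l * z) ^ 2)) (P (nu l z) + 1)]
    apply div_lt_div_of_pos_right _ (by simp)
    exact mul_lt_mul_of_pos_left (hlt z hz) (norm_pos_iff.2 (hfac z hz))
  · intro z hz
    rw [(hd1 z hz).deriv, (hd2 z hz).deriv]
    have h1 := hfac z hz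
    have h2 : P (nu l z) + 1 ≠ 0 := by
      have := lt_of_le_of_lt (norm_nonneg _) (hlt z hz)
      exact norm_pos_iff.1 this
    rw [div_div_div_cancel_right₀ (by norm_num : (2:ℂ) ≠ 0), mul_div_mul_left _ _ h1]
  · rw [(hd1 0 h00).deriv, nu_zero, hP0]
    have : dPhi C B (-1 + I) * (2 * I * l / (1 - l * 0) ^ 2) * ((p : ℂ) + 1) / 2 =
      (dPhi C B (-1 + I) * (I * l)) * ((p : ℂ) + 1) := by
      simp; ring
    rw [this, hdl]; push_cast; ring
  · rw [(hd2 0 h00).deriv, nu_zero, hP0]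
    have : dPhi C B (-1 + I) * (2 * I * l / (1 - l * 0) ^ 2) * ((p : ℂ) - 1) / 2 =
      (dPhi C B (-1 + I) * (I * l)) * ((p : ℂ) - 1) := by
      simp; ring
    rw [this, hdl]; push_cast; ring

end Pool.Agent.H802R2
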