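import Pool.Agent.H802R2.SlitEnds

/-! Topology of the slit domains. -/

open Complex Set Filter Topology
open scoped unitInterval

namespace Pool.Agent.H802R2

theorem isOpen_slitDom (α₁ α₂ : ℝ) : IsOpen (slitDom α₁ α₂) := by
  have h : slitDom α₁ α₂ = ({w : ℂ | w.im = Real.pi} ∩ {w : ℂ | w.re ≤ α₁})ᶜ ∩
      ({w : ℂ | w.im = 0} ∩ {w : ℂ | w.re ≤ α₂})ᶜ := by
    ext w
    simp [slitDom]
  rw [h]
  apply IsOpen.inter
  · apply IsClosed.isOpen_compl (self := ?_)
    exact (isClosed_eq continuous_im continuous_const).inter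
      (isClosed_le continuous_re continuous_const)
  · apply IsClosed.isOpen_compl (self := ?_)
    exact (isClosed_eq continuous_im continuous_const).inter
      (isClosed_le continuous_re continuous_const)

theorem slitDom_ne_univ (α₁ α₂ : ℝ) : slitDom α₁ α₂ ≠ univ := by
  intro h
  have h1 : (⟨α₂, 0⟩ : ℂ) ∈ slitDom α₁ α₂ := by rw [h]; trivial
  have := h1.2 rfl
  exact lt_irrefl _ this

theorem mem_slitDom_of_le {α₁ α₂ : ℝ} {w w' : ℂ} (hw : w ∈ slitDom α₁ α₂) (him : w'.im = w.im)
    (hre : w.re ≤ w'.re) : w' ∈ slitDom α₁ α₂ := by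
  refine ⟨fun h => ?_, fun h => ?_⟩
  · exact lt_of_lt_of_le (hw.1 (him ▸ h)) hre
  · exact lt_of_lt_of_le (hw.2 (him ▸ h)) hre

theorem mem_slitDom_of_large {α₁ α₂ : ℝ} {w : ℂ} (hw : max α₁ α₂ + 1 ≤ w.re) :
    w ∈ slitDom α₁ α₂ := by
  have h1 := le_max_left α₁ α₂
  have h2 := le_max_right α₁ α₂
  refine ⟨fun _ => by linarith, fun _ => by linarith⟩

theorem contractible_slitDom (α₁ α₂ : ℝ) : ContractibleSpace (slitDom α₁ α₂) := by
  rw [contractible_iff_id_nullhomotopic]
  set X₀ : ℝ := max α₁ α₂ + 1 with hX₀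
  have hc0 : ((X₀ : ℝ) : ℂ) ∈ slitDom α₁ α₂ := mem_slitDom_of_large (by simp [hX₀])
  refine ⟨⟨(X₀ : ℂ), hc0⟩, ?_⟩
  -- the retraction onto a half-plane
  let r : C(slitDom α₁ α₂, slitDom α₁ α₂) :=
    ⟨fun w => ⟨⟨max w.1.re X₀, w.1.im⟩, mem_slitDom_of_large (le_max_right _ _)⟩, by
      apply Continuous.subtype_mk
      have h1 : Continuous (fun p : ℝ × ℝ => (⟨p.1, p.2⟩ : ℂ)) :=
        Complex.equivRealProdCLM.symm.continuous
      have h2 : Continuous (fun w : slitDom α₁ α₂ => ((max w.1.re X₀, w.1.im) : ℝ × ℝ)) := by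
        apply Continuous.prodMk
        · exact (continuous_re.comp continuous_subtype_val).max continuous_const
        · exact continuous_im.comp continuous_subtype_val
      exact h1.comp h2⟩
  have H1 : ContinuousMap.Homotopic (ContinuousMap.id (slitDom α₁ α₂)) r := by
    refine ⟨⟨⟨fun p => ⟨⟨(1 - (p.1 : ℝ)) * p.2.1.re + (p.1 : ℝ) * max p.2.1.re X₀, p.2.1.im⟩, ?_⟩, ?_⟩, ?_, ?_⟩⟩
    · refine mem_slitDom_of_le (w := p.2.1) p.2.2 rfl ?_
      have h0 : (0:ℝ) ≤ p.1 := p.1.2.1
      have h1 := le_max_left p.2.1.re X₀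
      show p.2.1.re ≤ (1 - (p.1 : ℝ)) * p.2.1.re + (p.1 : ℝ) * max p.2.1.re X₀
      nlinarith
    · apply Continuous.subtype_mk
      have h1 : Continuous (fun p : ℝ × ℝ => (⟨p.1, p.2⟩ : ℂ)) :=
        Complex.equivRealProdCLM.symm.continuous
      have hre : Continuous (fun p : I × slitDom α₁ α₂ => p.2.1.re) :=
        continuous_re.comp (continuous_subtype_val.comp continuous_snd)
      have him : Continuous (fun p : I × slitDom α₁ α₂ => p.2.1.im) :=
        continuous_im.comp (continuous_subtype_val.comp continuous_snd)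
      have hs : Continuous (fun p : I × slitDom α₁ α₂ => (p.1 : ℝ)) :=
        continuous_subtype_val.comp continuous_fst
      have h2 : Continuous (fun p : I × slitDom α₁ α₂ =>
          (((1 - (p.1 : ℝ)) * p.2.1.re + (p.1 : ℝ) * max p.2.1.re X₀, p.2.1.im) : ℝ × ℝ)) := by
        apply Continuous.prodMk _ him
        exact ((continuous_const.sub hs).mul hre).add (hs.mul (hre.max continuous_const))
      exact h1.comp h2
    · intro w
      apply Subtype.ext
      apply Complex.ext <;> simp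
    · intro w
      apply Subtype.ext
      apply Complex.ext <;> simp [r]
  have H2 : ContinuousMap.Homotopic r
      (ContinuousMap.const _ (⟨(X₀ : ℂ), hc0⟩ : slitDom α₁ α₂)) := by
    refine ⟨⟨⟨fun p => ⟨⟨(1 - (p.1 : ℝ)) * max p.2.1.re X₀ + (p.1 : ℝ) * X₀,
      (1 - (p.1 : ℝ)) * p.2.1.im⟩, ?_⟩, ?_⟩, ?_, ?_⟩⟩
    · apply mem_slitDom_of_large
      have h0 : (0:ℝ) ≤ p.1 := p.1.2.1
      have h01 : (p.1 : ℝ) ≤ 1 := p.1.2.2
      have h1 := le_max_right p.2.1.re X₀
      show X₀ ≤ (1 - (p.1 : ℝ)) * max p.2.1.re X₀ + (p.1 : ℝ) * X₀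
      nlinarith
    · apply Continuous.subtype_mk
      have h1 : Continuous (fun p : ℝ × ℝ => (⟨p.1, p.2⟩ : ℂ)) :=
        Complex.equivRealProdCLM.symm.continuous
      have hre : Continuous (fun p : I × slitDom α₁ α₂ => p.2.1.re) :=
        continuous_re.comp (continuous_subtype_val.comp continuous_snd)
      have him : Continuous (fun p : I × slitDom α₁ α₂ => p.2.1.im) :=
        continuous_im.comp (continuous_subtype_val.comp continuous_snd)
      have hs : Continuous (fun p : I × slitDom α₁ α₂ => (p.1 : ℝ)) :=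
        continuous_subtype_val.comp continuous_fst
      have h2 : Continuous (fun p : I × slitDom α₁ α₂ =>
          (((1 - (p.1 : ℝ)) * max p.2.1.re X₀ + (p.1 : ℝ) * X₀,
            (1 - (p.1 : ℝ)) * p.2.1.im) : ℝ × ℝ)) := by
        apply Continuous.prodMk
        · exact ((continuous_const.sub hs).mul (hre.max continuous_const)).add
            (hs.mul continuous_const)
        · exact (continuous_const.sub hs).mul him
      exact h1.comp h2
    · intro w
      apply Subtype.ext
      apply Complex.ext <;> simp [r]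
    · intro w
      apply Subtype.ext
      apply Complex.ext <;> simp
  exact H1.trans H2

theorem simplyConnected_slitDom (α₁ α₂ : ℝ) : SimplyConnectedSpace (slitDom α₁ α₂) := by
  have := contractible_slitDom α₁ α₂
  infer_instance

end Pool.Agent.H802R2
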